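import Pool.Agent.Lib.MP_95bdb0_co.Twins

-- part Pool.Agent.Lib.MP_95bdb0_co.Delete
section

/-!
The deletion induction and the packaged end piece.
-/

set_option linter.unusedVariables false
set_option linter.unusedSectionVars false

namespace Pool.Agent.Lib.MP_95bdb0_co

open Finset

variable {V : Type*} [Fintype V] [DecidableEq V] {G H : SimpleGraph V} {f g : ℕ → V}
  {n k m : ℕ} {s : V → Bool}

/-- The graph `G` with the vertices outside `F` isolated. -/
def res (G : SimpleGraph V) (F : Finset V) : SimpleGraph V where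
  Adj u v := G.Adj u v ∧ u ∈ F ∧ v ∈ F
  symm := ⟨fun _ _ h => ⟨h.1.symm, h.2.2, h.2.1⟩⟩
  loopless := ⟨fun _ h => h.1.ne rfl⟩

theorem res_le (F : Finset V) : res G F ≤ G := fun _ _ h => h.1

open Classical in
/-- The number of ordered adjacent pairs inside `F`. -/
noncomputable def DD (G : SimpleGraph V) (F : Finset V) : ℕ :=
  (univ.filter (fun p : V × V => (res G F).Adj p.1 p.2)).card

theorem DD_del (F K : Finset V) (T : Finset (V × V))
    (hT : ∀ u v, (res G F).Adj u v → u ∈ K → (u, v) ∈ T ∨ (v, u) ∈ T) :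
    DD G F ≤ DD G (F \ K) + 2 * T.card := by
  classical
  unfold DD
  have : (univ.filter (fun p : V × V => (res G F).Adj p.1 p.2)) ⊆
      (univ.filter (fun p : V × V => (res G (F \ K)).Adj p.1 p.2)) ∪ (T ∪ T.image Prod.swap) := by
    rintro ⟨u, v⟩ h
    simp only [mem_filter, mem_univ, true_and] at h
    simp only [mem_union, mem_filter, mem_univ, true_and, mem_image, Prod.exists, Prod.swap_prod_mk,
      Prod.mk.injEq]
    by_cases hu : u ∈ K
    · right
      rcases hT u v h hu with h1 | h1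
      · exact Or.inl h1
      · exact Or.inr ⟨v, u, h1, rfl, rfl⟩
    · by_cases hv : v ∈ K
      · right
        rcases hT v u h.symm hv with h1 | h1
        · exact Or.inr ⟨v, u, h1, rfl, rfl⟩
        · exact Or.inl h1
      · left
        exact ⟨h.1, Finset.mem_sdiff.2 ⟨h.2.1, hu⟩, Finset.mem_sdiff.2 ⟨h.2.2, hv⟩⟩
  have h1 := Finset.card_le_card this
  have h2 := Finset.card_union_le
    (univ.filter (fun p : V × V => (res G (F \ K)).Adj p.1 p.2)) (T ∪ T.image Prod.swap)
  have h3 := Finset.card_union_le T (T.image Prod.swap)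
  have h4 : (T.image Prod.swap).card ≤ T.card := Finset.card_image_le
  omega

theorem deletion (w : V → ℕ) (φ : Finset V → ℕ) (hφ : ∀ F F', F ⊆ F' → φ F ≤ φ F')
    (h : ∀ F : Finset V, F.Nonempty → (∀ v ∈ F, w v < (nb (res G F) v).card) →
      ∃ K, K ⊆ F ∧ K.Nonempty ∧ ∃ T : Finset (V × V),
      (∀ u v, (res G F).Adj u v → u ∈ K → (u, v) ∈ T ∨ (v, u) ∈ T) ∧
      T.card + φ (F \ K) ≤ ∑ v ∈ K, w v + φ F) (F : Finset V) :
    DD G F ≤ 2 * (∑ v ∈ F, w v + φ F) := by
  classical
  induction F using Finset.strongInduction with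
  | H F ih =>
    rcases F.eq_empty_or_nonempty with rfl | hF
    · have : DD G ∅ = 0 := by
        unfold DD
        rw [Finset.card_eq_zero, Finset.filter_eq_empty_iff]
        intro p _ hp
        exact absurd hp.2.1 (by simp)
      omega
    have key : ∃ K, K ⊆ F ∧ K.Nonempty ∧ ∃ T : Finset (V × V),
        (∀ u v, (res G F).Adj u v → u ∈ K → (u, v) ∈ T ∨ (v, u) ∈ T) ∧
        T.card + φ (F \ K) ≤ ∑ v ∈ K, w v + φ F := by
      by_cases hc : ∀ v ∈ F, w v < (nb (res G F) v).card
      · exact h F hF hc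
      · push Not at hc
        obtain ⟨v, hv, hd⟩ := hc
        refine ⟨{v}, by simpa using hv, by simp, {v} ×ˢ nb (res G F) v, ?_, ?_⟩
        · intro u x hux hu
          rw [Finset.mem_singleton] at hu
          subst hu
          left
          simp [mem_nb, hux]
        · have := hφ (F \ {v}) F Finset.sdiff_subset
          simp only [Finset.card_product, card_singleton, one_mul, sum_singleton]
          omega
    obtain ⟨K, hK, hKne, T, hT, hc⟩ := key
    have h1 := ih (F \ K) (Finset.sdiff_ssubset hK hKne)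
    have h2 := DD_del F K T hT
    have h3 := Finset.sum_sdiff (f := w) hK
    omega

theorem exists_ctx0 (hs : Bip H s) {a b : V} (hab : H.Adj a b)
    (hbd : ∀ g k, IsPath H g k → g 0 = a → k ≤ 2 * m) :
    ∃ l r f, IsPath H f l ∧ f 0 = a ∧ r < l ∧ H.Adj (f (l - 1)) (f r) ∧
      Ctx0 H s a l r m (s (f (l - 1))) := by
  classical
  set P : ℕ → Prop := fun k => ∃ g, IsPath H g k ∧ g 0 = a with hP
  have P2 : P 2 := ⟨_, (isPath_single (G := H) a).snoc (x := b) (fun i _ => hab.ne) (fun _ => hab),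
    by rw [cat_lt (by omega)]⟩
  have h2m : 2 ≤ 2 * m := by
    obtain ⟨g, h1, h2⟩ := P2
    exact hbd g 2 h1 h2
  set l := Nat.findGreatest P (2 * m) with hl
  have hl2 : 2 ≤ l := Nat.le_findGreatest h2m P2
  have hPl : P l := Nat.findGreatest_spec h2m P2
  have hmax : ∀ g k, IsPath H g k → g 0 = a → k ≤ l := fun g k h1 h2 =>
    Nat.le_findGreatest (hbd g k h1 h2) ⟨g, h1, h2⟩
  have hex : ∃ r, ∃ f, IsPath H f l ∧ f 0 = a ∧ r < l ∧ H.Adj (f (l - 1)) (f r) := by
    obtain ⟨g, h1, h2⟩ := hPl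
    exact ⟨l - 2, g, h1, h2, by omega, h1.adj' (by omega) (by omega) (by omega)⟩
  obtain ⟨f, h1, h2, h3, h4⟩ := Nat.find_spec hex
  refine ⟨l, Nat.find hex, f, h1, h2, h3, h4, hs, hmax, ?_, Nat.findGreatest_le _, hl2, ?_⟩
  · intro g g1 g2 i hi hadj
    exact Nat.find_min' hex ⟨g, g1, g2, hi, hadj⟩
  · rw [← h2]
    exact h1.side hs _ (by omega)

/-- The data of an end piece. -/
structure PieceData (H : SimpleGraph V) (s : V → Bool) (sY : Bool) (q : ℕ) (z : ℕ → V) (σ : ℕ)
    (S W : Finset V) (e1 e2 : V) : Prop where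
  path : IsPath H z (2 * σ)
  cyc : H.Adj (z (2 * σ - 1)) (z 0)
  hq : q ≤ σ
  memS : ∀ x, x ∈ S ↔ ∃ t, t < 2 * σ ∧ t % 2 = 0 ∧ z t = x
  cardS : S.card = σ
  cardW : σ ≤ W.card
  oddW : ∀ t, t < 2 * σ → t % 2 = 1 → z t ∈ W
  sideS : ∀ x ∈ S, s x ≠ sY
  sideW : ∀ w ∈ W, s w = sY
  degW : ∀ w ∈ W, q ≤ (nb H w).card
  nbW : ∀ w ∈ W, ∀ x, H.Adj w x → x ∈ S ∨ x = e1
  nbS : ∀ x ∈ S, x ≠ z 0 → ∀ y, H.Adj x y → y ∈ W ∨ y = e2

theorem Ctx.piece2 {a : V} {l r p q : ℕ} {sY : Bool} (c : Ctx H s a l r m p q sY)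
    (hf : IsPath H f l) (f0 : f 0 = a) (hrl : r < l) (hc : H.Adj (f (l - 1)) (f r)) :
    ∃ σ S W e1 e2, l = r + 2 * σ ∧ σ ≤ m ∧ PieceData H s sY q (fun i => f (r + i)) σ S W e1 e2 := by
  classical
  obtain ⟨σ, hσ, hq, h1, h2⟩ := c.piece hf f0 hrl hc
  have hl := c.hl
  have hz : IsPath H (fun i => f (r + i)) (2 * σ) := by
    have := hf.drop r
    rwa [show l - r = 2 * σ by omega] at this
  have hr : r % 2 = l % 2 := by omega
  set S := (range σ).image (fun i => f (r + 2 * i)) with hS
  set W := univ.filter (fun y => (∃ t, t < 2 * σ ∧ t % 2 = 1 ∧ f (r + t) = y) ∨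
    (Off f l y ∧ ∃ t, 0 < t ∧ t < 2 * σ ∧ t % 2 = 0 ∧ H.Adj (f (r + t)) y)) with hW
  have memS : ∀ x, x ∈ S ↔ ∃ t, t < 2 * σ ∧ t % 2 = 0 ∧ f (r + t) = x := by
    intro x
    simp only [hS, mem_image, mem_range]
    constructor
    · rintro ⟨i, hi, rfl⟩; exact ⟨2 * i, by omega, by omega, rfl⟩
    · rintro ⟨t, h1, h2, rfl⟩; exact ⟨t / 2, by omega, by congr 1; omega⟩
  have memW : ∀ y, y ∈ W ↔ (∃ t, t < 2 * σ ∧ t % 2 = 1 ∧ f (r + t) = y) ∨
      (Off f l y ∧ ∃ t, 0 < t ∧ t < 2 * σ ∧ t % 2 = 0 ∧ H.Adj (f (r + t)) y) := by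
    intro y; simp only [hW, mem_filter, mem_univ, true_and]
  have sideS : ∀ x ∈ S, s x ≠ sY := by
    intro x hx
    obtain ⟨t, h1, h2, rfl⟩ := (memS x).1 hx
    rw [Ne, c.side hf f0 (by omega)]; omega
  have sideW : ∀ w ∈ W, s w = sY := by
    intro w hw
    rcases (memW w).1 hw with ⟨t, h1, h2, rfl⟩ | ⟨-, t, h0, h1, h2, h3⟩
    · rw [c.side hf f0 (by omega)]; omega
    · exact c.sideAdjY h3 (sideS _ ((memS _).2 ⟨t, h1, h2, rfl⟩))
  have tailX : ∀ x, s x ≠ sY → Tail f r l x → x ∈ S := by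
    rintro x hx ⟨j, h1, h2, rfl⟩
    rw [Ne, c.side hf f0 h2] at hx
    exact (memS _).2 ⟨j - r, by omega, by omega, by congr 1; omega⟩
  have tailY : ∀ x, s x = sY → Tail f r l x → x ∈ W := by
    rintro x hx ⟨j, h1, h2, rfl⟩
    rw [c.side hf f0 h2] at hx
    exact (memW _).2 (Or.inl ⟨j - r, by omega, by omega, by congr 1; omega⟩)
  refine ⟨σ, S, W, f (r - 2), f (r - 1), hσ, by omega, hz, ?_, hq, memS, ?_, ?_, ?_, sideS, sideW,
    ?_, ?_, ?_⟩
  · simp only [show r + (2 * σ - 1) = l - 1 by omega]; exact hc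
  · rw [hS, Finset.card_image_of_injOn, Finset.card_range]
    intro i hi j hj e
    simp only [coe_range, Set.mem_Iio] at hi hj
    have := hf.inj _ _ (by omega) (by omega) e
    omega
  · have : (range σ).card ≤ W.card := by
      apply Finset.card_le_card_of_injOn (fun i => f (r + (2 * i + 1)))
      · intro i hi
        simp only [coe_range, Set.mem_Iio] at hi
        exact (memW _).2 (Or.inl ⟨2 * i + 1, by omega, by omega, rfl⟩)
      · intro i hi j hj e
        simp only [coe_range, Set.mem_Iio] at hi hj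
        have := hf.inj _ _ (by omega) (by omega) e
        omega
    simpa using this
  · intro t h1 h2
    exact (memW _).2 (Or.inl ⟨t, h1, h2, rfl⟩)
  · intro w hw
    have hY := sideW w hw
    rcases (memW w).1 hw with ⟨t, h1, h2, rfl⟩ | ⟨-, t, h0, h1, h2, h3⟩
    · exact c.hq _ (f (r + t - 1)) hY (hf.adj' (by omega) (by omega) (by omega))
    · exact c.hq _ _ hY h3.symm
  · intro w hw x hx
    have hxs := c.sideAdjX hx (sideW w hw)
    rcases (memW w).1 hw with ⟨t, h3, h4, rfl⟩ | ⟨ow, t, h0, h3, h4, h5⟩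
    · rcases h1 t h3 h4 x hx with h | h
      · exact Or.inl (tailX x hxs h)
      · exact Or.inr h
    · rcases h2 t h0 h3 h4 w h5 with ⟨j, _, hj, e⟩ | h | h
      · exact absurd e (ow j hj)
      · exact absurd h.symm (ow _ (by omega))
      · exact Or.inl (tailX x hxs (h.2 x hx))
  · intro x hx hne y hy
    have hys := c.sideAdjY hy (sideS x hx)
    obtain ⟨t, h3, h4, rfl⟩ := (memS x).1 hx
    have h0 : 0 < t := by
      rcases Nat.eq_zero_or_pos t with rfl | h
      · exact absurd rfl hne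
      · exact h
    rcases h2 t h0 h3 h4 y hy with h | h | h
    · exact Or.inl (tailY y hys h)
    · exact Or.inr h
    · exact Or.inl ((memW _).2 (Or.inr ⟨h.1, t, h0, h3, h4, hy⟩))

variable {sY : Bool} {q σ : ℕ} {z : ℕ → V} {S W : Finset V} {e1 e2 : V}

theorem PieceData.degWS (P : PieceData H s sY q z σ S W e1 e2) {w : V} (hw : w ∈ W) :
    q ≤ (nb H w ∩ S).card + 1 := by
  have h1 := P.degW w hw
  have h2 : nb H w ⊆ insert e1 (nb H w ∩ S) := by
    intro x hx
    rcases P.nbW w hw x (mem_nb.1 hx) with h | h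
    · exact Finset.mem_insert_of_mem (Finset.mem_inter.2 ⟨hx, h⟩)
    · simp [h]
  exact h1.trans ((Finset.card_le_card h2).trans (Finset.card_insert_le _ _))

theorem PieceData.idxW (P : PieceData H s sY q z σ S W e1 e2) {w : V} (hw : w ∈ W) :
    q ≤ (idx H z (2 * σ) w).card + 1 := by
  have h1 := P.degW w hw
  have h2 := nb_card_le (H := H) (f := z) (n := 2 * σ) w {e1} (by
    intro x hx ox
    rcases P.nbW w hw x hx with h | h
    · obtain ⟨t, h1, _, e⟩ := (P.memS x).1 h
      exact absurd e (ox t h1)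
    · simp [h])
  simpa using h1.trans h2

open Classical in
/-- The pairs covering all edges at the deleted part of a piece. -/
noncomputable def coverT (H : SimpleGraph V) (S W : Finset V) (e1 e2 : V) : Finset (V × V) :=
  (S ×ˢ W).filter (fun p => H.Adj p.1 p.2) ∪ ({e1} ×ˢ W ∪ S ×ˢ {e2})

theorem PieceData.cover (P : PieceData H s sY q z σ S W e1 e2) :
    ∀ u v, H.Adj u v → u ∈ S.erase (z 0) ∪ W →
      (u, v) ∈ coverT H S W e1 e2 ∨ (v, u) ∈ coverT H S W e1 e2 := by
  intro u v h hu
  unfold coverT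
  rcases Finset.mem_union.1 hu with hu | hu
  · obtain ⟨h1, h2⟩ := Finset.mem_erase.1 hu
    left
    rcases P.nbS u h2 h1 v h with h3 | h3
    · simp [h2, h3, h]
    · simp [h2, h3]
  · right
    rcases P.nbW u hu v h with h3 | h3
    · simp [hu, h3, h.symm]
    · simp [hu, h3]

open Classical in
theorem coverT_card : (coverT H S W e1 e2).card ≤
    ∑ x ∈ S, (W.filter (H.Adj x)).card + W.card + S.card := by
  unfold coverT
  have h1 := Finset.card_union_le ((S ×ˢ W).filter (fun p => H.Adj p.1 p.2))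
    ({e1} ×ˢ W ∪ S ×ˢ {e2})
  have h2 := Finset.card_union_le (({e1} : Finset V) ×ˢ W) (S ×ˢ ({e2} : Finset V))
  have h3 : ((S ×ˢ W).filter (fun p => H.Adj p.1 p.2)).card =
      ∑ x ∈ S, (W.filter (H.Adj x)).card := by
    rw [Finset.card_filter, Finset.sum_product]
    simp only [Finset.card_filter]
  simp only [Finset.card_product, card_singleton, one_mul, mul_one] at h2
  omega

theorem PieceData.cardK (P : PieceData H s sY q z σ S W e1 e2) (hσ : 0 < σ) :
    (S.erase (z 0) ∪ W).card = σ - 1 + W.card := by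
  rw [Finset.card_union_of_disjoint, Finset.card_erase_of_mem, P.cardS]
  · exact (P.memS _).2 ⟨0, by omega, rfl, rfl⟩
  · rw [Finset.disjoint_left]
    intro x hx hw
    exact P.sideS x (Finset.mem_of_mem_erase hx) (P.sideW x hw)

theorem PieceData.subF {F : Finset V} (P : PieceData (res G F) s sY q z σ S W e1 e2)
    (hq : 0 < q) : (∀ t, t < 2 * σ → z t ∈ F) ∧ W ⊆ F ∧ S ⊆ F := by
  have hσ := P.hq
  have h1 : ∀ t, t < 2 * σ → z t ∈ F := by
    intro t ht
    by_cases h : t + 1 < 2 * σ
    · exact (P.path.adj t h).2.1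
    · rw [show t = 2 * σ - 1 by omega]; exact P.cyc.2.1
  refine ⟨h1, ?_, ?_⟩
  · intro w hw
    obtain ⟨x, hx⟩ := Finset.card_pos.1 (lt_of_lt_of_le hq (P.degW w hw))
    exact (mem_nb.1 hx).2.1
  · intro x hx
    obtain ⟨t, h2, _, rfl⟩ := (P.memS x).1 hx
    exact h1 t h2

theorem nb_mono (h : H ≤ G) (u : V) : nb H u ⊆ nb G u := fun x hx => mem_nb.2 (h (mem_nb.1 hx))

theorem PieceData.cover_bound {σ0 : ℕ} (P : PieceData H s sY q z σ S W e1 e2) (hHG : H ≤ G)
    (hmax : ∀ T, Clq G m T → T.card ≤ σ0) (hq : σ0 + 1 < q) (hσ : σ ≤ m) :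
    (coverT H S W e1 e2).card ≤ (m + 1) * (m * m * (4 * m)) + m := by
  classical
  have h1 : W.card ≤ S.card * S.card * (4 * m) := card_W_le hmax (by
    intro w hw
    have h2 := P.degWS hw
    have h3 : (nb H w ∩ S).card ≤ (nb G w ∩ S).card :=
      Finset.card_le_card (Finset.inter_subset_inter_right (nb_mono hHG w))
    omega)
  have h2 := coverT_card (H := H) (S := S) (W := W) (e1 := e1) (e2 := e2)
  have h3 : ∑ x ∈ S, (W.filter (H.Adj x)).card ≤ S.card * W.card := by
    rw [← smul_eq_mul]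
    exact Finset.sum_le_card_nsmul _ _ _ (fun x _ => Finset.card_filter_le _ _)
  rw [P.cardS] at h1 h2 h3
  have h4 : W.card ≤ m * m * (4 * m) := h1.trans (by gcongr)
  have h5 : σ * W.card ≤ m * (m * m * (4 * m)) := by gcongr
  calc _ ≤ σ * W.card + W.card + σ := by omega
    _ ≤ m * (m * m * (4 * m)) + m * m * (4 * m) + m := by omega
    _ = _ := by ring

/-- Connecting a root to a vertex set. -/
theorem exists_root (hc : G.Preconnected) (c : V) {F : Finset V} (hF : F.Nonempty) :
    ∃ a ∈ F, ∃ g k, ∀ f l, IsPath (res G F) f l → f 0 = a → 0 < l →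
      IsPath G (cat g k f) (k + l) ∧ cat g k f 0 = c := by
  obtain ⟨g, k, p, hk, g0, gl, -, hB, -, -⟩ := exists_geodesic hc (A := {c}) (B := (F : Set V))
    (Set.singleton_nonempty _) (by simpa using hF)
  rw [Set.mem_singleton_iff] at g0
  refine ⟨g (k - 1), gl, g, k - 1, fun f l hf f0 hl => ⟨?_, ?_⟩⟩
  · apply (p.trunc (by omega)).cat (hf.mono (res_le F))
    · intro i j hi hj e
      apply hB i (by omega)
      rw [e]
      rcases Nat.eq_zero_or_pos j with rfl | h
      · rw [f0]; exact gl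
      · have := hf.adj (j - 1) (by omega)
        rw [show j - 1 + 1 = j by omega] at this
        exact this.2.2
    · intro h1 _
      rw [f0]
      exact p.adj' (by omega) (by omega) (by omega)
  · by_cases h : 0 < k - 1
    · rw [cat_lt h, g0]
    · rw [cat_ge (by omega), show 0 - (k - 1) = 0 by omega, f0, show k - 1 = 0 by omega, g0]

end Pool.Agent.Lib.MP_95bdb0_co
end

-- part Pool.Agent.Lib.MP_95bdb0_co.Viol
section

/-!
Two dense pieces meeting in at most one vertex produce a broom.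
-/

set_option linter.unusedVariables false
set_option linter.unusedSectionVars false

namespace Pool.Agent.Lib.MP_95bdb0_co

open Finset

variable {V : Type*} [Fintype V] [DecidableEq V] {G H : SimpleGraph V} {f g : ℕ → V}
  {n k m : ℕ} {s : V → Bool}

open Classical in
/-- A dense piece. -/
structure Viol (G : SimpleGraph V) (m : ℕ) (z : ℕ → V) (σ : ℕ) (W : Finset V) : Prop where
  path : IsPath G z (2 * σ)
  cyc : G.Adj (z (2 * σ - 1)) (z 0)
  hi : σ ≤ m
  lo : m + 2 ≤ 2 * σ
  odd : ∀ t, t < 2 * σ → t % 2 = 1 → m + 5 ≤ 2 * (idx G z (2 * σ) (z t)).card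
  high : ∃ j1 j2, j1 ≠ j2 ∧ j1 < 2 * σ ∧ j2 < 2 * σ ∧ j1 % 2 = 0 ∧ j2 % 2 = 0 ∧
    2 * m + 3 ≤ (W.filter (G.Adj (z j1))).card + σ ∧
    2 * m + 3 ≤ (W.filter (G.Adj (z j2))).card + σ

theorem idx_shift {t : ℕ} (ht : t ≤ n) (u : V) :
    (idx G f n u).card ≤ (idx G (fun i => f (shiftI n t i)) n u).card := by
  apply Finset.card_le_card_of_surjOn (shiftI n t)
  intro j hj
  obtain ⟨h1, h2⟩ := mem_idx.1 (Finset.mem_coe.1 hj)
  obtain ⟨i, hi, e⟩ := shiftI_surj ht h1
  exact ⟨i, Finset.mem_coe.2 (mem_idx.2 ⟨hi, by simpa [e] using h2⟩), e⟩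

open Classical in
theorem Viol.exists_path {z : ℕ → V} {σ : ℕ} {W : Finset V} (P : Viol G m z σ W) (hs : Bip G s)
    {t0 : ℕ} (ht0 : t0 < 2 * σ) :
    ∃ R N, IsPath G R N ∧ 2 * σ - 2 ≤ N ∧ Sub R N z (2 * σ) ∧ R (N - 1) = z t0 ∧
      2 * m + 3 ≤ (W.filter (G.Adj (R 0))).card + σ := by
  obtain ⟨j1, j2, hne, a1, a2, b1, b2, c1, c2⟩ := P.high
  have hlo := P.lo
  have hhi := P.hi
  set d := t0 % 2 with hd
  obtain ⟨p1, p2⟩ := P.path.shift P.cyc (t := t0 + d) (by omega)
  obtain ⟨j, hj1, hj2, hj3, hj4⟩ : ∃ j, j < 2 * σ ∧ j % 2 = 0 ∧ j ≠ shiftI (2 * σ) (t0 + d) 0 ∧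
      2 * m + 3 ≤ (W.filter (G.Adj (z j))).card + σ := by
    by_cases h : j1 = shiftI (2 * σ) (t0 + d) 0
    · exact ⟨j2, a2, b2, fun e => hne (h.trans e.symm), c2⟩
    · exact ⟨j1, a1, b1, h, c1⟩
  obtain ⟨i, hi, e⟩ := shiftI_surj (n := 2 * σ) (t := t0 + d) (by omega) hj1
  have hi0 : i ≠ 0 := by rintro rfl; exact hj3 e.symm
  have hi2 : i % 2 = 0 := by
    unfold shiftI at e
    split_ifs at e <;> omega
  have odd' : ∀ u, u < 2 * σ → u % 2 = 1 → m + 5 ≤ 2 * (idx G (fun i => z (shiftI (2 * σ) (t0 + d) i))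
      (2 * σ) (z (shiftI (2 * σ) (t0 + d) u))).card := by
    intro u hu hu1
    have h1 := P.odd (shiftI (2 * σ) (t0 + d) u) (shiftI_lt (by omega) hu) (by
      unfold shiftI; split_ifs <;> omega)
    have h2 := idx_shift (G := G) (f := z) (n := 2 * σ) (t := t0 + d) (by omega)
      (z (shiftI (2 * σ) (t0 + d) u))
    omega
  have o1 := odd' 1 (by omega) (by omega)
  have o2 := odd' (i + 1) (by omega) (by omega)
  obtain ⟨φ, h1, h2, h3, h4, h5, h6⟩ := hc_path hs p1 p2 hi2 (by omega) (by omega) (by omega)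
  refine ⟨fun u => z (shiftI (2 * σ) (t0 + d) (φ (2 * σ - 1 - 1 - u))), 2 * σ - 1 - d,
    h2.rev.trunc (by omega), by omega, ?_, ?_, ?_⟩
  · intro u hu
    exact ⟨_, shiftI_lt (by omega) (h1 _ (by omega)), rfl⟩
  · beta_reduce
    congr 1
    rcases (show d = 0 ∨ d = 1 by omega) with h | h
    · rw [show 2 * σ - 1 - 1 - (2 * σ - 1 - d - 1) = 0 by omega, h3]
      unfold shiftI; split_ifs <;> omega
    · rw [show 2 * σ - 1 - 1 - (2 * σ - 1 - d - 1) = 1 by omega, h4]
      unfold shiftI; split_ifs <;> omega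
  · beta_reduce
    rw [show 2 * σ - 1 - 1 - 0 = 2 * σ - 2 by omega, h5, e]
    exact hj4

theorem shortcut (hs : Bip G s) (hf : IsPath G f n) {ρ : ℕ} (hn : 2 * ρ + 2 ≤ n) :
    ∃ R N, IsPath G R N ∧ 2 * ρ + 2 ≤ N ∧ Sub R N f n ∧ R 0 = f 0 ∧ R (N - 1) = f (n - 1) ∧
      (idx G R N (f 0)).card ≤ ρ + 1 := by
  classical
  set t := Nat.findGreatest (fun t => G.Adj (f 0) (f t)) (n - 2 * ρ - 1) with ht
  have a1 : G.Adj (f 0) (f 1) := hf.adj 0 (by omega)
  have t1 : 1 ≤ t := Nat.le_findGreatest (P := fun t => G.Adj (f 0) (f t)) (by omega) a1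
  have t2 : t ≤ n - 2 * ρ - 1 := Nat.findGreatest_le _
  have t3 : G.Adj (f 0) (f t) :=
    Nat.findGreatest_spec (P := fun t => G.Adj (f 0) (f t)) (m := 1) (by omega) a1
  have t4 : ∀ u, t < u → u ≤ n - 2 * ρ - 1 → ¬ G.Adj (f 0) (f u) := fun u h1 h2 =>
    Nat.findGreatest_is_greatest (P := fun t => G.Adj (f 0) (f t)) h1 h2
  have p : IsPath G (fun i => f (if i < 1 then 0 else t + i - 1)) (n - t + 1) := by
    apply hf.reindex
    · intro i hi; split_ifs <;> omega
    · intro i j hi hj; split_ifs <;> omega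
    · intro i hi
      by_cases h : i = 0
      · subst h; simpa using t3
      · apply hf.adj' <;> split_ifs <;> omega
  refine ⟨_, _, p, by omega, ?_, by simp, ?_, ?_⟩
  · intro i hi
    refine ⟨_, ?_, rfl⟩
    split_ifs <;> omega
  · congr 1
    split_ifs <;> omega
  · have h1 : ((idx G (fun i => f (if i < 1 then 0 else t + i - 1)) (n - t + 1) (f 0)).erase 1).card
        ≤ (2 * ρ + 1) / 2 := by
      apply card_le_half (lo := n - 2 * ρ - t + 1) (e := 1)
      intro i hi
      obtain ⟨h2, h3⟩ := Finset.mem_erase.1 hi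
      obtain ⟨h4, h5⟩ := mem_idx.1 h3
      have h6 : ¬ i < 1 := by
        intro h
        simp only [h, if_true] at h5
        exact h5.ne rfl
      have h7 := hs _ _ h5
      have h8 := p.side hs i h4
      simp only [h6, if_false, Nat.lt_one_iff, if_true] at h5 h7 h8
      have h9 : ¬ i % 2 = 0 := fun e => h7 (h8.2 e).symm
      have h10 : ¬ (t + i - 1 ≤ n - 2 * ρ - 1) := fun e => t4 _ (by omega) e h5
      omega
    have h2 := Finset.pred_card_le_card_erase
      (s := idx G (fun i => f (if i < 1 then 0 else t + i - 1)) (n - t + 1) (f 0)) (a := 1)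
    omega

theorem two_viol (hc : G.Preconnected) (hs : Bip G s) (hb : NoBroom G m) {z z' : ℕ → V}
    {σ σ' : ℕ} {W W' : Finset V} (P : Viol G m z σ W) (P' : Viol G m z' σ' W') (hσ : σ ≤ σ')
    {v : V} (hv : ∀ x, ((∃ t, t < 2 * σ ∧ z t = x) ∨ x ∈ W) → (∃ t, t < 2 * σ' ∧ z' t = x) → x = v) :
    False := by
  classical
  have hlo := P.lo
  have hhi := P.hi
  have hlo' := P'.lo
  have hhi' := P'.hi
  obtain ⟨g, k, pg, hk, ⟨t0, ht0, g0⟩, ⟨t1, ht1, gl⟩, hA, hB, hch, hk1⟩ := exists_geodesic hc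
    (A := {x | ∃ t, t < 2 * σ ∧ z t = x}) (B := {x | ∃ t, t < 2 * σ' ∧ z' t = x})
    ⟨z 0, 0, by omega, rfl⟩ ⟨z' 0, 0, by omega, rfl⟩
  obtain ⟨R0, N0, q1, q2, q3, q4, q5⟩ := P.exists_path hs ht0
  obtain ⟨R, N, r1, r2, r3, r4, r5, r6⟩ := shortcut hs q1 (ρ := m - σ') (by omega)
  have RZ : ∀ i, i < N → ∃ t, t < 2 * σ ∧ z t = R i := by
    intro i hi
    obtain ⟨j, hj, e⟩ := r3 i hi
    obtain ⟨t, ht, e'⟩ := q3 j hj
    exact ⟨t, ht, by rw [e, e']⟩
  have Rl : R (N - 1) = g 0 := by rw [r5, q4, g0]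
  obtain ⟨p1, -⟩ := P'.path.shift P'.cyc (t := t1) ht1.le
  have s0 : shiftI (2 * σ') t1 0 = t1 := by simp [shiftI, ht1]
  have p2 := pg.cat (p1.drop 1) (by
    intro i j hi hj e
    by_cases h : i + 1 < k
    · exact hB i h ⟨_, shiftI_lt ht1.le (by omega), e.symm⟩
    · rw [show i = k - 1 by omega, ← gl, ← s0] at e
      have := p1.inj 0 (1 + j) (by omega) (by omega) (by simpa [s0] using e)
      omega) (fun _ _ => by
      rw [← gl]
      have := p1.adj 0 (by omega)
      simpa [s0] using this)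
  have p3 := (r1.trunc (k := N - 1) (by omega)).cat p2 (by
    intro i j hi hj e
    have hne : R i ≠ g 0 := by
      rw [← Rl]
      intro e'
      have := r1.inj _ _ (by omega) (by omega) e'
      omega
    by_cases h : j < k
    · rw [cat_lt h] at e
      rcases Nat.eq_zero_or_pos j with rfl | h0
      · exact hne e
      · exact hA j h0 h (e ▸ RZ i (by omega))
    · rw [cat_ge (by omega)] at e
      have hz' : ∃ t, t < 2 * σ' ∧ z' t = R i := ⟨_, shiftI_lt ht1.le (by omega), e.symm⟩
      have k1 := hk1 (R i) (RZ i (by omega)) hz'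
      have e1 := hv _ (Or.inl (RZ i (by omega))) hz'
      have e2 := hv (g 0) (Or.inl ⟨t0, ht0, g0⟩) ⟨t1, ht1, by rw [gl, k1]⟩
      exact hne (e1.trans e2.symm)) (fun _ _ => by
      rw [cat_lt hk, ← Rl]
      exact r1.adj' (by omega) (by omega) (by omega))
  have := hb _ ((W.filter (G.Adj (R0 0))) \ ((idx G R N (R0 0)).image R ∪ {g 1, v}))
    (p3.trunc (by omega)) (by
      intro x hx
      obtain ⟨h1, h2⟩ := Finset.mem_sdiff.1 hx
      obtain ⟨h3, h4⟩ := Finset.mem_filter.1 h1
      simp only [mem_union, mem_image, mem_insert, mem_singleton, not_or, not_exists, not_and] at h2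
      obtain ⟨h5, h6, h7⟩ := h2
      refine ⟨by rw [cat_lt (by omega), r4]; exact h4, fun i hi e => ?_⟩
      by_cases c1 : i < N - 1
      · rw [cat_lt c1] at e
        exact h5 i (mem_idx.2 ⟨by omega, e ▸ h4⟩) e
      · rw [cat_ge (by omega)] at e
        by_cases c2 : i - (N - 1) < k
        · rw [cat_lt c2] at e
          by_cases c3 : i - (N - 1) = 0
          · rw [c3, ← Rl] at e
            exact h5 (N - 1) (mem_idx.2 ⟨by omega, e ▸ h4⟩) e
          by_cases c4 : i - (N - 1) = 1
          · rw [c4] at e; exact h6 e.symm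
          refine hch (R0 0) ?_ _ (by omega) c2 (e ▸ h4)
          rw [← r4]; exact RZ 0 (by omega)
        · rw [cat_ge (by omega)] at e
          exact h7 (hv x (Or.inr h3) ⟨_, shiftI_lt ht1.le (by omega), e⟩))
  have h1 := Finset.le_card_sdiff ((idx G R N (R0 0)).image R ∪ {g 1, v})
    (W.filter (G.Adj (R0 0)))
  have h2 := Finset.card_union_le ((idx G R N (R0 0)).image R) {g 1, v}
  have h3 : ((idx G R N (R0 0)).image R).card ≤ (idx G R N (R0 0)).card := Finset.card_image_le
  have h4 : ({g 1, v} : Finset V).card ≤ 2 := Finset.card_le_two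
  omega

end Pool.Agent.Lib.MP_95bdb0_co
end

-- part Pool.Agent.Lib.MP_95bdb0_co.Upper
section

/-!
The edge bound for connected bipartite broom-free graphs.
-/

set_option linter.unusedVariables false
set_option linter.unusedSectionVars false

namespace Pool.Agent.Lib.MP_95bdb0_co

open Finset

variable {V : Type*} [Fintype V] [DecidableEq V] {G H : SimpleGraph V} {f g : ℕ → V}
  {n k m : ℕ} {s : V → Bool}

theorem amgm {σ u h : ℕ} (e : h * σ + h * u < σ * u) : 4 * h < σ + u := by
  by_contra hc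
  push Not at hc
  have h1 : (σ + u) * (σ + u) ≤ 4 * h * (σ + u) := Nat.mul_le_mul_right _ hc
  nlinarith [sq_nonneg ((σ : ℤ) - u)]

theorem idx_mono (h : H ≤ G) (u : V) : (idx H f n u).card ≤ (idx G f n u).card :=
  Finset.card_le_card (fun i hi => mem_idx.2 ⟨(mem_idx.1 hi).1, h (mem_idx.1 hi).2⟩)

theorem PieceData.viol {sY : Bool} {σ : ℕ} {z : ℕ → V} {S W : Finset V} {e1 e2 : V}
    (P : PieceData H s sY (m / 2 + 7) z σ S W e1 e2) (hHG : H ≤ G) (hσ : σ ≤ m) :
    (coverT H S W e1 e2).card ≤ (m / 2 + 6) * (σ - 1 + W.card) ∨ Viol G m z σ W := by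
  classical
  have hq := P.hq
  set Hi := S.filter (fun x => 2 * m + 3 ≤ (W.filter (G.Adj x)).card + σ) with hHi
  by_cases h : 1 < Hi.card
  · right
    obtain ⟨x, hx, y, hy, hne⟩ := Finset.one_lt_card.1 h
    obtain ⟨x1, x2⟩ := Finset.mem_filter.1 hx
    obtain ⟨y1, y2⟩ := Finset.mem_filter.1 hy
    obtain ⟨j1, a1, b1, rfl⟩ := (P.memS x).1 x1
    obtain ⟨j2, a2, b2, rfl⟩ := (P.memS y).1 y1
    refine ⟨P.path.mono hHG, hHG P.cyc, hσ, by omega, ?_, j1, j2, fun e => hne (by rw [e]), a1, a2,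
      b1, b2, x2, y2⟩
    intro t ht ht1
    have h1 := P.idxW (P.oddW t ht ht1)
    have h2 := idx_mono (f := z) (n := 2 * σ) hHG (z t)
    omega
  · left
    by_contra hlt
    push Not at hlt h
    set u := min W.card (2 * m + 2 - σ) with hu
    have h1 : ∑ x ∈ S, (W.filter (H.Adj x)).card ≤ σ * u + W.card := by
      rw [← Finset.sum_sdiff (show Hi ⊆ S from Finset.filter_subset _ _)]
      have h2 : ∑ x ∈ S \ Hi, (W.filter (H.Adj x)).card ≤ (S \ Hi).card * u := by
        rw [← smul_eq_mul]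
        apply Finset.sum_le_card_nsmul
        intro x hx
        obtain ⟨x1, x2⟩ := Finset.mem_sdiff.1 hx
        have h3 : ¬ 2 * m + 3 ≤ (W.filter (G.Adj x)).card + σ :=
          fun e => x2 (Finset.mem_filter.2 ⟨x1, e⟩)
        have h4 : (W.filter (H.Adj x)).card ≤ (W.filter (G.Adj x)).card :=
          Finset.card_le_card (fun y hy => Finset.mem_filter.2
            ⟨(Finset.mem_filter.1 hy).1, hHG (Finset.mem_filter.1 hy).2⟩)
        have h5 : (W.filter (H.Adj x)).card ≤ W.card := Finset.card_filter_le _ _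
        omega
      have h3 : ∑ x ∈ Hi, (W.filter (H.Adj x)).card ≤ Hi.card * W.card := by
        rw [← smul_eq_mul]
        exact Finset.sum_le_card_nsmul _ _ _ (fun x _ => Finset.card_filter_le _ _)
      have h4 : (S \ Hi).card ≤ σ := by
        rw [← P.cardS]; exact Finset.card_le_card Finset.sdiff_subset
      have h5 : (S \ Hi).card * u ≤ σ * u := Nat.mul_le_mul_right _ h4
      have h6 : Hi.card * W.card ≤ 1 * W.card := Nat.mul_le_mul_right _ h
      omega
    have h2 := coverT_card (H := H) (S := S) (W := W) (e1 := e1) (e2 := e2)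
    rw [P.cardS] at h2
    have h3 := P.cardW
    have h4 : u ≤ W.card := min_le_left _ _
    have h5 : u ≤ 2 * m + 2 - σ := min_le_right _ _
    obtain ⟨σ1, rfl⟩ : ∃ σ1, σ = σ1 + 1 := ⟨σ - 1, by omega⟩
    have h6 : (m / 2 + 2) * (σ1 + 1) + (m / 2 + 2) * u < (σ1 + 1) * u := by
      have h7 : (m / 2 + 2) * u ≤ (m / 2 + 2) * W.card := Nat.mul_le_mul_left _ h4
      simp only [Nat.add_sub_cancel] at hlt
      nlinarith
    have := amgm h6
    omega

/-- The constant bounding the number of edges at a piece. -/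
def K0 (m : ℕ) : ℕ := (m + 1) * (m * m * (4 * m)) + m

theorem caseA (hc : G.Preconnected) (hs : Bip G s) (hb : NoBroom G m) {c : V}
    (hch : 3 * m ≤ (nb G c).card) {σ0 : ℕ} (hmax : ∀ T, Clq G m T → T.card ≤ σ0)
    (hσ0 : 2 * σ0 ≤ m) : DD G univ ≤ 2 * (Fintype.card V * (m / 2 + 6) + K0 m) := by
  classical
  set Q : Finset V → Prop := fun F => ∃ z σ W, Viol G m z σ W ∧ (∀ t, t < 2 * σ → z t ∈ F) ∧ W ⊆ F
    with hQ
  have Qmono : ∀ F F', F ⊆ F' → Q F → Q F' := by
    rintro F F' h ⟨z, σ, W, h1, h2, h3⟩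
    exact ⟨z, σ, W, h1, fun t ht => h (h2 t ht), h3.trans h⟩
  have := deletion (G := G) (fun _ => m / 2 + 6) (fun F => if Q F then K0 m else 0) (by
    intro F F' h
    by_cases h1 : Q F
    · simp [h1, Qmono F F' h h1]
    · simp [h1]) (by
    intro F hF hdeg
    obtain ⟨a, ha, g, k, hroot⟩ := exists_root hc c hF
    obtain ⟨b, hab⟩ := Finset.card_pos.1 (lt_of_le_of_lt (Nat.zero_le _) (hdeg a ha))
    obtain ⟨l, r, f, h1, h2, h3, h4, c0⟩ := exists_ctx0 (m := m) (hs.mono (res_le F))
      (mem_nb.1 hab) (by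
        intro f l p1 p2
        rcases Nat.eq_zero_or_pos l with rfl | hl
        · omega
        obtain ⟨p3, p4⟩ := hroot f l p1 p2 hl
        have := huge_short hb p3 (by rw [p4]; exact hch)
        omega)
    have cx : Ctx (res G F) s a l r m (m / 2 + 7) (m / 2 + 7) (s (f (l - 1))) :=
      { c0 with
        hq := fun y x _ h => hdeg y h.2.1
        hp := fun x y _ h => hdeg x h.2.1
        pq := by omega
        qq := by omega }
    obtain ⟨σ, S, W, e1, e2, hl, hσ, P⟩ := cx.piece2 h1 h2 h3 h4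
    obtain ⟨s1, s2, s3⟩ := P.subF (by omega)
    have hq := P.hq
    have hcK := P.cardK (by omega)
    refine ⟨S.erase (f (r + 0)) ∪ W, Finset.union_subset ((Finset.erase_subset _ _).trans s3) s2,
      ?_, coverT (res G F) S W e1 e2, P.cover, ?_⟩
    · rw [← Finset.card_pos, hcK]; have := P.cardW; omega
    · rw [Finset.sum_const, hcK, smul_eq_mul]
      rcases P.viol (res_le F) hσ with h | h
      · have h5 : (if Q (F \ (S.erase (f (r + 0)) ∪ W)) then K0 m else 0) ≤
            (if Q F then K0 m else 0) := by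
          by_cases h6 : Q (F \ (S.erase (f (r + 0)) ∪ W))
          · rw [if_pos h6, if_pos (Qmono _ F Finset.sdiff_subset h6)]
          · rw [if_neg h6]; exact Nat.zero_le _
        rw [mul_comm] at h
        omega
      · have h5 : Q F := ⟨_, σ, W, h, s1, s2⟩
        have h6 : ¬ Q (F \ (S.erase (f (r + 0)) ∪ W)) := by
          rintro ⟨z', σ', W', v1, v2, v3⟩
          have key : ∀ x, ((∃ t, t < 2 * σ ∧ f (r + t) = x) ∨ x ∈ W) →
              x ∈ F \ (S.erase (f (r + 0)) ∪ W) → x = f (r + 0) := by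
            intro x hx hx'
            have h7 := (Finset.mem_sdiff.1 hx').2
            simp only [mem_union, mem_erase, not_or, not_and] at h7
            rcases hx with ⟨t, ht, rfl⟩ | hx
            · by_contra hne
              rcases (show t % 2 = 0 ∨ t % 2 = 1 by omega) with h8 | h8
              · exact h7.1 hne ((P.memS _).2 ⟨t, ht, h8, rfl⟩)
              · exact h7.2 (P.oddW t ht h8)
            · exact absurd hx h7.2
          rcases le_total σ σ' with h8 | h8
          · refine two_viol hc hs hb h v1 h8 (v := f (r + 0)) ?_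
            rintro x hx ⟨t, ht, rfl⟩
            exact key _ hx (v2 t ht)
          · refine two_viol hc hs hb v1 h h8 (v := f (r + 0)) ?_
            rintro x hx hx'
            refine key _ (Or.inl hx') ?_
            rcases hx with ⟨t, ht, rfl⟩ | hx
            · exact v2 t ht
            · exact v3 hx
        have h7 := P.cover_bound (res_le F) hmax (by omega) hσ
        simp only [h5, h6, if_true, if_false, K0]
        omega) univ
  rw [Finset.sum_const, Finset.card_univ, smul_eq_mul] at this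
  refine this.trans ?_
  gcongr
  split_ifs <;> omega

theorem caseB (hc : G.Preconnected) (hs : Bip G s) (hb : NoBroom G m) (hm : 1 ≤ m)
    {S0 : Finset V} (hS : Clq G m S0) (hmax : ∀ T, Clq G m T → T.card ≤ S0.card)
    (hσ0 : m < 2 * S0.card) {c : V} (hcS : c ∈ S0) :
    DD G univ ≤ 2 * ((univ.filter (fun v => s v = s c)).card * (m - S0.card + 6) +
      (univ.filter (fun v => s v ≠ s c)).card * (S0.card + 6) + m * (2 * m + 6) + K0 m * m) := by
  classical
  have hS0m : S0.card ≤ m := by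
    have := pstar2 hb hs hm hS (isPath_single c) (by omega) hcS ∅ (by simp)
    simpa using this
  have hch : 3 * m ≤ (nb G c).card := by have := (hS c hcS c hcS).deg; omega
  set w : V → ℕ := fun v => if v ∈ S0 then 2 * m + 6 else if s v = s c then m - S0.card + 6
    else S0.card + 6 with hw
  have := deletion (G := G) w (fun F => K0 m * (S0 ∩ F).card) (by
    intro F F' h
    exact Nat.mul_le_mul_left _ (Finset.card_le_card (Finset.inter_subset_inter_left h))) (by
    intro F hF hdeg
    obtain ⟨a, ha, g, k, hroot⟩ := exists_root hc c hF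
    obtain ⟨b, hab⟩ := Finset.card_pos.1 (lt_of_le_of_lt (Nat.zero_le _) (hdeg a ha))
    obtain ⟨l, r, f, h1, h2, h3, h4, c0⟩ := exists_ctx0 (m := m) (hs.mono (res_le F))
      (mem_nb.1 hab) (by
        intro f l p1 p2
        rcases Nat.eq_zero_or_pos l with rfl | hl
        · omega
        obtain ⟨p3, p4⟩ := hroot f l p1 p2 hl
        have := huge_short hb p3 (by rw [p4]; exact hch)
        omega)
    have hl2 := c0.l2
    have hlm := c0.hl
    obtain ⟨p3, p4⟩ := hroot f l h1 h2 (by omega)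
    have star : ∀ I : Finset ℕ, (∀ i ∈ I, i < l ∧ f i ∉ S0 ∧ s (f i) = s c) →
        I.card + S0.card ≤ m := by
      intro I hI
      have := pstar2 hb hs hm hS p3 (by omega) (by rw [p4]; exact hcS) (I.image (fun i => k + i)) (by
        intro j hj
        obtain ⟨i, hi, rfl⟩ := Finset.mem_image.1 hj
        obtain ⟨i1, i2, i3⟩ := hI i hi
        rw [p4, cat_ge (by omega), show k + i - k = i by omega]
        exact ⟨by omega, i2, i3⟩)
      rwa [Finset.card_image_of_injective _ (fun i j e => by simpa using e)] at this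
    have tail_deg : ∀ u, (∀ x, (res G F).Adj u x → Tail f r l x) →
        (nb (res G F) u).card ≤ (idx (res G F) f l u).card := by
      intro u hu
      have := nb_card_le (H := res G F) (f := f) (n := l) u ∅ (by
        intro x hx ox
        obtain ⟨j, _, hj, e⟩ := hu x hx
        exact absurd e (ox j hj))
      simpa using this
    have idx_le : ∀ u, (idx (res G F) f l u).card ≤ l := by
      intro u
      have : idx (res G F) f l u ⊆ range l := fun i hi => Finset.mem_range.2 (mem_idx.1 hi).1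
      simpa using Finset.card_le_card this
    have hendF : f (l - 1) ∈ F := h4.2.1
    have hend := tail_deg _ (fun x hx => c0.lemA h1 h2 hx)
    have hside : s (f (l - 1)) ≠ s c := by
      intro e
      have d1 := hdeg _ hendF
      have d2 := idx_le (f (l - 1))
      have d3 : m - S0.card + 6 < (nb (res G F) (f (l - 1))).card := by
        simp only [hw] at d1
        split_ifs at d1 <;> omega
      have := star ((idx (res G F) f l (f (l - 1))).image (fun i => i + 1)) (by
        intro j hj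
        obtain ⟨i, hi, rfl⟩ := Finset.mem_image.1 hj
        have i1 := c0.idxY h1 h2 rfl hi
        obtain ⟨i2, i3⟩ := mem_idx.1 hi
        refine ⟨by omega, ?_, ?_⟩
        · intro hin
          have d4 := tail_deg (f (i + 1)) (fun x hx => c0.lemB h1 h2 i2 i3 hx)
          have d5 := hdeg (f (i + 1)) (h1.adj i (by omega)).2.2
          have d6 := idx_le (f (i + 1))
          simp only [hw, hin, if_true] at d5
          omega
        · rw [← e, c0.side h1 h2 (by omega)]; omega)
      rw [Finset.card_image_of_injective _ (fun i j e => by simpa using e)] at this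
      omega
    have notS : ∀ y, s y = s (f (l - 1)) → y ∉ S0 := by
      intro y hy hin
      exact hside (hy.symm.trans ((hS y hin c hcS).side hs hm))
    have sideX : ∀ x, s x ≠ s (f (l - 1)) → s x = s c := by
      intro x hx
      revert hx hside
      cases s x <;> cases s (f (l - 1)) <;> cases s c <;> simp
    have cx : Ctx (res G F) s a l r m (m - S0.card + 7) (S0.card + 7) (s (f (l - 1))) :=
      { c0 with
        hq := fun y x hy h => by
          have d1 := hdeg y h.2.1
          have d2 : ¬ s y = s c := fun e => hside (hy.symm.trans e)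
          simp only [hw, notS y hy, d2, if_false] at d1
          omega
        hp := fun x y hx h => by
          have d1 := hdeg x h.2.1
          simp only [hw, sideX x hx, if_true] at d1
          split_ifs at d1 <;> omega
        pq := by omega
        qq := by omega }
    obtain ⟨σ, S, W, e1, e2, hl, hσ, P⟩ := cx.piece2 h1 h2 h3 h4
    obtain ⟨s1, s2, s3⟩ := P.subF (by omega)
    have hq := P.hq
    have hcK := P.cardK (by omega)
    refine ⟨S.erase (f (r + 0)) ∪ W, Finset.union_subset ((Finset.erase_subset _ _).trans s3) s2,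
      ?_, coverT (res G F) S W e1 e2, P.cover, ?_⟩
    · rw [← Finset.card_pos, hcK]; have := P.cardW; omega
    · have h7 := P.cover_bound (res_le F) hmax (by omega) hσ
      obtain ⟨x, hx1, hx2⟩ : ∃ x ∈ S0, x ∈ S.erase (f (r + 0)) := by
        have d1 := cx.endIdx h1 h2
        have d2 := star ((idx (res G F) f l (f (l - 1))).filter (fun i => f i ∉ S0)) (by
          intro i hi
          obtain ⟨i1, i2⟩ := Finset.mem_filter.1 hi
          exact ⟨(mem_idx.1 i1).1, i2, sideX _ (c0.sideAdjX (mem_idx.1 i1).2 rfl)⟩)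
        have d3 := Finset.card_filter_add_card_filter_not (s := idx (res G F) f l (f (l - 1)))
          (fun i => f i ∈ S0)
        obtain ⟨i, hi, hir⟩ := Finset.exists_mem_ne
          (s := (idx (res G F) f l (f (l - 1))).filter (fun i => f i ∈ S0)) (by omega) r
        obtain ⟨i1, i2⟩ := Finset.mem_filter.1 hi
        have i3 := c0.idxY h1 h2 rfl i1
        have i4 := c0.hmin f h1 h2 i (mem_idx.1 i1).1 (mem_idx.1 i1).2
        refine ⟨f i, i2, Finset.mem_erase.2 ⟨fun e => ?_, (P.memS _).2 ⟨i - r, by omega, by omega,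
          by simp only [show r + (i - r) = i by omega]⟩⟩⟩
        exact hir (h1.inj _ _ (by omega) (by omega) e)
      have h8 : (S0 ∩ (F \ (S.erase (f (r + 0)) ∪ W))).card < (S0 ∩ F).card := by
        apply Finset.card_lt_card
        refine ⟨Finset.inter_subset_inter_left Finset.sdiff_subset, fun h => ?_⟩
        have := h (Finset.mem_inter.2 ⟨hx1, s3 (Finset.mem_of_mem_erase hx2)⟩)
        exact (Finset.mem_sdiff.1 (Finset.mem_inter.1 this).2).2 (Finset.mem_union_left _ hx2)
      have h9 : K0 m * ((S0 ∩ (F \ (S.erase (f (r + 0)) ∪ W))).card + 1) ≤ K0 m * (S0 ∩ F).card :=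
        Nat.mul_le_mul_left _ h8
      rw [mul_add, mul_one] at h9
      unfold K0 at h9 ⊢
      omega) univ
  refine this.trans ?_
  have h1 : ∑ v, w v ≤ ∑ v, ((if v ∈ S0 then 2 * m + 6 else 0) +
      (if s v = s c then m - S0.card + 6 else S0.card + 6)) := by
    apply Finset.sum_le_sum
    intro v _
    simp only [hw]
    split_ifs <;> omega
  rw [Finset.sum_add_distrib, Finset.sum_ite_mem, Finset.sum_ite (p := fun v => s v = s c)] at h1
  simp only [univ_inter, sum_const, smul_eq_mul] at h1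
  have h2 : S0.card * (2 * m + 6) ≤ m * (2 * m + 6) := Nat.mul_le_mul_right _ hS0m
  have h3 : K0 m * (S0 ∩ univ).card ≤ K0 m * m := by
    rw [Finset.inter_univ]; exact Nat.mul_le_mul_left _ hS0m
  simp only [ne_eq]
  omega

theorem DD_univ_le {D : ℕ} (h : ∀ v, (nb G v).card ≤ D) : DD G univ ≤ Fintype.card V * D := by
  classical
  unfold DD
  have : (univ.filter (fun p : V × V => (res G univ).Adj p.1 p.2)) ⊆
      univ.biUnion (fun v => {v} ×ˢ nb G v) := by
    rintro ⟨u, v⟩ h
    simp only [mem_filter, mem_univ, true_and] at h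
    simp only [mem_biUnion, mem_univ, true_and, mem_product, mem_singleton, mem_nb]
    exact ⟨u, rfl, h.1⟩
  refine (Finset.card_le_card this).trans ?_
  refine (Finset.card_biUnion_le_card_mul _ _ D ?_).trans (by simp)
  intro v _
  simpa using h v

/-- The additive constant. -/
def K1 (m : ℕ) : ℕ :=
  (4 * m + 1) ^ (2 * m) * (4 * m + 1) ^ (2 * m) + m * (2 * m + 6) + K0 m * m + K0 m

theorem upper_count (hc : G.Preconnected) (hs : Bip G s) (hb : NoBroom G m) (hm : 1 ≤ m)
    (hn : ∀ b, (univ.filter (fun v => s v = b)).card = n) :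
    DD G univ ≤ 2 * ((m + 12) * n + K1 m) := by
  classical
  have hn' : ∀ b, (univ.filter (fun v => s v ≠ b)).card = n := by
    intro b
    rw [← hn (!b)]
    congr 1
    ext v
    cases b <;> simp
  have hV : Fintype.card V = 2 * n := by
    have := Finset.card_filter_add_card_filter_not (s := (univ : Finset V)) (fun v => s v = true)
    rw [hn, hn', Finset.card_univ] at this
    omega
  unfold K1
  by_cases h1 : ∀ v, (nb G v).card ≤ m
  · have := DD_univ_le h1
    rw [hV] at this
    nlinarith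
  push Not at h1
  obtain ⟨u, hu⟩ := h1
  by_cases h2 : Fintype.card V ≤ (4 * m + 1) ^ (2 * m)
  · have := DD_univ_le (G := G) (D := Fintype.card V) (fun v => Finset.card_le_univ _)
    have h3 := Nat.mul_le_mul h2 h2
    omega
  obtain ⟨c, hc4⟩ := exists_huge hc hb hu (by omega)
  obtain ⟨S0, hS, hmax⟩ := Finset.exists_max_image (univ.filter (Clq G m)) Finset.card
    ⟨∅, by simp [Clq]⟩
  simp only [mem_filter, mem_univ, true_and] at hS hmax
  by_cases h3 : 2 * S0.card ≤ m
  · have := caseA hc hs hb (c := c) (by omega) hmax h3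
    rw [hV] at this
    have h4 : 2 * n * (m / 2 + 6) ≤ (m + 12) * n := by
      have : 2 * (m / 2 + 6) ≤ m + 12 := by omega
      nlinarith
    omega
  · obtain ⟨c', hc'⟩ := Finset.card_pos.1 (show 0 < S0.card by omega)
    have := caseB hc hs hb hm hS hmax (by omega) hc'
    have hS0m : S0.card ≤ m := by
      have := pstar2 hb hs hm hS (isPath_single c') (by omega) hc' ∅ (by simp)
      simpa using this
    rw [hn, hn'] at this
    have h4 : n * (m - S0.card + 6) + n * (S0.card + 6) = (m + 12) * n := by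
      rw [← mul_add, mul_comm]; congr 1; omega
    omega

end Pool.Agent.Lib.MP_95bdb0_co
end
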