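import Pool.Agent.Lib.MP_95bdb0_co.Host3
import Pool.Agent.Lib.MP_95bdb0_co.Upper

/-!
Both bounds and the limit.
-/

set_option linter.unusedVariables false
set_option linter.unusedSectionVars false
set_option linter.unusedSimpArgs false

namespace Pool.Agent.Lib.MP_95bdb0_co

open Finset Relation Filter Topology
open scoped ENNReal

theorem exists_col {β : Type*} {T : SimpleGraph β} (h : T.IsTree) : ∃ col, Bip T col := by
  obtain ⟨C⟩ := h.colorable_two
  refine ⟨fun u => decide (C u = 0), fun u v huv => ?_⟩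
  have := C.valid huv
  revert this
  beta_reduce
  generalize C u = a
  generalize C v = b
  revert a b
  decide

theorem lower_count {k κ : ℕ} {T : SimpleGraph (Fin k)} (hT : T.IsTree) (hκ : 2 ≤ κ)
    (hk : 3 * κ + 21 ≤ k) : ∃ K, ∃ᶠ n in atTop, κ * n ≤ exConnBip n T + K := by
  classical
  obtain ⟨col, hcol⟩ := exists_col hT
  have hc := hT.connected
  by_cases h1 : ∃ v, κ < (nb T v).card
  · obtain ⟨v, hv⟩ := h1
    refine ⟨κ * κ, Eventually.frequently ?_⟩
    filter_upwards [eventually_ge_atTop (κ + 1)] with n hn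
    have := host_band (n := n) T hκ (by omega) hv
    obtain ⟨d, rfl⟩ : ∃ d, n = d + κ := ⟨n - κ, by omega⟩
    rw [Nat.add_sub_cancel] at this
    nlinarith
  push Not at h1
  by_cases h2 : ∀ b, κ + 6 ≤ cnt (fun u => col u = b)
  · set s := (κ + 1) / 2 with hs
    refine ⟨κ * (s + k), Eventually.frequently ?_⟩
    filter_upwards [eventually_ge_atTop (s + k + 1)] with n hn
    have := host_two (n := n) (s := s) hc hcol (by omega) (fun b => by have := h2 b; omega)
      (by omega)
    obtain ⟨d, rfl⟩ : ∃ d, n = d + k + s := ⟨n - s - k, by omega⟩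
    rw [show d + k + s - s - k = d by omega] at this
    have h3 : κ ≤ 2 * s := by omega
    nlinarith
  push Not at h2
  obtain ⟨α, hα⟩ := h2
  have hsum : cnt (fun u => col u = α) + cnt (fun u => col u ≠ α) = k := by
    have := cnt_split (fun _ : Fin k => True) (fun u => col u = α)
    simp only [and_true] at this
    rw [← this]
    simp [cnt]
  set a := cnt (fun u => col u = α) with ha
  set b := cnt (fun u => col u ≠ α) with hb
  set c := cnt (fun u => Core T u ∧ col u = α) with hcc
  obtain ⟨d, hd⟩ : ∃ d, b = a + 5 + (κ + 1 + d) := ⟨b - a - 5 - κ - 1, by omega⟩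
  refine ⟨κ, ?_⟩
  rw [frequently_atTop]
  intro M
  have := host_three hc hcol h1 (α := α) (c := c) (x := κ + 1 + d + c) rfl (by omega) (by omega)
    (by omega) M
  refine ⟨M * (κ + 1 + d + c + c + 1) + 1, by nlinarith, ?_⟩
  have h3 : κ * (κ + 1 + d + c + c + 1) ≤ (κ + 1 + d + c) * (κ + 1 + d + c) := by nlinarith
  have h4 := Nat.mul_le_mul_left M h3
  nlinarith

theorem ennreal_div_nat (A B : ℕ) (hB : 0 < B) :
    (A : ℝ≥0∞) / (B : ℝ≥0∞) = ENNReal.ofReal ((A : ℝ) / B) := by
  rw [ENNReal.ofReal_div_of_pos (by exact_mod_cast hB), ENNReal.ofReal_natCast,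
    ENNReal.ofReal_natCast]

theorem gamma_lower {k : ℕ} {T : SimpleGraph (Fin k)} (hT : T.IsTree) (hk : 30 ≤ k) :
    ENNReal.ofReal (1 / 3 - 9 / (k : ℝ)) ≤ gammaConn T := by
  obtain ⟨K, hK⟩ := lower_count (κ := k / 3 - 7) hT (by omega) (by omega)
  unfold gammaConn
  apply le_limsup_of_frequently_le'
  refine (hK.and_eventually (eventually_ge_atTop (K + 1))).mono ?_
  rintro n ⟨h1, h2⟩
  rw [← Nat.cast_mul, ennreal_div_nat _ _ (Nat.mul_pos (by omega) (by omega))]
  apply ENNReal.ofReal_le_ofReal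
  obtain ⟨j, hj⟩ : ∃ j, k / 3 - 7 = j + 1 := ⟨k / 3 - 8, by omega⟩
  rw [hj] at h1
  have h3 : j * n ≤ exConnBip n T := by nlinarith
  have h4 : k ≤ 3 * j + 26 := by omega
  have hk0 : (0 : ℝ) < k := by exact_mod_cast (by omega : 0 < k)
  have hn0 : (0 : ℝ) < n := by exact_mod_cast (by omega : 0 < n)
  have h5 : (((k - 2) * n : ℕ) : ℝ) = ((k : ℝ) - 2) * n := by
    rw [Nat.cast_mul, Nat.cast_sub (by omega)]; norm_num
  have h6 : (30 : ℝ) ≤ k := by exact_mod_cast hk
  rw [h5, le_div_iff₀ (by nlinarith)]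
  have h7 : (j : ℝ) * n ≤ exConnBip n T := by exact_mod_cast h3
  have h8 : (k : ℝ) ≤ 3 * j + 26 := by exact_mod_cast h4
  refine le_trans ?_ h7
  rw [← mul_assoc]
  gcongr
  have : (1 / 3 - 9 / (k : ℝ)) * (k - 2) = k / 3 - 2 / 3 - 9 + 18 / k := by
    field_simp; ring
  rw [this]
  have : 18 / (k : ℝ) ≤ 1 := by rw [div_le_one hk0]; linarith
  linarith

/-- The parent function of the broom. -/
def bpar (m i : ℕ) : ℕ := if i < 2 * m then i - 1 else 0

/-- The broom: a path with `2m` vertices and `m` leaves at its first vertex. -/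
def broom (m : ℕ) : SimpleGraph (Fin (3 * m)) where
  Adj i j := i ≠ j ∧ (bpar m i = j ∨ bpar m j = i)
  symm := ⟨fun i j h => ⟨h.1.symm, h.2.symm⟩⟩
  loopless := ⟨fun i h => h.1 rfl⟩

theorem bpar_lt {m i : ℕ} (h : i ≠ 0) : bpar m i < i := by unfold bpar; split_ifs <;> omega

theorem broom_isTree {m : ℕ} (hm : 1 ≤ m) : (broom m).IsTree := by
  classical
  have hlt : ∀ i : Fin (3 * m), bpar m i < 3 * m := by
    intro i; have := i.2; unfold bpar; split_ifs <;> omega
  have hc : (broom m).Connected := by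
    apply connected_of_rank (fun i : Fin (3 * m) => (i : ℕ)) ⟨0, by omega⟩
    intro v hv
    have h0 : (v : ℕ) ≠ 0 := fun e => hv (Fin.ext e)
    have h1 := bpar_lt (m := m) h0
    refine ⟨⟨bpar m v, hlt v⟩, ⟨fun e => ?_, Or.inl rfl⟩, h1⟩
    have := congrArg Fin.val e
    simp only at this
    omega
  rw [SimpleGraph.isTree_iff_connected_and_card]
  refine ⟨hc, le_antisymm ?_ hc.card_vert_le_card_edgeSet_add_one⟩
  have h1 : (broom m).edgeSet ⊆ (fun i : Fin (3 * m) => s(i, ⟨bpar m i, hlt i⟩)) ''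
      ((univ.erase (⟨0, by omega⟩ : Fin (3 * m)) : Finset _) : Set _) := by
    intro e he
    induction e using Sym2.ind with
    | h i j =>
      obtain ⟨h2, h3⟩ := (SimpleGraph.mem_edgeSet _).1 he
      have key : ∀ i j : Fin (3 * m), i ≠ j → bpar m i = j →
          i ∈ ((univ.erase (⟨0, by omega⟩ : Fin (3 * m)) : Finset _) : Set _) := by
        intro i j h4 h5
        simp only [coe_erase, coe_univ, Set.mem_sdiff, Set.mem_univ, Set.mem_singleton_iff,
          true_and]
        rintro rfl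
        apply h4
        apply Fin.ext
        rw [← h5]
        simp [bpar]
      rcases h3 with h3 | h3
      · exact ⟨i, key i j h2 h3, by simp only; congr 1; exact Fin.ext h3⟩
      · refine ⟨j, key j i h2.symm h3, ?_⟩
        simp only
        rw [Sym2.eq_swap]; congr 1; exact Fin.ext h3
  have h2 := (Set.ncard_le_ncard h1).trans (Set.ncard_image_le)
  rw [Set.ncard_coe_finset, Finset.card_erase_of_mem (Finset.mem_univ _)] at h2
  rw [Nat.card_coe_set_eq]
  simp only [card_univ, Fintype.card_fin, Nat.card_eq_fintype_card] at h2 ⊢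
  omega

theorem noBroom_of_free {V : Type*} [Fintype V] [DecidableEq V] {G : SimpleGraph V} {m : ℕ}
    (hm : 1 ≤ m) (h : (broom m).Free G) : NoBroom G m := by
  intro f L hf hL
  by_contra hlt
  push Not at hlt
  obtain ⟨L', hL', hc⟩ := Finset.exists_subset_card_eq hlt
  set g : Fin m → V := fun i => (L'.equivFinOfCardEq hc).symm i with hg
  have g1 : ∀ i, g i ∈ L := fun i => hL' ((L'.equivFinOfCardEq hc).symm i).2
  have g2 : Function.Injective g := fun i j e =>
    (L'.equivFinOfCardEq hc).symm.injective (Subtype.ext e)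
  set φ : Fin (3 * m) → V := fun i => if h : (i : ℕ) < 2 * m then f i else
    g ⟨i - 2 * m, by have := i.2; omega⟩ with hφ
  have key : ∀ i j : Fin (3 * m), i ≠ j → bpar m i = j → G.Adj (φ i) (φ j) := by
    intro i j h1 h2
    have h3 : (i : ℕ) ≠ j := fun e => h1 (Fin.ext e)
    unfold bpar at h2
    by_cases c : (i : ℕ) < 2 * m
    · rw [if_pos c] at h2
      simp only [hφ, c, dif_pos, show (j : ℕ) < 2 * m by omega]
      exact hf.adj' c (by omega) (by omega)
    · rw [if_neg c] at h2
      simp only [hφ, c, dif_pos, dif_neg, not_false_eq_true, show (j : ℕ) < 2 * m by omega]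
      rw [← h2]
      exact (hL _ (g1 _)).1.symm
  apply h
  refine ⟨⟨⟨φ, ?_⟩, ?_⟩⟩
  · rintro i j ⟨h1, h2 | h2⟩
    · exact key i j h1 h2
    · exact (key j i h1.symm h2).symm
  · intro i j e
    change φ i = φ j at e
    by_cases c : (i : ℕ) < 2 * m <;> by_cases c' : (j : ℕ) < 2 * m <;>
      simp only [hφ, c, c', dif_pos, dif_neg, not_false_eq_true] at e
    · exact Fin.ext (hf.inj _ _ c c' e)
    · exact absurd e ((hL _ (g1 _)).2 _ c)
    · exact absurd e.symm ((hL _ (g1 _)).2 _ c')
    · have := congrArg Fin.val (g2 e)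
      simp only at this
      exact Fin.ext (by omega)

theorem exConn_broom {m : ℕ} (hm : 1 ≤ m) (n : ℕ) :
    exConnBip n (broom m) ≤ (m + 12) * n + K1 m := by
  classical
  apply csSup_le'
  rintro e ⟨G, h1, h2, h3, rfl⟩
  have := upper_count (G := G) (s := Sum.isLeft) (n := n) h2.preconnected (by
    intro u v h
    have := h1 h
    rcases u with u | u <;> rcases v with v | v <;> simp_all) (noBroom_of_free hm h3) hm (by
    intro b
    cases b
    · rw [show (univ.filter (fun v : Fin n ⊕ Fin n => v.isLeft = false)) =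
        univ.map Function.Embedding.inr by ext (v | v) <;> simp]
      simp
    · rw [show (univ.filter (fun v : Fin n ⊕ Fin n => v.isLeft = true)) =
        univ.map Function.Embedding.inl by ext (v | v) <;> simp]
      simp)
  have h4 : DD G univ = 2 * G.edgeSet.ncard := by
    rw [← SimpleGraph.coe_edgeFinset, Set.ncard_coe_finset, SimpleGraph.two_mul_card_edgeFinset]
    unfold DD
    congr 1
    ext p
    simp [res]
  omega

theorem gamma_upper {m : ℕ} (hm : 1 ≤ m) :
    gammaConn (broom m) ≤ ENNReal.ofReal (1 / 3 + 14 / (m : ℝ)) := by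
  unfold gammaConn
  apply limsup_le_of_le
  · isBoundedDefault
  filter_upwards [eventually_ge_atTop (K1 m + 1)] with n hn
  rw [← Nat.cast_mul, ennreal_div_nat _ _ (Nat.mul_pos (by omega) (by omega))]
  apply ENNReal.ofReal_le_ofReal
  have h3 : exConnBip n (broom m) ≤ (m + 13) * n := by
    have := exConn_broom hm n
    nlinarith
  have hm1 : (1 : ℝ) ≤ m := by exact_mod_cast hm
  have hn0 : (0 : ℝ) < n := by exact_mod_cast (by omega : 0 < n)
  have h5 : (((3 * m - 2) * n : ℕ) : ℝ) = (3 * (m : ℝ) - 2) * n := by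
    rw [Nat.cast_mul, Nat.cast_sub (by omega)]; norm_num
  rw [h5, div_le_iff₀ (by nlinarith)]
  have h7 : (exConnBip n (broom m) : ℝ) ≤ (m + 13) * n := by exact_mod_cast h3
  refine h7.trans ?_
  rw [← mul_assoc]
  gcongr
  have : (1 / 3 + 14 / (m : ℝ)) * (3 * m - 2) = m - 2 / 3 + 42 - 28 / m := by
    field_simp; ring
  rw [this]
  have : 28 / (m : ℝ) ≤ 28 := by rw [div_le_iff₀ (by linarith)]; linarith
  linarith

theorem main : Tendsto (fun k : ℕ => ⨅ (m : ℕ) (_ : k ≤ m) (T : SimpleGraph (Fin m)) (_ : T.IsTree),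
    gammaConn T) atTop (𝓝 (1 / 3)) := by
  have e : (1 / 3 : ℝ≥0∞) = ENNReal.ofReal (1 / 3) := by
    rw [ENNReal.ofReal_div_of_pos (by norm_num)]; simp
  have t1 : Tendsto (fun k : ℕ => ENNReal.ofReal (1 / 3 - 9 / (k : ℝ))) atTop (𝓝 (1 / 3)) := by
    rw [e]
    apply ENNReal.tendsto_ofReal
    have := (tendsto_const_div_atTop_nhds_zero_nat (9 : ℝ)).const_sub (1 / 3)
    rwa [sub_zero] at this
  have t2 : Tendsto (fun k : ℕ => ENNReal.ofReal (1 / 3 + 14 / (k : ℝ))) atTop (𝓝 (1 / 3)) := by
    rw [e]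
    apply ENNReal.tendsto_ofReal
    have := (tendsto_const_div_atTop_nhds_zero_nat (14 : ℝ)).const_add (1 / 3)
    rwa [add_zero] at this
  refine tendsto_of_tendsto_of_tendsto_of_le_of_le' t1 t2 ?_ ?_
  · filter_upwards [eventually_ge_atTop 30] with k hk
    refine le_iInf fun m => le_iInf fun hm => le_iInf fun T => le_iInf fun hT => ?_
    refine le_trans ?_ (gamma_lower hT (by omega))
    apply ENNReal.ofReal_le_ofReal
    have h1 : (0 : ℝ) < k := by exact_mod_cast (by omega : 0 < k)
    have h2 : (k : ℝ) ≤ m := by exact_mod_cast hm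
    gcongr
  · filter_upwards [eventually_ge_atTop 1] with k hk
    refine le_trans ?_ (gamma_upper hk)
    exact iInf_le_of_le (3 * k) (iInf_le_of_le (by omega) (iInf_le_of_le (broom k)
      (iInf_le_of_le (broom_isTree hk) le_rfl)))

end Pool.Agent.Lib.MP_95bdb0_co
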