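import Pool.Agent.Lib.MP_95bdb0_co.Twins
import Pool.Agent.Lib.MP_95bdb0_co.Defs

-- part Pool.Agent.Lib.MP_95bdb0_co.Tools
section

/-!
Tools about connected two-coloured graphs used in the lower bound.
-/

set_option linter.unusedVariables false
set_option linter.unusedSectionVars false

namespace Pool.Agent.Lib.MP_95bdb0_co

open Finset Relation

variable {β : Type*} [Fintype β] [DecidableEq β] {T : SimpleGraph β} {col : β → Bool}

theorem connected_of_rank {V : Type*} {G : SimpleGraph V} (ρ : V → ℕ) (root : V)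
    (h : ∀ v, v ≠ root → ∃ u, G.Adj v u ∧ ρ u < ρ v) : G.Connected := by
  have key : ∀ n v, ρ v < n → G.Reachable v root := by
    intro n
    induction n with
    | zero => intro v hv; omega
    | succ n ih =>
      intro v hv
      by_cases e : v = root
      · rw [e]
      · obtain ⟨u, h1, h2⟩ := h v e
        exact h1.reachable.trans (ih u (by omega))
  have : Nonempty V := ⟨root⟩
  exact ⟨fun u v => (key _ u (Nat.lt_succ_self _)).trans (key _ v (Nat.lt_succ_self _)).symm⟩

theorem exists_parent (hc : T.Connected) : ∃ (root : β) (ρ : β → ℕ) (par : β → β),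
    ∀ v, v ≠ root → T.Adj v (par v) ∧ ρ (par v) < ρ v := by
  obtain ⟨root⟩ := hc.nonempty
  have : ∀ v, ∃ u, v ≠ root → T.Adj v u ∧ T.dist u root < T.dist v root := by
    intro v
    by_cases e : v = root
    · exact ⟨v, fun h => absurd e h⟩
    obtain ⟨p, hp⟩ := (hc v root).exists_walk_length_eq_dist
    cases p with
    | nil => exact absurd rfl e
    | cons h q =>
      refine ⟨_, fun _ => ⟨h, ?_⟩⟩
      have := SimpleGraph.dist_le q
      simp only [SimpleGraph.Walk.length_cons] at hp
      omega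
  choose par hpar using this
  exact ⟨root, fun v => T.dist v root, par, hpar⟩

theorem const_of_closed {α : Type*} (hc : T.Connected) (R : β → α)
    (h : ∀ u v, T.Adj u v → R u = R v) (u v : β) : R u = R v := by
  obtain ⟨p⟩ := hc u v
  induction p with
  | nil => rfl
  | cons h1 _ ih => exact (h _ _ h1).trans ih

theorem col_agree (hc : T.Connected) (h1 : Bip T col) {sd : β → Bool} (h2 : Bip T sd) :
    ∃ e : Bool, ∀ u, sd u = xor e (col u) := by
  obtain ⟨u0⟩ := hc.nonempty
  refine ⟨xor (sd u0) (col u0), fun u => ?_⟩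
  have := const_of_closed hc (fun u => xor (sd u) (col u)) (by
    intro u v h
    have a := h1 u v h
    have b := h2 u v h
    revert a b
    cases sd u <;> cases sd v <;> cases col u <;> cases col v <;> simp) u0 u
  rw [this]
  cases sd u <;> cases col u <;> rfl

theorem balance (hc : T.Connected) (hs : Bip T col) (U Γ : Finset β)
    (hU : ∀ u ∈ U, (nb T u).card ≤ 2) (hΓ : ∀ u ∈ U, ∀ w, w ∉ U → T.Adj u w → u ∈ Γ) (b : Bool) :
    (U.filter (fun u => col u = b)).card ≤ (U.filter (fun u => col u ≠ b)).card + Γ.card + 3 := by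
  classical
  obtain ⟨root, ρ, par, hpar⟩ := exists_parent hc
  set A := (U.filter (fun u => col u = b) \ Γ).erase root with hA
  have memA : ∀ u ∈ A, u ≠ root ∧ u ∈ U ∧ col u = b ∧ par u ∈ U := by
    intro u hu
    simp only [hA, mem_erase, mem_sdiff, mem_filter] at hu
    refine ⟨hu.1, hu.2.1.1, hu.2.1.2, ?_⟩
    by_contra h
    exact hu.2.2 (hΓ u hu.2.1.1 _ h (hpar u hu.1).1)
  have h1 : (A.filter (fun u => par u ≠ root)).card ≤ (U.filter (fun u => col u ≠ b)).card := by
    apply Finset.card_le_card_of_injOn par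
    · intro u hu
      obtain ⟨a1, a2, a3, a4⟩ := memA u (Finset.mem_filter.1 (Finset.mem_coe.1 hu)).1
      refine Finset.mem_coe.2 (Finset.mem_filter.2 ⟨a4, ?_⟩)
      rw [← a3]
      exact (hs _ _ (hpar u a1).1).symm
    · intro u hu v hv e
      obtain ⟨hu1, hu2⟩ := Finset.mem_filter.1 (Finset.mem_coe.1 hu)
      obtain ⟨hv1, hv2⟩ := Finset.mem_filter.1 (Finset.mem_coe.1 hv)
      obtain ⟨a1, a2, a3, a4⟩ := memA u hu1
      obtain ⟨b1, b2, b3, b4⟩ := memA v hv1
      by_contra hne
      have c1 := hpar u a1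
      have c2 := hpar v b1
      have c3 := hpar _ hu2
      rw [← e] at c2
      have : 2 < (nb T (par u)).card := by
        rw [Finset.two_lt_card_iff]
        refine ⟨u, v, par (par u), mem_nb.2 c1.1.symm, mem_nb.2 c2.1.symm, mem_nb.2 c3.1, hne,
          ?_, ?_⟩
        · intro e'; rw [← e'] at c3; omega
        · intro e'; rw [← e'] at c3; omega
      have := hU _ a4
      omega
  have h2 : (A.filter (fun u => ¬ par u ≠ root)).card ≤ 2 := by
    rcases (A.filter (fun u => ¬ par u ≠ root)).eq_empty_or_nonempty with h | ⟨u, hu⟩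
    · rw [h]; simp
    · obtain ⟨hu1, hu2⟩ := Finset.mem_filter.1 hu
      push Not at hu2
      have := hU _ (memA u hu1).2.2.2
      rw [hu2] at this
      refine le_trans (Finset.card_le_card ?_) this
      intro v hv
      obtain ⟨hv1, hv2⟩ := Finset.mem_filter.1 hv
      push Not at hv2
      rw [mem_nb, ← hv2]
      exact (hpar v (memA v hv1).1).1.symm
  have h3 := Finset.card_filter_add_card_filter_not (s := A) (fun u => par u ≠ root)
  have h4 := Finset.pred_card_le_card_erase (s := U.filter (fun u => col u = b) \ Γ) (a := root)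
  have h5 := Finset.le_card_sdiff Γ (U.filter (fun u => col u = b))
  rw [← hA] at h4
  omega

theorem ivt {Rel : β → β → Prop} (lev : β → ℕ) (h : ∀ a b, Rel a b → lev b ≤ lev a + 1) {p q : β}
    (hpq : ReflTransGen Rel p q) {t : ℕ} (h1 : lev p < t) (h2 : t ≤ lev q) :
    ∃ a w, Rel a w ∧ lev w = t := by
  induction hpq with
  | refl => omega
  | @tail b c _ hbc ih =>
    by_cases e : t ≤ lev b
    · exact ih e
    · have := h b c hbc
      exact ⟨b, c, hbc, by omega⟩

theorem rtg_of_connected (hc : T.Connected) (p q : β) : ReflTransGen T.Adj p q :=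
  (SimpleGraph.reachable_iff_reflTransGen p q).1 (hc p q)

theorem gate_conn (hc : T.Connected) (K : β → Prop) (t0 : β)
    (h : ∀ a b, K a → ¬ K b → T.Adj a b → a = t0) {p q : β} (hp : K p) (hq : K q) :
    ReflTransGen (fun a b => T.Adj a b ∧ K a ∧ K b) p q := by
  classical
  have key : ∀ w, ReflTransGen T.Adj p w →
      ReflTransGen (fun a b => T.Adj a b ∧ K a ∧ K b) p (if K w then w else t0) := by
    intro w hw
    induction hw with
    | refl => rw [if_pos hp]
    | @tail b c _ hbc ih =>
      by_cases h1 : K b <;> by_cases h2 : K c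
      · rw [if_pos h1] at ih; rw [if_pos h2]; exact ih.tail ⟨hbc, h1, h2⟩
      · rw [if_pos h1] at ih; rw [if_neg h2, ← h b c h1 h2 hbc]; exact ih
      · rw [if_neg h1] at ih; rw [if_pos h2, h c b h2 h1 hbc.symm]; exact ih
      · rw [if_neg h1] at ih; rw [if_neg h2]; exact ih
  have := key q (rtg_of_connected hc p q)
  rwa [if_pos hq] at this

theorem card_nb_le_two (u : β) (g : β → Prop)
    (h : ∀ v w, T.Adj u v → T.Adj u w → (g v ↔ g w) → v = w) : (nb T u).card ≤ 2 := by
  classical
  have : (nb T u).card ≤ (univ : Finset Bool).card := by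
    apply Finset.card_le_card_of_injOn (fun v => decide (g v))
    · intro v _; exact Finset.mem_coe.2 (Finset.mem_univ _)
    · intro v hv w hw e
      exact h v w (mem_nb.1 (Finset.mem_coe.1 hv)) (mem_nb.1 (Finset.mem_coe.1 hw))
        (by simpa using e)
  simpa using this

theorem exists_cut (hne : Nonempty β) (K : β → Prop)
    (h : ∀ a b a' b', K a → ¬ K b → T.Adj a b → K a' → ¬ K b' → T.Adj a' b' → a = a' ∧ b = b') :
    ∃ u1 u2, ∀ a b, K a → ¬ K b → T.Adj a b → a = u1 ∧ b = u2 := by
  by_cases e : ∃ a b, K a ∧ ¬ K b ∧ T.Adj a b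
  · obtain ⟨a', b', h1, h2, h3⟩ := e
    exact ⟨a', b', fun a b g1 g2 g3 => h a b a' b' g1 g2 g3 h1 h2 h3⟩
  · obtain ⟨u⟩ := hne
    exact ⟨u, u, fun a b g1 g2 g3 => absurd ⟨a, b, g1, g2, g3⟩ e⟩

theorem quad_aux : ∀ a1 a2 b1 b2 : Bool × Bool, ∃ R : Bool × Bool → Bool,
    R a1 = R a2 ∧ R b1 = R b2 ∧ ∃ x y, R x ≠ R y := by decide

theorem laminar (hc : T.Connected) (K O : β → Prop) {u1 u2 o1 o2 : β}
    (hK : ∀ a b, K a → ¬ K b → T.Adj a b → a = u1 ∧ b = u2)
    (hO : ∀ a b, O a → ¬ O b → T.Adj a b → a = o1 ∧ b = o2) :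
    (∀ u, K u → O u) ∨ (∀ u, ¬ K u → O u) ∨ (∀ u, O u → ¬ K u) ∨ (∀ u, O u → K u) := by
  classical
  by_contra hne
  push Not at hne
  obtain ⟨⟨a, a1, a2⟩, ⟨b, b1, b2⟩, ⟨c, c1, c2⟩, ⟨d, d1, d2⟩⟩ := hne
  set Q : β → Bool × Bool := fun u => (decide (K u), decide (O u)) with hQ
  obtain ⟨R, h1, h2, x, y, hxy⟩ := quad_aux (Q u1) (Q u2) (Q o1) (Q o2)
  have hconst := const_of_closed hc (fun u => R (Q u)) (by
    intro u v huv
    by_cases k1 : K u <;> by_cases k2 : K v
    · by_cases k3 : O u <;> by_cases k4 : O v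
      · simp [hQ, k1, k2, k3, k4]
      · obtain ⟨rfl, rfl⟩ := hO u v k3 k4 huv; exact h2
      · obtain ⟨rfl, rfl⟩ := hO v u k4 k3 huv.symm; exact h2.symm
      · simp [hQ, k1, k2, k3, k4]
    · obtain ⟨rfl, rfl⟩ := hK u v k1 k2 huv; exact h1
    · obtain ⟨rfl, rfl⟩ := hK v u k2 k1 huv.symm; exact h1.symm
    · by_cases k3 : O u <;> by_cases k4 : O v
      · simp [hQ, k1, k2, k3, k4]
      · obtain ⟨rfl, rfl⟩ := hO u v k3 k4 huv; exact h2
      · obtain ⟨rfl, rfl⟩ := hO v u k4 k3 huv.symm; exact h2.symm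
      · simp [hQ, k1, k2, k3, k4])
  have surj : ∀ x : Bool × Bool, ∃ u, Q u = x := by
    rintro ⟨x1, x2⟩
    cases x1 <;> cases x2
    · exact ⟨b, by simp [hQ, b1, b2]⟩
    · exact ⟨d, by simp [hQ, d1, d2]⟩
    · exact ⟨a, by simp [hQ, a1, a2]⟩
    · exact ⟨c, by simp [hQ, c1, c2]⟩
  obtain ⟨u, rfl⟩ := surj x
  obtain ⟨v, rfl⟩ := surj y
  exact hxy (hconst u v)

open Classical in
/-- The number of vertices satisfying a predicate. -/
noncomputable def cnt (P : β → Prop) : ℕ := (univ.filter P).card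

theorem cnt_mono {P Q : β → Prop} (h : ∀ u, P u → Q u) : cnt P ≤ cnt Q := by
  classical
  unfold cnt
  apply Finset.card_le_card
  intro u hu
  simp only [mem_filter, mem_univ, true_and] at hu ⊢
  exact h u hu

theorem cnt_split (P Q : β → Prop) : cnt P = cnt (fun u => Q u ∧ P u) + cnt (fun u => ¬ Q u ∧ P u) := by
  classical
  unfold cnt
  rw [← Finset.card_filter_add_card_filter_not (s := univ.filter P) Q]
  congr 2 <;> ext u <;> simp [and_comm]

theorem cnt_le_of_inj (P : β → Prop) (g : β → ℕ) (lo n : ℕ) (h1 : ∀ u, P u → lo ≤ g u ∧ g u < lo + n)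
    (h2 : ∀ u v, P u → P v → g u = g v → u = v) : cnt P ≤ n := by
  classical
  unfold cnt
  have : (univ.filter P).card ≤ (range n).card := by
    apply Finset.card_le_card_of_injOn (fun u => g u - lo)
    · intro u hu
      have := h1 u (by simpa using hu)
      simp only [coe_range, Set.mem_Iio]; omega
    · intro u hu v hv e
      have a := h1 u (by simpa using hu)
      have b := h1 v (by simpa using hv)
      exact h2 u v (by simpa using hu) (by simpa using hv) (by simp only at e; omega)
  simpa using this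

theorem le_cnt_of_surj (P : β → Prop) (g : β → ℕ) (n : ℕ) (h : ∀ i, i < n → ∃ u, P u ∧ g u = i) :
    n ≤ cnt P := by
  classical
  unfold cnt
  have : (range n).card ≤ (univ.filter P).card := by
    apply Finset.card_le_card_of_surjOn g
    intro i hi
    obtain ⟨u, h1, h2⟩ := h i (by simpa using hi)
    exact ⟨u, by simpa using h1, h2⟩
  simpa using this

theorem cnt_le_card (P : β → Prop) : cnt P ≤ Fintype.card β := by
  classical
  unfold cnt
  exact Finset.card_le_univ _

theorem balance' (hc : T.Connected) (hs : Bip T col) (U : β → Prop) (Γ : Finset β)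
    (hU : ∀ u, U u → (nb T u).card ≤ 2) (hΓ : ∀ u w, U u → ¬ U w → T.Adj u w → u ∈ Γ) (b : Bool) :
    cnt (fun u => U u ∧ col u = b) ≤ cnt (fun u => U u ∧ col u ≠ b) + Γ.card + 3 := by
  classical
  have := balance hc hs (univ.filter U) Γ (fun u hu => hU u (by simpa using hu))
    (fun u hu w hw => hΓ u w (by simpa using hu) (by simpa using hw)) b
  rw [Finset.filter_filter, Finset.filter_filter] at this
  unfold cnt
  convert this

theorem two_cuts (hc : T.Connected) (hs : Bip T col) (K O : β → Prop) {u1 u2 o1 o2 : β}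
    (hK : ∀ a b, K a → ¬ K b → T.Adj a b → a = u1 ∧ b = u2)
    (hO : ∀ a b, O a → ¬ O b → T.Adj a b → a = o1 ∧ b = o2) {s : ℕ} {α γ : Bool}
    (h1 : cnt (fun u => K u ∧ col u = α) ≤ s) (h2 : cnt (fun u => ¬ K u ∧ col u ≠ α) ≤ s)
    (h3 : cnt (fun u => ¬ O u ∧ col u = γ) ≤ s) (hdeg : ∀ u, O u → (nb T u).card ≤ 2) :
    ∃ b, cnt (fun u => col u = b) ≤ 2 * s + 4 := by
  have bO := balance' hc hs O {o1} hdeg (fun u w a b c => by simp [(hO u w a b c).1])
  simp only [card_singleton] at bO
  have hsw : ∀ u, col u = (!α) ↔ col u ≠ α := by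
    intro u; cases col u <;> cases α <;> simp
  have hsw' : ∀ u, col u ≠ (!α) ↔ col u = α := by
    intro u; cases col u <;> cases α <;> simp
  rcases laminar hc K O hK hO with h | h | h | h
  · have b1 := balance' hc hs K {u1} (fun u hu => hdeg u (h u hu))
      (fun u w a b c => by simp [(hK u w a b c).1]) (!α)
    simp only [card_singleton, hsw'] at b1
    refine ⟨!α, ?_⟩
    rw [cnt_split _ K]
    simp only [hsw] at b1 ⊢
    omega
  · have b1 := balance' hc hs (fun u => ¬ K u) {u2} (fun u hu => hdeg u (h u hu))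
      (fun u w a b c => by simp [(hK w u (not_not.1 b) a c.symm).2]) α
    simp only [card_singleton] at b1
    refine ⟨α, ?_⟩
    rw [cnt_split _ K]
    omega
  · have b1 : cnt (fun u => O u ∧ col u ≠ α) ≤ s :=
      (cnt_mono (fun u hu => ⟨h u hu.1, hu.2⟩)).trans h2
    have b2 := bO α
    refine ⟨γ, ?_⟩
    rw [cnt_split _ O]
    by_cases e : γ = α
    · subst e; omega
    · have : cnt (fun u => O u ∧ col u = γ) ≤ cnt (fun u => O u ∧ col u ≠ α) :=
        cnt_mono (fun u hu => ⟨hu.1, fun e' => e (hu.2.symm.trans e')⟩)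
      omega
  · have b1 : cnt (fun u => O u ∧ col u = α) ≤ s :=
      (cnt_mono (fun u hu => ⟨h u hu.1, hu.2⟩)).trans h1
    have b2 := bO (!α)
    simp only [hsw'] at b2
    simp only [hsw] at b2
    refine ⟨γ, ?_⟩
    rw [cnt_split _ O]
    by_cases e : γ = α
    · subst e; omega
    · have : cnt (fun u => O u ∧ col u = γ) ≤ cnt (fun u => O u ∧ col u ≠ α) :=
        cnt_mono (fun u hu => ⟨hu.1, fun e' => e (hu.2.symm.trans e')⟩)
      omega

end Pool.Agent.Lib.MP_95bdb0_co
end

-- part Pool.Agent.Lib.MP_95bdb0_co.Hosts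
section

/-!
Host graphs: transport to the extremal number, and the first two constructions.
-/

set_option linter.unusedVariables false
set_option linter.unusedSectionVars false
set_option linter.unusedSimpArgs false

namespace Pool.Agent.Lib.MP_95bdb0_co

open Finset Relation

/-- The bipartite graph of a relation. -/
def Gr {Z : Type*} (r : Z → Z → Prop) : SimpleGraph (Z ⊕ Z) where
  Adj u v := (u.isLeft = true ∧ v.isLeft = false ∧ r (u.elim id id) (v.elim id id)) ∨
    (u.isLeft = false ∧ v.isLeft = true ∧ r (v.elim id id) (u.elim id id))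
  symm := ⟨fun u v h => by tauto⟩
  loopless := ⟨fun u h => by rcases u with u | u <;> simp at h⟩

/-- A numerical description of a copy of `T` in the bipartite graph of `r`. -/
structure NEmb {β Z : Type*} (T : SimpleGraph β) (r : Z → Z → Prop) (sd : β → Bool) (vl : β → Z) :
    Prop where
  inj : ∀ u v, sd u = sd v → vl u = vl v → u = v
  adj : ∀ u v, T.Adj u v → (sd u = true ∧ sd v = false ∧ r (vl u) (vl v)) ∨
    (sd u = false ∧ sd v = true ∧ r (vl v) (vl u))

theorem NEmb.bip {β Z : Type*} {T : SimpleGraph β} {r : Z → Z → Prop} {sd : β → Bool} {vl : β → Z}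
    (h : NEmb T r sd vl) : Bip T sd := by
  intro u v huv
  rcases h.adj u v huv with h | h <;> simp [h.1, h.2.1]

theorem exConn_bdd (n : ℕ) {k : ℕ} (T : SimpleGraph (Fin k)) :
    BddAbove {e : ℕ | ∃ G : SimpleGraph (Fin n ⊕ Fin n),
      G ≤ completeBipartiteGraph (Fin n) (Fin n) ∧ G.Connected ∧ T.Free G ∧
        G.edgeSet.ncard = e} := by
  refine ⟨Nat.card (Sym2 (Fin n ⊕ Fin n)), ?_⟩
  rintro e ⟨G, -, -, -, rfl⟩
  rw [← Set.ncard_univ]
  exact Set.ncard_le_ncard (Set.subset_univ _)

theorem le_exConn {Z : Type*} [Fintype Z] {n k : ℕ} (hn : Fintype.card Z = n)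
    (T : SimpleGraph (Fin k)) (r : Z → Z → Prop) (hc : (Gr r).Connected)
    (hf : ∀ sd vl, ¬ NEmb T r sd vl) (E : Finset (Z × Z)) (hE : ∀ p ∈ E, r p.1 p.2) :
    E.card ≤ exConnBip n T := by
  classical
  set e : Z ≃ Fin n := Fintype.equivFinOfCardEq hn
  set r' : Fin n → Fin n → Prop := fun i j => r (e.symm i) (e.symm j) with hr'
  have h1 : E.card ≤ (Gr r').edgeSet.ncard := by
    rw [← Set.ncard_coe_finset]
    apply Set.ncard_le_ncard_of_injOn (fun p : Z × Z => s(Sum.inl (e p.1), Sum.inr (e p.2)))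
    · intro p hp
      simp only [SimpleGraph.mem_edgeSet, Gr]
      left
      simpa [hr'] using hE p hp
    · intro p _ q _ h
      simp only [Sym2.eq, Sym2.rel_iff', Prod.mk.injEq, Sum.inl.injEq, EmbeddingLike.apply_eq_iff_eq,
        Sum.inr.injEq, Prod.swap_prod_mk, reduceCtorEq, and_self, or_false] at h
      exact Prod.ext h.1 h.2
  refine h1.trans (le_csSup (exConn_bdd n T) ⟨Gr r', ?_, ?_, ?_, rfl⟩)
  · intro u v h
    rcases u with u | u <;> rcases v with v | v <;> simp_all [Gr]
  · let φ : Gr r →g Gr r' := ⟨Sum.map e e, by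
      intro u v h
      rcases u with u | u <;> rcases v with v | v <;> simp_all [Gr]⟩
    exact hc.map φ (Sum.map_surjective.2 ⟨e.surjective, e.surjective⟩)
  · rintro ⟨φ⟩
    refine hf (fun u => (φ u).isLeft) (fun u => e.symm ((φ u).elim id id)) ⟨?_, ?_⟩
    · intro u v h1 h2
      apply φ.injective
      have h3 := e.symm.injective h2
      revert h1 h3
      rcases φ u with a | a <;> rcases φ v with b | b <;> simp
    · intro u v h
      exact φ.toHom.map_adj h

/-- Hosts described on the natural numbers. -/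
theorem le_exConn_nat {n k : ℕ} (T : SimpleGraph (Fin k)) (r : ℕ → ℕ → Prop)
    (ρ : Bool → ℕ → ℕ) (i0 : ℕ) (hi0 : i0 < n)
    (hX : ∀ i, i < n → i ≠ i0 → ∃ j, j < n ∧ r i j ∧ ρ false j < ρ true i)
    (hY : ∀ j, j < n → ∃ i, i < n ∧ r i j ∧ ρ true i < ρ false j)
    (hf : ∀ sd vl, ¬ NEmb T r sd vl) (E : Finset (ℕ × ℕ))
    (hE : ∀ p ∈ E, p.1 < n ∧ p.2 < n ∧ r p.1 p.2) : E.card ≤ exConnBip n T := by
  classical
  have := le_exConn (Z := Fin n) (n := n) (by simp) T (fun i j => r i j) (by
    apply connected_of_rank (fun u : Fin n ⊕ Fin n => ρ u.isLeft (u.elim id id : Fin n))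
      (Sum.inl ⟨i0, hi0⟩)
    rintro (i | j) hne
    · obtain ⟨j, h1, h2, h3⟩ := hX i i.2 (fun e => hne (by congr 1; exact Fin.ext e))
      exact ⟨Sum.inr ⟨j, h1⟩, Or.inl ⟨rfl, rfl, h2⟩, h3⟩
    · obtain ⟨i, h1, h2, h3⟩ := hY j j.2
      exact ⟨Sum.inl ⟨i, h1⟩, Or.inr ⟨rfl, rfl, h2⟩, h3⟩) (by
    intro sd vl h
    exact hf sd (fun u => vl u) ⟨fun u v a b => h.inj u v a (Fin.ext b), h.adj⟩)
    (univ.filter (fun p : Fin n × Fin n => ((p.1 : ℕ), (p.2 : ℕ)) ∈ E)) (by
    intro p hp
    exact (hE _ (Finset.mem_filter.1 hp).2).2.2)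
  refine le_trans ?_ this
  apply Finset.card_le_card_of_surjOn (fun p : Fin n × Fin n => ((p.1 : ℕ), (p.2 : ℕ)))
  intro p hp
  obtain ⟨h1, h2, _⟩ := hE p hp
  exact ⟨(⟨p.1, h1⟩, ⟨p.2, h2⟩), by simpa using hp, rfl⟩

theorem host_band {n k D : ℕ} (T : SimpleGraph (Fin k)) {v : Fin k} (hD : 2 ≤ D) (hn : 0 < n)
    (hv : D < (nb T v).card) : (n - D) * D ≤ exConnBip n T := by
  classical
  have := le_exConn_nat (n := n) T (fun i j => i ≤ j ∧ j < i + D)
    (fun b i => if b then 2 * i else max 1 (2 * i - 1)) 0 hn (by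
      intro i hi h0
      exact ⟨i, hi, by omega, by simp; omega⟩) (by
      intro j hj
      exact ⟨j - 1, by omega, by omega, by simp; omega⟩) (by
      intro sd vl h
      have : (nb T v).card ≤ (range D).card := by
        apply Finset.card_le_card_of_injOn (fun w => if sd v then vl w - vl v else vl v - vl w)
        · intro w hw
          have := h.adj v w (mem_nb.1 (Finset.mem_coe.1 hw))
          simp only [coe_range, Set.mem_Iio]
          rcases this with h | h <;> simp [h.1] <;> omega
        · intro w hw w' hw' e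
          have a := h.adj v w (mem_nb.1 (Finset.mem_coe.1 hw))
          have b := h.adj v w' (mem_nb.1 (Finset.mem_coe.1 hw'))
          apply h.inj
          · rcases a with a | a <;> rcases b with b | b <;> simp_all
          · rcases a with a | a <;> rcases b with b | b <;> simp [a.1] at e ⊢ <;>
              first | omega | simp_all
      simp at this
      omega) ((range (n - D) ×ˢ range D).image (fun p => (p.1, p.1 + p.2))) (by
      intro p hp
      obtain ⟨q, hq, rfl⟩ := Finset.mem_image.1 hp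
      simp only [mem_product, mem_range] at hq
      simp only
      omega)
  rw [Finset.card_image_of_injective _ (by
    intro p q e
    simp only [Prod.mk.injEq] at e
    exact Prod.ext e.1 (by omega))] at this
  simpa using this

/-- Two unbalanced complete bipartite graphs joined by a path. -/
def R2 (s j : ℕ) (i l : ℕ) : Prop :=
  (i < s ∧ s + j ≤ l) ∨ (l < s ∧ s + j ≤ i) ∨ (s ≤ l ∧ l < s + j ∧ (i = l ∨ i + 1 = l)) ∨
    (i + 1 = s + j ∧ l = 0)

theorem host_two_aux {n k s j : ℕ} (T : SimpleGraph (Fin k)) (hs : 1 ≤ s) (hn : s + j < n)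
    (hf : ∀ sd vl, ¬ NEmb T (R2 s j) sd vl) : 2 * (s * (n - s - j)) ≤ exConnBip n T := by
  classical
  have := le_exConn_nat (n := n) T (R2 s j)
    (fun b i => if b then (if i + 1 = s then 0 else if i < s then 2 else if i < s + j then
      2 * (i - s) + 2 else 2 * j + 2) else (if s + j ≤ i then 1 else if s ≤ i then 2 * (i - s) + 1
      else if i = 0 then 2 * j + 1 else 2 * j + 3)) (s - 1) (by omega) (by
      intro i hi h0
      by_cases c1 : i < s
      · refine ⟨s + j, hn, by unfold R2; omega, ?_⟩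
        simp only [if_true, Bool.false_eq_true, if_false]; split_ifs <;> omega
      by_cases c2 : i < s + j
      · refine ⟨i, hi, by unfold R2; omega, ?_⟩
        simp only [if_true, Bool.false_eq_true, if_false]; split_ifs <;> omega
      · refine ⟨0, by omega, by unfold R2; omega, ?_⟩
        simp only [if_true, Bool.false_eq_true, if_false]; split_ifs <;> omega) (by
      intro l hl
      by_cases c1 : s + j ≤ l
      · refine ⟨s - 1, by omega, by unfold R2; omega, ?_⟩
        simp only [if_true, Bool.false_eq_true, if_false]; split_ifs <;> omega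
      by_cases c2 : s ≤ l
      · refine ⟨l - 1, by omega, by unfold R2; omega, ?_⟩
        simp only [if_true, Bool.false_eq_true, if_false]; split_ifs <;> omega
      by_cases c3 : l = 0
      · refine ⟨s + j - 1, by omega, by unfold R2; omega, ?_⟩
        simp only [if_true, Bool.false_eq_true, if_false]; split_ifs <;> omega
      · refine ⟨s + j, by omega, by unfold R2; omega, ?_⟩
        simp only [if_true, Bool.false_eq_true, if_false]; split_ifs <;> omega) hf
      ((range s ×ˢ Ico (s + j) n) ∪ (Ico (s + j) n ×ˢ range s)) (by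
      intro p hp
      simp only [mem_union, mem_product, mem_range, mem_Ico] at hp
      unfold R2
      omega)
  rw [Finset.card_union_of_disjoint (by
    rw [Finset.disjoint_left]
    intro p h1 h2
    simp only [mem_product, mem_range, mem_Ico] at h1 h2
    omega)] at this
  simp only [card_product, card_range, Nat.card_Ico] at this
  rw [show n - s - j = n - (s + j) by omega]
  rw [mul_comm (n - (s + j)) s] at this
  omega

theorem not_both {k s : ℕ} {T : SimpleGraph (Fin k)} {col : Fin k → Bool} (hc : T.Connected)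
    (hcol : Bip T col) (hs : 1 ≤ s) (hbig : ∀ b, 2 * s + 4 < cnt (fun u => col u = b))
    {sd sd' : Fin k → Bool} {vl vl' : Fin k → ℕ} (h : NEmb T (R2 s 0) sd vl)
    (h' : NEmb T (R2 s k) sd' vl') : False := by
  classical
  obtain ⟨e, he⟩ := col_agree hc hcol h.bip
  obtain ⟨e', he'⟩ := col_agree hc hcol h'.bip
  have adj : ∀ u v, T.Adj u v → (sd u = true ∧ sd v = false ∧ R2 s 0 (vl u) (vl v)) ∨
    (sd u = false ∧ sd v = true ∧ R2 s 0 (vl v) (vl u)) := h.adj
  have adj' : ∀ u v, T.Adj u v → (sd' u = true ∧ sd' v = false ∧ R2 s k (vl' u) (vl' v)) ∨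
    (sd' u = false ∧ sd' v = true ∧ R2 s k (vl' v) (vl' u)) := h'.adj
  unfold R2 at adj adj'
  set K : Fin k → Prop := fun u => if sd u then vl u < s else s ≤ vl u with hK
  set O : Fin k → Prop := fun u => s ≤ vl' u ∧ vl' u < s + k with hO
  set G1 : Fin k → Prop := fun u => if sd' u then vl' u < s else s + k ≤ vl' u with hG1
  have cutK : ∀ a b, K a → ¬ K b → T.Adj a b →
      sd a = true ∧ sd b = false ∧ vl a = s - 1 ∧ vl b = 0 := by
    intro a b h1 h2 h3
    rcases adj a b h3 with g | g <;> simp only [hK, g.1, g.2.1] at h1 h2 <;>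
      simp only [g.1, g.2.1] <;> simp at h1 h2 ⊢ <;> omega
  obtain ⟨u1, u2, hcK⟩ := exists_cut (T := T) hc.nonempty K (by
    intro a b a' b' g1 g2 g3 g4 g5 g6
    obtain ⟨a1, a2, a3, a4⟩ := cutK a b g1 g2 g3
    obtain ⟨b1, b2, b3, b4⟩ := cutK a' b' g4 g5 g6
    exact ⟨h.inj _ _ (a1.trans b1.symm) (a3.trans b3.symm),
      h.inj _ _ (a2.trans b2.symm) (a4.trans b4.symm)⟩)
  have hk : 0 < k := Fin.pos hc.nonempty.some
  have oneside : (∀ u, ¬ O u → G1 u) ∨ (∀ u, ¬ O u → ¬ G1 u) := by
    by_contra hne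
    push Not at hne
    obtain ⟨⟨q, q1, q2⟩, ⟨p, p1, p2⟩⟩ := hne
    set lev : Fin k → ℕ := fun u => if O u then (if sd' u then 2 * (vl' u - s) + 2 else
      2 * (vl' u - s) + 1) else if G1 u then 0 else 2 * k + 1 with hlev
    have := le_cnt_of_surj (fun _ : Fin k => True) (fun u => lev u - 1) (2 * k) (by
      intro i hi
      obtain ⟨a, w, -, hw⟩ := ivt lev (Rel := T.Adj) (by
        intro a b hab
        rcases adj' a b hab with g | g <;> simp only [hlev, hO, hG1, g.1, g.2.1] <;>
          simp only [if_true, Bool.false_eq_true, if_false] <;> split_ifs <;> omega)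
        (rtg_of_connected hc p q) (t := i + 1) (by simp [hlev, p1, p2])
        (by simp only [hlev, q1, q2, if_false]; omega)
      exact ⟨w, trivial, by omega⟩)
    have h2 := cnt_le_card (fun _ : Fin k => True)
    rw [Fintype.card_fin] at h2
    omega
  have hdeg : ∀ u, O u → (nb T u).card ≤ 2 := by
    intro u hu
    apply card_nb_le_two u (fun v => vl' v = vl' u)
    intro v w hv hw hiff
    simp only [hO] at hu
    apply h'.inj
    · have a := h'.bip u v hv
      have b := h'.bip u w hw
      revert a b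
      cases sd' u <;> cases sd' v <;> cases sd' w <;> simp
    · rcases adj' u v hv with g | g <;> rcases adj' u w hw with g' | g'
      · omega
      · exact absurd (g.1.symm.trans g'.1) (by decide)
      · exact absurd (g.1.symm.trans g'.1) (by decide)
      · omega
  have c1 : cnt (fun u => K u ∧ col u = !e) ≤ s := by
    apply cnt_le_of_inj _ vl 0
    · rintro u ⟨g1, g2⟩
      have : sd u = true := by rw [he, g2]; cases e <;> rfl
      simpa [hK, this] using g1
    · rintro u v ⟨g1, g2⟩ ⟨g3, g4⟩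
      exact h.inj _ _ (by rw [he, he, g2, g4])
  have c2 : cnt (fun u => ¬ K u ∧ col u ≠ !e) ≤ s := by
    have sf : ∀ u, col u ≠ (!e) → sd u = false := by
      intro u; rw [he]; cases e <;> cases col u <;> simp
    apply cnt_le_of_inj _ vl 0
    · rintro u ⟨g1, g2⟩
      simpa [hK, sf u g2] using g1
    · rintro u v ⟨g1, g2⟩ ⟨g3, g4⟩
      exact h.inj _ _ (by rw [sf u g2, sf v g4])
  rcases oneside with hone | hone
  · have cutO : ∀ a b, O a → ¬ O b → T.Adj a b →
        sd' a = false ∧ sd' b = true ∧ vl' a = s ∧ vl' b = s - 1 := by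
      intro a b h1 h2 h3
      have h4 := hone b h2
      rcases adj' a b h3 with g | g <;> simp only [hO, hG1, g.1, g.2.1] at h1 h2 h4 <;>
        simp only [g.1, g.2.1] <;> simp at h4 ⊢ <;> omega
    obtain ⟨o1, o2, hcO⟩ := exists_cut (T := T) hc.nonempty O (by
      intro a b a' b' g1 g2 g3 g4 g5 g6
      obtain ⟨a1, a2, a3, a4⟩ := cutO a b g1 g2 g3
      obtain ⟨b1, b2, b3, b4⟩ := cutO a' b' g4 g5 g6
      exact ⟨h'.inj _ _ (a1.trans b1.symm) (a3.trans b3.symm),
        h'.inj _ _ (a2.trans b2.symm) (a4.trans b4.symm)⟩)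
    have c3 : cnt (fun u => ¬ O u ∧ col u = !e') ≤ s := by
      apply cnt_le_of_inj _ vl' 0
      · rintro u ⟨g1, g2⟩
        have : sd' u = true := by rw [he', g2]; cases e' <;> rfl
        simpa [hG1, this] using hone u g1
      · rintro u v ⟨g1, g2⟩ ⟨g3, g4⟩
        exact h'.inj _ _ (by rw [he', he', g2, g4])
    obtain ⟨b, hb⟩ := two_cuts hc hcol K O hcK hcO c1 c2 c3 hdeg
    have := hbig b
    omega
  · have cutO : ∀ a b, O a → ¬ O b → T.Adj a b →
        sd' a = true ∧ sd' b = false ∧ vl' a = s + k - 1 ∧ vl' b = 0 := by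
      intro a b h1 h2 h3
      have h4 := hone b h2
      rcases adj' a b h3 with g | g <;> simp only [hO, hG1, g.1, g.2.1] at h1 h2 h4 <;>
        simp only [g.1, g.2.1] <;> simp at h4 ⊢ <;> omega
    obtain ⟨o1, o2, hcO⟩ := exists_cut (T := T) hc.nonempty O (by
      intro a b a' b' g1 g2 g3 g4 g5 g6
      obtain ⟨a1, a2, a3, a4⟩ := cutO a b g1 g2 g3
      obtain ⟨b1, b2, b3, b4⟩ := cutO a' b' g4 g5 g6
      exact ⟨h'.inj _ _ (a1.trans b1.symm) (a3.trans b3.symm),
        h'.inj _ _ (a2.trans b2.symm) (a4.trans b4.symm)⟩)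
    have c3 : cnt (fun u => ¬ O u ∧ col u = e') ≤ s := by
      apply cnt_le_of_inj _ vl' 0
      · rintro u ⟨g1, g2⟩
        have : sd' u = false := by rw [he', g2]; cases e' <;> rfl
        have h4 := hone u g1
        simp only [hG1, hO, this, Bool.false_eq_true, if_false] at h4 g1
        omega
      · rintro u v ⟨g1, g2⟩ ⟨g3, g4⟩
        exact h'.inj _ _ (by rw [he', he', g2, g4])
    obtain ⟨b, hb⟩ := two_cuts hc hcol K O hcK hcO c1 c2 c3 hdeg
    have := hbig b
    omega

theorem host_two {n k s : ℕ} {T : SimpleGraph (Fin k)} {col : Fin k → Bool} (hc : T.Connected)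
    (hcol : Bip T col) (hs : 1 ≤ s) (hbig : ∀ b, 2 * s + 4 < cnt (fun u => col u = b))
    (hn : s + k < n) : 2 * (s * (n - s - k)) ≤ exConnBip n T := by
  by_cases h : ∃ sd vl, NEmb T (R2 s 0) sd vl
  · obtain ⟨sd, vl, h⟩ := h
    exact host_two_aux T hs hn (fun sd' vl' h' => not_both hc hcol hs hbig h h')
  · push Not at h
    refine le_trans ?_ (host_two_aux (j := 0) T hs (by omega) h)
    gcongr
    omega

end Pool.Agent.Lib.MP_95bdb0_co
end

-- part Pool.Agent.Lib.MP_95bdb0_co.Host3
section

/-!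
The third construction: balanced complete bipartite blocks hanging on long paths.
-/

set_option linter.unusedVariables false
set_option linter.unusedSectionVars false
set_option linter.unusedSimpArgs false

namespace Pool.Agent.Lib.MP_95bdb0_co

open Finset Relation

/-- Adjacency of the third host in terms of block and offset. -/
def R3 (c : ℕ) (b o b' o' : ℕ) : Prop :=
  (b = 0 ∧ o' = 0) ∨ (b ≠ 0 ∧ b = b' ∧ (o = o' ∨ (o + 1 = o' ∧ o ≤ c) ∨ (c < o ∧ c < o')))

/-- Vertices separating two vertices of degree at least three. -/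
def Core {β : Type*} [Fintype β] (T : SimpleGraph β) (v : β) : Prop :=
  ∃ p q, 2 < (nb T p).card ∧ 2 < (nb T q).card ∧
    ¬ ReflTransGen (fun a b => T.Adj a b ∧ a ≠ v ∧ b ≠ v) p q

theorem not_three {β : Type*} [Fintype β] [DecidableEq β] {T : SimpleGraph β} {col : β → Bool}
    (hc : T.Connected) (hcol : Bip T col) {Δ : ℕ} (hΔ : ∀ u, (nb T u).card ≤ Δ) {α : Bool}
    {c x : ℕ} (hcore : c = cnt (fun u => Core T u ∧ col u = α))
    (hx : x + cnt (fun u => col u = α) + 5 ≤ cnt (fun u => col u ≠ α) + c)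
    (hsp : cnt (fun u => col u = α) + Δ + 5 ≤ cnt (fun u => col u ≠ α))
    {sd : β → Bool} {bl os : β → ℕ}
    (inj : ∀ u v, sd u = sd v → bl u = bl v → os u = os v → u = v)
    (adj : ∀ u v, T.Adj u v → (sd u = true ∧ sd v = false ∧ R3 c (bl u) (os u) (bl v) (os v)) ∨
      (sd u = false ∧ sd v = true ∧ R3 c (bl v) (os v) (bl u) (os u)))
    (h0 : ∀ u, bl u = 0 → os u = 0) (hp : ∀ u, os u < x + c + 1) : False := by
  classical
  have hsd : Bip T sd := by
    intro u v huv
    rcases adj u v huv with h | h <;> simp [h.1, h.2.1]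
  obtain ⟨e, he⟩ := col_agree hc hcol hsd
  unfold R3 at adj
  have hsw : ∀ u, col u = (!α) ↔ col u ≠ α := by
    intro u; cases col u <;> cases α <;> simp
  have hsw' : ∀ u, col u ≠ (!α) ↔ col u = α := by
    intro u; cases col u <;> cases α <;> simp
  have sameside : ∀ u v w, T.Adj u v → T.Adj u w → sd v = sd w := by
    intro u v w hv hw
    have a := hsd u v hv
    have b := hsd u w hw
    revert a b
    cases sd u <;> cases sd v <;> cases sd w <;> simp
  have branch : ∀ u, 2 < (nb T u).card → (sd u = true ∧ bl u = 0) ∨ (bl u ≠ 0 ∧ c < os u) := by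
    intro u hu
    by_contra hne
    have := card_nb_le_two (T := T) u (fun v => bl v = bl u ∧ os v = os u) (by
      intro v w hv hw hiff
      have a0 := h0 u
      have a1 := h0 v
      have a2 := h0 w
      rcases adj u v hv with g | g <;> rcases adj u w hw with g' | g'
      · simp only [g.1, true_and] at hne
        apply inj _ _ (sameside u v w hv hw) <;> omega
      · exact absurd (g.1.symm.trans g'.1) (by decide)
      · exact absurd (g.1.symm.trans g'.1) (by decide)
      · simp only [g.1, Bool.false_eq_true, false_and, false_or] at hne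
        apply inj _ _ (sameside u v w hv hw) <;> omega)
    omega
  by_cases hroot : ∀ u, 2 < (nb T u).card → bl u = 0
  · obtain ⟨u0, hu0⟩ : ∃ u0, ∀ u, 2 < (nb T u).card → u = u0 := by
      by_cases h : ∃ u, 2 < (nb T u).card
      · obtain ⟨u0, hu0⟩ := h
        refine ⟨u0, fun u hu => ?_⟩
        have a1 := hroot u hu
        have a2 := hroot u0 hu0
        have b1 := branch u hu
        have b2 := branch u0 hu0
        simp only [a1, a2, ne_eq, not_true_eq_false, false_and, or_false, and_true] at b1 b2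
        exact inj _ _ (b1.trans b2.symm) (a1.trans a2.symm) ((h0 _ a1).trans (h0 _ a2).symm)
      · obtain ⟨u0⟩ := hc.nonempty
        exact ⟨u0, fun u hu => absurd ⟨u, hu⟩ h⟩
    have b1 := balance' hc hcol (fun u => u ≠ u0) (nb T u0) (by
      intro u hu
      by_contra h
      exact hu (hu0 u (by omega))) (by
      intro u w _ h1 h2
      push Not at h1
      rw [mem_nb, ← h1]; exact h2.symm) (!α)
    simp only [hsw'] at b1
    simp only [hsw] at b1
    have b2 := hΔ u0
    have b3 := cnt_split (fun u => col u ≠ α) (fun u => u ≠ u0)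
    have b4 : cnt (fun u => ¬ u ≠ u0 ∧ col u ≠ α) ≤ 1 :=
      cnt_le_of_inj _ (fun _ => 0) 0 1 (fun _ _ => by omega) (fun u v h1 h2 _ => by
        rw [not_not.1 h1.1, not_not.1 h2.1])
    have b5 : cnt (fun u => u ≠ u0 ∧ col u = α) ≤ cnt (fun u => col u = α) :=
      cnt_mono (fun u h => h.2)
    omega
  push Not at hroot
  obtain ⟨q0, hq0, hq1⟩ := hroot
  have hq2 : c < os q0 := by
    rcases branch q0 hq0 with h | h
    · exact absurd h.2 hq1
    · exact h.2
  by_cases hall : ∀ u, 2 < (nb T u).card → bl u = bl q0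
  · set K : β → Prop := fun u => bl u = bl q0 ∧ c < os u with hK
    have hbK : ∀ u, 2 < (nb T u).card → K u := by
      intro u hu
      have a1 := hall u hu
      rcases branch u hu with h | h
      · exact absurd (a1.symm.trans h.2) hq1
      · exact ⟨a1, h.2⟩
    have cutK : ∀ a b, K a → ¬ K b → T.Adj a b →
        sd a = false ∧ sd b = true ∧ bl b = bl q0 ∧ os a = c + 1 ∧ os b = c := by
      intro a b h1 h2 h3
      simp only [hK] at h1 h2
      rcases adj a b h3 with g | g
      · omega
      · refine ⟨g.1, g.2.1, ?_⟩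
        omega
    obtain ⟨u1, u2, hcK⟩ := exists_cut (T := T) hc.nonempty K (by
      intro a b a' b' g1 g2 g3 g4 g5 g6
      obtain ⟨a1, a2, a3, a4, a5⟩ := cutK a b g1 g2 g3
      obtain ⟨b1, b2, b3, b4, b5⟩ := cutK a' b' g4 g5 g6
      exact ⟨inj _ _ (a1.trans b1.symm) (g1.1.trans g4.1.symm) (a4.trans b4.symm),
        inj _ _ (a2.trans b2.symm) (a3.trans b3.symm) (a5.trans b5.symm)⟩)
    have coreK : ∀ v, Core T v → K v := by
      rintro v ⟨p, q, h1, h2, h3⟩
      by_contra hv
      apply h3
      refine ReflTransGen.mono ?_ _ _ (gate_conn hc K u1 (fun a b g1 g2 g3 => (hcK a b g1 g2 g3).1)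
        (hbK p h1) (hbK q h2))
      rintro a b ⟨g1, g2, g3⟩
      exact ⟨g1, fun e => hv (e ▸ g2), fun e => hv (e ▸ g3)⟩
    have b1 := balance' hc hcol (fun u => ¬ K u) {u2} (by
      intro u hu
      by_contra h
      exact hu (hbK u (by omega))) (by
      intro u w h1 h2 h3
      simp [(hcK w u (not_not.1 h2) h1 h3.symm).2]) (!α)
    simp only [hsw', card_singleton] at b1
    simp only [hsw] at b1
    have b2 := cnt_split (fun u => col u ≠ α) K
    have b3 := cnt_split (fun u => col u = α) K
    have b4 : c ≤ cnt (fun u => K u ∧ col u = α) := by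
      rw [hcore]; exact cnt_mono (fun u h => ⟨coreK u h.1, h.2⟩)
    have b5 : cnt (fun u => K u ∧ col u ≠ α) ≤ x := by
      apply cnt_le_of_inj _ os (c + 1)
      · rintro u ⟨⟨_, h1⟩, _⟩
        have := hp u
        omega
      · rintro u v ⟨⟨h1, _⟩, h2⟩ ⟨⟨h3, _⟩, h4⟩
        refine inj _ _ ?_ (h1.trans h3.symm)
        rw [he, he, (hsw u).2 h2, (hsw v).2 h4]
    omega
  · push Not at hall
    obtain ⟨p0, hp0, hp1⟩ := hall
    set lev : β → ℕ := fun u => if bl u = bl q0 then (if c < os u then 2 * c + 3 else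
      if sd u then 2 * os u + 2 else 2 * os u + 1) else 0 with hlev
    have lip : ∀ a b, T.Adj a b → lev b ≤ lev a + 1 := by
      intro a b hab
      rcases adj a b hab with g | g <;> simp only [hlev, g.1, g.2.1] <;>
        simp only [if_true, Bool.false_eq_true, if_false] <;> split_ifs <;> omega
    have l1 : lev p0 = 0 := by simp [hlev, hp1]
    have l2 : lev q0 = 2 * c + 3 := by simp [hlev, hq2]
    have levinj : ∀ u v, 0 < lev u → lev u < 2 * c + 3 → lev u = lev v → u = v := by
      intro u v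
      simp only [hlev]
      cases hu : sd u <;> cases hv : sd v <;>
        simp only [if_true, Bool.false_eq_true, if_false] <;> intro h1 h2 h3 <;>
        split_ifs at h1 h2 h3 <;> first | omega | (apply inj _ _ (hu.trans hv.symm) <;> omega)
    have := le_cnt_of_surj (fun u => Core T u ∧ col u = α) os (c + 1) (by
      intro i hi
      obtain ⟨-, w, -, hw⟩ := ivt lev lip (rtg_of_connected hc p0 q0)
        (t := if xor e α then 2 * i + 2 else 2 * i + 1) (by split_ifs <;> omega)
        (by split_ifs <;> omega)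
      refine ⟨w, ⟨⟨p0, q0, hp0, hq0, fun h => ?_⟩, ?_⟩, ?_⟩
      · obtain ⟨a, w', ⟨_, _, g⟩, hw'⟩ := ivt lev (fun a b g => lip a b g.1) h
          (t := if xor e α then 2 * i + 2 else 2 * i + 1) (by split_ifs <;> omega)
          (by split_ifs <;> omega)
        apply g
        apply (levinj w w' _ _ (hw.trans hw'.symm)).symm <;> rw [hw] <;> split_ifs <;> omega
      · simp only [hlev, he] at hw
        revert hw
        cases e <;> cases α <;> cases col w <;>
          simp only [Bool.xor_false, Bool.xor_true, Bool.not_true, Bool.not_false, if_true,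
            Bool.false_eq_true, if_false, Bool.true_eq_false, implies_true] <;>
          intro hw <;> split_ifs at hw <;> omega
      · simp only [hlev] at hw
        split_ifs at hw <;> omega)
    omega

theorem host_three {k : ℕ} {T : SimpleGraph (Fin k)} {col : Fin k → Bool}
    (hc : T.Connected) (hcol : Bip T col) {Δ : ℕ} (hΔ : ∀ u, (nb T u).card ≤ Δ) {α : Bool}
    {c x : ℕ} (hcore : c = cnt (fun u => Core T u ∧ col u = α))
    (hx : x + cnt (fun u => col u = α) + 5 ≤ cnt (fun u => col u ≠ α) + c)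
    (hsp : cnt (fun u => col u = α) + Δ + 5 ≤ cnt (fun u => col u ≠ α)) (hx1 : 1 ≤ x) (M : ℕ) :
    M * (x * x) ≤ exConnBip (M * (x + c + 1) + 1) T := by
  classical
  set bl : Option (Fin M × Fin (x + c + 1)) → ℕ := fun z => z.elim 0 (fun w => w.1 + 1) with hbl
  set os : Option (Fin M × Fin (x + c + 1)) → ℕ := fun z => z.elim 0 (fun w => w.2) with hos
  have := le_exConn (Z := Option (Fin M × Fin (x + c + 1))) (n := M * (x + c + 1) + 1) (by simp) T
    (fun z z' => R3 c (bl z) (os z) (bl z') (os z')) (by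
      apply connected_of_rank (fun u : Option (Fin M × Fin (x + c + 1)) ⊕
        Option (Fin M × Fin (x + c + 1)) => if u.isLeft then
          (if bl (u.elim id id) = 0 then 0 else if os (u.elim id id) ≤ c then
            2 * os (u.elim id id) + 2 else 2 * c + 4) else
          (if os (u.elim id id) ≤ c + 1 then 2 * os (u.elim id id) + 1 else 2 * c + 5))
        (Sum.inl none)
      rintro ((_ | ⟨q, o⟩) | (_ | ⟨q, o⟩)) hne
      · exact absurd rfl hne
      · by_cases h : (o : ℕ) ≤ c
        · refine ⟨Sum.inr (some (q, o)), Or.inl ⟨rfl, rfl, ?_⟩, ?_⟩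
          · simp [R3, hbl, hos]
          · simp [hbl, hos, h, show (o : ℕ) ≤ c + 1 by omega]
        · refine ⟨Sum.inr (some (q, ⟨c + 1, by omega⟩)), Or.inl ⟨rfl, rfl, ?_⟩, ?_⟩
          · simp [R3, hbl, hos]; omega
          · simp [hbl, hos, h]; omega
      · refine ⟨Sum.inl none, Or.inr ⟨rfl, rfl, ?_⟩, ?_⟩
        · simp [R3, hbl, hos]
        · simp [hbl, hos]
      · by_cases h0 : (o : ℕ) = 0
        · refine ⟨Sum.inl none, Or.inr ⟨rfl, rfl, ?_⟩, ?_⟩
          · simp [R3, hbl, hos, h0]
          · simp [hbl, hos, h0]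
        by_cases h : (o : ℕ) ≤ c + 1
        · refine ⟨Sum.inl (some (q, ⟨o - 1, by omega⟩)), Or.inr ⟨rfl, rfl, ?_⟩, ?_⟩
          · simp [R3, hbl, hos]; omega
          · simp [hbl, hos, h]; omega
        · refine ⟨Sum.inl (some (q, o)), Or.inr ⟨rfl, rfl, ?_⟩, ?_⟩
          · simp [R3, hbl, hos]
          · simp [hbl, hos, h, show ¬ (o : ℕ) ≤ c by omega]) (by
      intro sd vl h
      refine not_three hc hcol hΔ hcore hx hsp (sd := sd) (bl := fun u => bl (vl u))
        (os := fun u => os (vl u)) ?_ h.adj ?_ ?_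
      · intro u v h1 h2 h3
        apply h.inj u v h1
        revert h2 h3
        rcases vl u with _ | ⟨a, b⟩ <;> rcases vl v with _ | ⟨a', b'⟩
        · simp
        · simp [hbl]
        · simp [hbl]
        · simp only [hbl, hos, Option.elim_some, add_left_inj]
          intro h2 h3
          rw [Fin.ext h2, Fin.ext h3]
      · intro u
        rcases vl u with _ | ⟨a, b⟩ <;> simp [hbl, hos]
      · intro u
        rcases vl u with _ | ⟨a, b⟩
        · simp [hos]
        · simpa [hos] using b.2)
    ((univ : Finset (Fin M × Fin x × Fin x)).image (fun w =>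
      (some (w.1, ⟨c + 1 + w.2.1, by omega⟩), some (w.1, ⟨c + 1 + w.2.2, by omega⟩)))) (by
      intro p hp
      obtain ⟨w, -, rfl⟩ := Finset.mem_image.1 hp
      simp [R3, hbl, hos]
      omega)
  rw [Finset.card_image_of_injective _ (by
    rintro ⟨a, b, d⟩ ⟨a', b', d'⟩ e
    simp only [Prod.mk.injEq, Option.some.injEq, Fin.mk.injEq, add_right_inj] at e
    simp only [Prod.mk.injEq]
    exact ⟨e.1.1, Fin.ext e.1.2, Fin.ext e.2.2⟩)] at this
  simpa using this

end Pool.Agent.Lib.MP_95bdb0_co
end
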