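import Pool.Agent.Lib.MP_95bdb0_co.Defs

/-!
Definitions for the ratio of the connected and the unrestricted bipartite Turan numbers of trees.
-/

namespace Pool.Agent.Lib.MP_95bdb0_co

open Filter
open scoped ENNReal

/-- The maximum number of edges of a subgraph of the complete bipartite graph with parts of
size `n` that contains no copy of `T` (as a not necessarily induced subgraph). -/
noncomputable def exBip (n : ℕ) {k : ℕ} (T : SimpleGraph (Fin k)) : ℕ :=
  sSup {e : ℕ | ∃ G : SimpleGraph (Fin n ⊕ Fin n),
    G ≤ completeBipartiteGraph (Fin n) (Fin n) ∧ T.Free G ∧ G.edgeSet.ncard = e}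

/-- The upper limit over `n` of `exConnBip n T / exBip n T`. -/
noncomputable def gammaRatio {k : ℕ} (T : SimpleGraph (Fin k)) : ℝ≥0∞ :=
  limsup (fun n : ℕ => (exConnBip n T : ℝ≥0∞) / (exBip n T : ℝ≥0∞)) atTop

end Pool.Agent.Lib.MP_95bdb0_co
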