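import Pool.Agent.Lib.MP_95bdb0_co.Final

/-!
Rooted trees, the neighbourhood of the core, bare paths and two further host graphs.
-/

set_option linter.unusedVariables false
set_option linter.unusedSectionVars false
set_option linter.unusedSimpArgs false

namespace Pool.Agent.Lib.MP_95bdb0_co

open Finset Relation

variable {β : Type*} [Fintype β] [DecidableEq β] {T : SimpleGraph β} {col : β → Bool}
  {r : β} {par : β → β} {ρ : β → ℕ}

/-- `T` is a tree rooted at `r` with parent function `par` and rank `ρ`. -/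
structure Rt (T : SimpleGraph β) (r : β) (par : β → β) (ρ : β → ℕ) : Prop where
  root : par r = r
  adj : ∀ v, v ≠ r → T.Adj v (par v)
  lt : ∀ v, v ≠ r → ρ (par v) < ρ v
  edge : ∀ u v, T.Adj u v → (u ≠ r ∧ par u = v) ∨ (v ≠ r ∧ par v = u)

theorem exists_rt (hT : T.IsTree) (r : β) : ∃ par ρ, Rt T r par ρ := by
  classical
  have hc := hT.connected
  have : ∀ v, ∃ u, (v = r → u = r) ∧ (v ≠ r → T.Adj v u ∧ T.dist u r < T.dist v r) := by
    intro v
    by_cases e : v = r
    · exact ⟨r, fun _ => rfl, fun h => absurd e h⟩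
    obtain ⟨p, hp⟩ := (hc v r).exists_walk_length_eq_dist
    cases p with
    | nil => exact absurd rfl e
    | cons h q =>
      refine ⟨_, fun h' => absurd h' e, fun _ => ⟨h, ?_⟩⟩
      have := SimpleGraph.dist_le q
      simp only [SimpleGraph.Walk.length_cons] at hp
      omega
  choose par h0 hpar using this
  refine ⟨par, fun v => T.dist v r, h0 r rfl, fun v hv => (hpar v hv).1, fun v hv => (hpar v hv).2,
    ?_⟩
  have h1 : (univ.erase r).image (fun v => s(v, par v)) = T.edgeFinset := by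
    apply Finset.eq_of_subset_of_card_le
    · intro e he
      obtain ⟨v, hv, rfl⟩ := Finset.mem_image.1 he
      exact SimpleGraph.mem_edgeFinset.2 (hpar v (Finset.ne_of_mem_erase hv)).1
    · rw [Finset.card_image_of_injOn, Finset.card_erase_of_mem (Finset.mem_univ _),
        Finset.card_univ, ← hT.card_edgeFinset]
      · simp
      · intro u hu v hv e
        have a := (hpar u (Finset.ne_of_mem_erase (Finset.mem_coe.1 hu))).2
        have b := (hpar v (Finset.ne_of_mem_erase (Finset.mem_coe.1 hv))).2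
        rcases Sym2.eq_iff.1 e with e | e
        · exact e.1
        · rw [e.2] at a
          rw [← e.1] at b
          omega
  intro u v huv
  have h2 : s(u, v) ∈ T.edgeFinset := SimpleGraph.mem_edgeFinset.2 huv
  rw [← h1] at h2
  obtain ⟨x, hx, e⟩ := Finset.mem_image.1 h2
  have hx' := Finset.ne_of_mem_erase hx
  rcases Sym2.eq_iff.1 e with e | e
  · exact Or.inl ⟨e.1 ▸ hx', by rw [← e.1, e.2]⟩
  · exact Or.inr ⟨e.1 ▸ hx', by rw [← e.1, e.2]⟩

/-- Vertices of degree at least three. -/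
def Br (T : SimpleGraph β) (v : β) : Prop := 2 < (nb T v).card

/-- Ancestors of vertices of degree at least three. -/
def Cor (T : SimpleGraph β) (par : β → β) (v : β) : Prop := ∃ b j, Br T b ∧ par^[j] b = v

/-- Vertices within `w` steps below the core. -/
def Near (T : SimpleGraph β) (par : β → β) (w : ℕ) (v : β) : Prop := Cor T par (par^[w] v)

/-- A path between two vertices of degree at least three without further such vertices. -/
structure Bare (T : SimpleGraph β) (f : ℕ → β) (n : ℕ) : Prop where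
  path : IsPath T f (n + 1)
  fst : Br T (f 0)
  lst : Br T (f n)
  mid : ∀ j, 0 < j → j < n → ¬ Br T (f j)

theorem Br.cor {v : β} (h : Br T v) : Cor T par v := ⟨v, 0, h, rfl⟩

theorem Cor.up {v : β} (h : Cor T par v) : Cor T par (par v) := by
  obtain ⟨b, j, h1, h2⟩ := h
  exact ⟨b, j + 1, h1, by rw [Function.iterate_succ_apply', h2]⟩

theorem Cor.iter {v : β} (h : Cor T par v) (j : ℕ) : Cor T par (par^[j] v) := by
  induction j with
  | zero => exact h
  | succ j ih => rw [Function.iterate_succ_apply']; exact ih.up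

theorem Near.up {w : ℕ} {v : β} (h : Near T par w v) : Near T par w (par v) := by
  unfold Near at h ⊢
  rw [← Function.iterate_succ_apply, Function.iterate_succ_apply']
  exact Cor.up h

theorem Cor.near {v : β} (h : Cor T par v) (w : ℕ) : Near T par w v := h.iter w

theorem Cor.near_child {v : β} (h : Cor T par (par v)) {w : ℕ} (hw : 1 ≤ w) : Near T par w v := by
  obtain ⟨w, rfl⟩ : ∃ w', w = w' + 1 := ⟨w - 1, by omega⟩
  unfold Near
  rw [Function.iterate_succ_apply]
  exact h.iter w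

theorem Rt.le (hR : Rt T r par ρ) (v : β) : ρ (par v) ≤ ρ v := by
  by_cases e : v = r
  · rw [e, hR.root]
  · exact (hR.lt v e).le

theorem Rt.iter_le (hR : Rt T r par ρ) (v : β) (j : ℕ) : ρ (par^[j] v) ≤ ρ v := by
  induction j with
  | zero => exact le_rfl
  | succ j ih => rw [Function.iterate_succ_apply']; exact (hR.le _).trans ih

theorem Rt.ind (hR : Rt T r par ρ) {P : β → Prop} (h0 : P r) (h : ∀ v, v ≠ r → P (par v) → P v)
    (v : β) : P v := by
  induction hv : ρ v using Nat.strong_induction_on generalizing v with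
  | h n ih =>
    by_cases e : v = r
    · rw [e]; exact h0
    · exact h v e (ih _ (hv ▸ hR.lt v e) _ rfl)

theorem Rt.reach (hR : Rt T r par ρ) (v : β) : ∃ j, par^[j] v = r :=
  hR.ind (P := fun v => ∃ j, par^[j] v = r) ⟨0, rfl⟩
    (fun v _ ⟨j, h⟩ => ⟨j + 1, by rw [Function.iterate_succ_apply, h]⟩) v

theorem Rt.child_uniq (hR : Rt T r par ρ) {u v v' : β} (hu : ¬ Br T u) (hr : u ≠ r) (h1 : v ≠ r)
    (h2 : v' ≠ r) (e1 : par v = u) (e2 : par v' = u) : v = v' := by
  by_contra hne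
  apply hu
  unfold Br
  rw [Finset.two_lt_card_iff]
  have a := hR.lt v h1
  have b := hR.lt v' h2
  have c := hR.lt u hr
  refine ⟨v, v', par u, mem_nb.2 (e1 ▸ (hR.adj v h1).symm), mem_nb.2 (e2 ▸ (hR.adj v' h2).symm),
    mem_nb.2 (hR.adj u hr), hne, ?_, ?_⟩
  · intro e; rw [e1, e] at a; omega
  · intro e; rw [e2, e] at b; omega

theorem Rt.cancel (hR : Rt T r par ρ) (hr : Br T r) (j : ℕ) {v v' : β}
    (h : ¬ Cor T par (par^[j] v)) (e : par^[j] v = par^[j] v') : v = v' := by
  induction j with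
  | zero => exact e
  | succ j ih =>
    rw [Function.iterate_succ_apply'] at h
    rw [Function.iterate_succ_apply', Function.iterate_succ_apply'] at e
    have h1 : ¬ Cor T par (par^[j] v) := fun c => h c.up
    have h2 : ¬ Cor T par (par^[j] v') := fun c => h (e ▸ c.up)
    exact ih h1 (hR.child_uniq (fun c => h c.cor) (fun c => h (c ▸ hr.cor))
      (fun c => h1 (c ▸ hr.cor)) (fun c => h2 (c ▸ hr.cor)) rfl e.symm)

theorem Rt.exists_child (hR : Rt T r par ρ) (hr : Br T r) {u : β} (h : Cor T par u) :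
    ∃ c, c ≠ r ∧ par c = u := by
  have key : ∀ u, Br T u → ∃ c, c ≠ r ∧ par c = u := by
    intro u hu
    unfold Br at hu
    obtain ⟨c, hc, hne⟩ := Finset.exists_mem_ne (s := nb T u) (by omega) (par u)
    rcases hR.edge u c (mem_nb.1 hc) with g | g
    · exact absurd g.2.symm hne
    · exact ⟨c, g⟩
  obtain ⟨b, j, h1, h2⟩ := h
  cases j with
  | zero => exact key u (h2 ▸ h1)
  | succ j =>
    rw [Function.iterate_succ_apply'] at h2
    by_cases e : par^[j] b = r
    · rw [e, hR.root] at h2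
      exact key u (h2 ▸ hr)
    · exact ⟨_, e, h2⟩

theorem Rt.far_count (hR : Rt T r par ρ) (hr : Br T r) (w : ℕ) :
    cnt (fun v => (∀ c, c ≠ r → par c ≠ v) ∧ ¬ Near T par w (par v)) * (w + 1) ≤
      Fintype.card β := by
  classical
  unfold cnt
  rw [← Finset.card_range (w + 1), ← Finset.card_product, ← Finset.card_univ]
  apply Finset.card_le_card_of_injOn (fun p : β × ℕ => par^[p.2] p.1)
  · intro p _; exact Finset.mem_coe.2 (Finset.mem_univ _)
  have nc : ∀ v j, j < w + 1 → ¬ Near T par w (par v) → ¬ Cor T par (par^[j] v) := by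
    intro v j hj h c
    apply h
    unfold Near
    have := c.iter (w + 1 - j)
    rw [← Function.iterate_add_apply, show w + 1 - j + j = w + 1 by omega,
      Function.iterate_succ_apply] at this
    exact this
  have key : ∀ v v' i j, (∀ c, c ≠ r → par c ≠ v) → ¬ Near T par w (par v) → i ≤ j → j < w + 1 →
      ¬ Near T par w (par v') → par^[i] v = par^[j] v' → v = v' ∧ i = j := by
    intro v v' i j h1 h2 hij hj h3 e
    obtain ⟨d, rfl⟩ : ∃ d, j = i + d := ⟨j - i, by omega⟩
    rw [Function.iterate_add_apply] at e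
    have e' := hR.cancel hr i (nc v i (by omega) h2) e
    cases d with
    | zero => exact ⟨e', rfl⟩
    | succ d =>
      rw [Function.iterate_succ_apply'] at e'
      exact absurd e'.symm (h1 _ fun c => nc v' d (by omega) h3 (c ▸ hr.cor))
  rintro ⟨v, i⟩ hp ⟨v', j⟩ hq e
  simp only [coe_product, coe_filter, mem_univ, true_and, coe_range, Set.mem_prod, Set.mem_ofPred_eq,
    Set.mem_Iio] at hp hq
  rcases le_total i j with h | h
  · obtain ⟨a, b⟩ := key v v' i j hp.1.1 hp.1.2 h hq.2 hq.1.2 e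
    rw [a, b]
  · obtain ⟨a, b⟩ := key v' v j i hq.1.1 hq.1.2 h hp.2 hp.1.2 e.symm
    rw [a, b]

theorem Rt.cut_count (hR : Rt T r par ρ) (hr : Br T r) (w : ℕ) (O : β → Prop) {o1 o2 : β}
    (hO : ∀ u, O u → ¬ Br T u) (hcut : ∀ a b, O a → ¬ O b → T.Adj a b → a = o1 ∧ b = o2) :
    cnt (fun u => O u ∧ Near T par w u) ≤ w := by
  have h0 : ∀ u, O u → u ≠ r := fun u hu e => hO u hu (e ▸ hr)
  have up : ∀ u, O u → (∃ j, par^[j] u = o1) ∧ par o1 = o2 ∧ O o1 := by
    refine hR.ind (fun h => absurd rfl (h0 r h)) fun v hv ih hv' => ?_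
    by_cases c : O (par v)
    · obtain ⟨⟨j, e⟩, h⟩ := ih c
      exact ⟨⟨j + 1, by rw [Function.iterate_succ_apply, e]⟩, h⟩
    · obtain ⟨a, b⟩ := hcut v _ hv' c (hR.adj v hv)
      exact ⟨⟨0, a⟩, by rw [← a, b], a ▸ hv'⟩
  have down : ∀ v, O (par v) → O v := by
    intro v h
    by_contra c
    have hv : v ≠ r := fun e => h0 _ h (by rw [e, hR.root])
    obtain ⟨a, b⟩ := hcut _ v h c (hR.adj v hv).symm
    obtain ⟨-, h1, h2⟩ := up _ h
    have h3 := hR.lt v hv
    have h4 := hR.lt o1 (h0 _ h2)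
    rw [h1, ← b, ← a] at h4
    omega
  have down' : ∀ j v, O (par^[j] v) → O v := by
    intro j
    induction j with
    | zero => exact fun v h => h
    | succ j ih => intro v h; rw [Function.iterate_succ_apply'] at h; exact ih v (down _ h)
  have nc : ∀ u, O u → ¬ Cor T par u := by
    rintro u hu ⟨b, j, h1, rfl⟩
    exact hO b (down' j b hu) h1
  have : ∀ u, ∃ j, O u → par^[j] u = o1 := fun u => by
    by_cases c : O u
    · obtain ⟨j, e⟩ := (up u c).1
      exact ⟨j, fun _ => e⟩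
    · exact ⟨0, fun h => absurd h c⟩
  choose g hg using this
  apply cnt_le_of_inj _ g 0
  · rintro u ⟨h1, h2⟩
    refine ⟨Nat.zero_le _, ?_⟩
    by_contra c
    apply nc _ _ h2
    apply down' (g u - w)
    rw [← Function.iterate_add_apply, show g u - w + w = g u by omega, hg u h1]
    exact (up u h1).2.2
  · rintro u v ⟨h1, -⟩ ⟨h2, -⟩ e
    apply hR.cancel hr (g u)
    · rw [hg u h1]; exact nc _ (up u h1).2.2
    · rw [hg u h1, e, hg v h2]

theorem Rt.par_path (hR : Rt T r par ρ) {f : ℕ → β} {n : ℕ} (hf : IsPath T f n) (h0 : f 0 = r) :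
    ∀ i, i + 1 < n → f (i + 1) ≠ r ∧ par (f (i + 1)) = f i := by
  intro i
  induction i with
  | zero =>
    intro hi
    rcases hR.edge _ _ (hf.adj 0 hi) with g | g
    · exact absurd h0 g.1
    · exact g
  | succ i ih =>
    intro hi
    rcases hR.edge _ _ (hf.adj (i + 1) hi) with g | g
    · have := hf.inj _ _ (by omega) (by omega) ((ih (by omega)).2.symm.trans g.2)
      omega
    · exact g

theorem Bare.lt_card {f : ℕ → β} {n : ℕ} (h : Bare T f n) : n < Fintype.card β := by
  have := Finset.card_le_card_of_injOn (s := range (n + 1)) (t := univ) f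
    (fun _ _ => Finset.mem_coe.2 (Finset.mem_univ _))
    (fun i hi j hj e => h.path.inj i j (by simpa using hi) (by simpa using hj) e)
  simpa using this

/-- One step up in a chain of blocks. -/
def Up (π : ℕ) (bl t : β → ℕ) (u v : β) : Prop :=
  (bl v = bl u ∧ t v = t u + 1) ∨ (bl v = bl u + 1 ∧ t u + 1 = π ∧ t v = 0)

theorem Rt.level (hR : Rt T r par ρ) (hr : Br T r) (hc : T.Connected) (hcol : Bip T col) (w : ℕ)
    {π : ℕ} {bl t : β → ℕ} (ht : ∀ u, t u < π)
    (hadj : ∀ u v, T.Adj u v → (bl u = bl v ∧ t u = 0 ∧ t v = 0) ∨ Up π bl t u v ∨ Up π bl t v u)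
    (huniq : ∀ u v u' v', T.Adj u v → T.Adj u' v' → Up π bl t u v → Up π bl t u' v' →
      bl u = bl u' → t u = t u' → u = u' ∧ v = v')
    (hmax : ∀ f n, Bare T f n → n < π) (α : Bool) :
    cnt (fun u => Near T par w u ∧ col u = α) ≤
      cnt (fun u => (bl u = bl r ∧ t u = 0) ∧ col u = α) + 2 * w ∧
    cnt (fun u => col u ≠ α) + cnt (fun u => Near T par w u ∧ col u = α) ≤
      cnt (fun u => (bl u = bl r ∧ t u = 0) ∧ col u ≠ α) + cnt (fun u => col u = α) +
        (2 * w + 8) := by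
  classical
  have br0 : ∀ u, Br T u → t u = 0 := by
    intro u hu
    by_contra h
    have := card_nb_le_two (T := T) u (fun v => Up π bl t u v) (by
      intro v v' h1 h2 hiff
      by_cases c : Up π bl t u v
      · exact (huniq u v u v' h1 h2 c (hiff.1 c) rfl rfl).2
      · have c' : ¬ Up π bl t u v' := fun g => c (hiff.2 g)
        have a1 : Up π bl t v u := by
          rcases hadj u v h1 with g | g | g
          exacts [absurd g.2.1 h, absurd g c, g]
        have a2 : Up π bl t v' u := by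
          rcases hadj u v' h2 with g | g | g
          exacts [absurd g.2.1 h, absurd g c', g]
        refine (huniq v u v' u h1.symm h2.symm a1 a2 ?_ ?_).1 <;> unfold Up at a1 a2 <;> omega)
    unfold Br at hu
    omega
  have lip : ∀ u v, T.Adj u v → bl u * π + t u ≤ bl v * π + t v + 1 := by
    intro u v h
    rcases hadj u v h with g | g | g
    · rw [g.1]; omega
    · rcases g with g | g
      · rw [g.1]; omega
      · rw [g.1, Nat.succ_mul]; omega
    · rcases g with g | g
      · rw [g.1]; omega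
      · rw [g.1, Nat.succ_mul]; omega
  have brl : ∀ u, Br T u → bl u = bl r := by
    by_contra hne
    push Not at hne
    obtain ⟨b, hb, hmin⟩ := Finset.exists_min_image
      (univ.filter fun u => Br T u ∧ bl u ≠ bl r) ρ (by
        obtain ⟨u, h1, h2⟩ := hne
        exact ⟨u, by simp [h1, h2]⟩)
    simp only [mem_filter, mem_univ, true_and, and_imp] at hb hmin
    have hbr : b ≠ r := fun e => hb.2 (by rw [e])
    have hex : ∃ j, Br T (par^[j + 1] b) := by
      obtain ⟨j, e⟩ := hR.reach b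
      exact ⟨j, by rw [Function.iterate_succ_apply', e, hR.root]; exact hr⟩
    set n := Nat.find hex + 1 with hn
    have h1 : Br T (par^[n] b) := Nat.find_spec hex
    have h2 : ∀ j, 0 < j → j < n → ¬ Br T (par^[j] b) := by
      intro j a1 a2
      have := Nat.find_min hex (m := j - 1) (by omega)
      rwa [show j - 1 + 1 = j by omega] at this
    have h3 : ∀ j, j < n → par^[j] b ≠ r := by
      intro j hj e
      by_cases c : j = 0
      · subst c; exact hbr e
      · exact h2 j (by omega) hj (e ▸ hr)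
    have h4 : ∀ i j, i < j → j ≤ n → ρ (par^[j] b) < ρ (par^[i] b) := by
      intro i j hij hj
      obtain ⟨d, rfl⟩ : ∃ d, j = d + (i + 1) := ⟨j - (i + 1), by omega⟩
      rw [Function.iterate_add_apply, Function.iterate_succ_apply']
      exact (hR.iter_le _ _).trans_lt (hR.lt _ (h3 i (by omega)))
    have hadj' : ∀ i, i < n → T.Adj (par^[i] b) (par^[i + 1] b) := fun i hi => by
      rw [Function.iterate_succ_apply']; exact hR.adj _ (h3 i hi)
    have h5 : Bare T (fun i => par^[i] b) n := by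
      refine ⟨⟨fun i j hi hj e => ?_, fun i hi => hadj' i (by omega)⟩, hb.1, h1, h2⟩
      rcases lt_trichotomy i j with c | c | c
      · have := h4 i j c (by omega); rw [e] at this; omega
      · exact c
      · have := h4 j i c (by omega); rw [e] at this; omega
    have h6 := hmax _ _ h5
    have h7 : bl (par^[n] b) = bl r := by
      by_contra c
      have a1 := hmin _ h1 c
      have a2 := h4 0 n (by omega) le_rfl
      simp only [Function.iterate_zero, id_eq] at a2
      omega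
    have h8 : ∀ j, j ≤ n → bl b * π + t b ≤ bl (par^[j] b) * π + t (par^[j] b) + j ∧
        bl (par^[j] b) * π + t (par^[j] b) ≤ bl b * π + t b + j := by
      intro j
      induction j with
      | zero => intro _; simp
      | succ j ih =>
        intro hj
        have a1 := ih (by omega)
        have a2 := lip _ _ (hadj' j hj)
        have a3 := lip _ _ (hadj' j hj).symm
        omega
    have h9 := h8 n le_rfl
    rw [h7, br0 _ h1, br0 _ hb.1] at h9
    rcases lt_or_gt_of_ne hb.2 with c | c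
    · have := Nat.mul_le_mul_right π (Nat.succ_le_of_lt c)
      rw [Nat.succ_mul] at this
      omega
    · have := Nat.mul_le_mul_right π (Nat.succ_le_of_lt c)
      rw [Nat.succ_mul] at this
      omega
  set O1 : β → Prop := fun u => bl u < bl r with hO1
  set O2 : β → Prop := fun u => bl r < bl u ∨ (bl u = bl r ∧ 0 < t u) with hO2
  have n1 : ∀ u, O1 u → ¬ Br T u := fun u h c => by have := brl u c; simp only [hO1] at h; omega
  have n2 : ∀ u, O2 u → ¬ Br T u := fun u h c => by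
    have := brl u c; have := br0 u c; simp only [hO2] at h; omega
  obtain ⟨a1, a2, c1⟩ := exists_cut (T := T) hc.nonempty O1 (by
    have : ∀ a b, O1 a → ¬ O1 b → T.Adj a b → Up π bl t a b ∧ bl a + 1 = bl r ∧ t a + 1 = π := by
      intro a b h1 h2 h3
      simp only [hO1] at h1 h2
      rcases hadj a b h3 with g | g | g
      · omega
      · exact ⟨g, by unfold Up at g; omega⟩
      · unfold Up at g; omega
    intro a b a' b' g1 g2 g3 g4 g5 g6
    have x := this a b g1 g2 g3
    have y := this a' b' g4 g5 g6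
    exact huniq a b a' b' g3 g6 x.1 y.1 (by omega) (by omega))
  obtain ⟨b1, b2, c2⟩ := exists_cut (T := T) hc.nonempty O2 (by
    have : ∀ a b, O2 a → ¬ O2 b → T.Adj a b → Up π bl t b a ∧ bl b = bl r ∧ t b = 0 := by
      intro a b h1 h2 h3
      simp only [hO2] at h1 h2
      rcases hadj a b h3 with g | g | g
      · omega
      · unfold Up at g; omega
      · exact ⟨g, by have := ht b; unfold Up at g; omega⟩
    intro a b a' b' g1 g2 g3 g4 g5 g6
    have x := this a b g1 g2 g3
    have y := this a' b' g4 g5 g6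
    exact (huniq b a b' a' g3.symm g6.symm x.1 y.1 (by omega) (by omega)).symm)
  have d1 := hR.cut_count hr w O1 n1 c1
  have d2 := hR.cut_count hr w O2 n2 c2
  have hsw : ∀ u, col u = (!α) ↔ col u ≠ α := by
    intro u; cases col u <;> cases α <;> simp
  have hsw' : ∀ u, col u ≠ (!α) ↔ col u = α := by
    intro u; cases col u <;> cases α <;> simp
  have e1 := balance' hc hcol O1 {a1} (fun u h => not_lt.1 (n1 u h))
    (fun u v g1 g2 g3 => by simp [(c1 u v g1 g2 g3).1]) (!α)
  have e2 := balance' hc hcol O2 {b1} (fun u h => not_lt.1 (n2 u h))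
    (fun u v g1 g2 g3 => by simp [(c2 u v g1 g2 g3).1]) (!α)
  simp only [hsw', card_singleton] at e1 e2
  simp only [hsw] at e1 e2
  have sp : ∀ P : β → Prop, cnt P = cnt (fun u => O1 u ∧ P u) + cnt (fun u => O2 u ∧ P u) +
      cnt (fun u => (bl u = bl r ∧ t u = 0) ∧ P u) := by
    intro P
    rw [cnt_split P O1, cnt_split (fun u => ¬ O1 u ∧ P u) O2, add_assoc]
    congr 3 <;> funext u <;> simp only [hO1, hO2, eq_iff_iff] <;> constructor <;> intro h <;>
      refine ⟨by omega, ?_⟩ <;> first | exact h.2.2 | exact h.2 | exact ⟨by omega, h.2⟩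
  have s1 := sp (fun u => Near T par w u ∧ col u = α)
  have s2 := sp (fun u => col u ≠ α)
  have s3 := sp (fun u => col u = α)
  have m1 : cnt (fun u => O1 u ∧ Near T par w u ∧ col u = α) ≤ w :=
    (cnt_mono fun u h => ⟨h.1, h.2.1⟩).trans d1
  have m2 : cnt (fun u => O2 u ∧ Near T par w u ∧ col u = α) ≤ w :=
    (cnt_mono fun u h => ⟨h.1, h.2.1⟩).trans d2
  have m3 : cnt (fun u => (bl u = bl r ∧ t u = 0) ∧ Near T par w u ∧ col u = α) ≤
      cnt (fun u => (bl u = bl r ∧ t u = 0) ∧ col u = α) := cnt_mono fun u h => ⟨h.1, h.2.2⟩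
  constructor <;> omega

theorem NEmb.sig {Z : Type*} {R : Z → Z → Prop} {sd : β → Bool} {vl : β → Z}
    (h : NEmb T R sd vl) : ∃ σ : β → ℕ, (∀ u, σ u = if sd u then 1 else 0) ∧
      (∀ u v, σ u = σ v → vl u = vl v → u = v) ∧
      ∀ u v, T.Adj u v → (σ u = 1 ∧ σ v = 0 ∧ R (vl u) (vl v)) ∨
        (σ u = 0 ∧ σ v = 1 ∧ R (vl v) (vl u)) := by
  refine ⟨fun u => if sd u then 1 else 0, fun _ => rfl, fun u v a b => h.inj u v ?_ b,
    fun u v huv => ?_⟩
  · revert a; beta_reduce; cases sd u <;> cases sd v <;> simp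
  · rcases h.adj u v huv with g | g
    · exact Or.inl ⟨by simp [g.1], by simp [g.2.1], g.2.2⟩
    · exact Or.inr ⟨by simp [g.1], by simp [g.2.1], g.2.2⟩

theorem arith_long {s k x y σ τ b c t u : ℕ} (hs : 1 ≤ s) (hk : 0 < k)
    (a1 : (σ = 1 ∧ s + k ≤ x ∧ b = 1) ∨ (σ = 1 ∧ x < s + k ∧ b = 0) ∨ (σ = 0 ∧ x < s ∧ b = 1) ∨
      (σ = 0 ∧ s ≤ x ∧ b = 0))
    (a2 : (τ = 1 ∧ s + k ≤ y ∧ c = 1) ∨ (τ = 1 ∧ y < s + k ∧ c = 0) ∨ (τ = 0 ∧ y < s ∧ c = 1) ∨
      (τ = 0 ∧ s ≤ y ∧ c = 0))
    (a3 : (s ≤ x ∧ x < s + k ∧ t = 2 * (x - s) + 1 + σ) ∨ ((x < s ∨ s + k ≤ x) ∧ t = 0))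
    (a4 : (s ≤ y ∧ y < s + k ∧ u = 2 * (y - s) + 1 + τ) ∨ ((y < s ∨ s + k ≤ y) ∧ u = 0))
    (a5 : (σ = 1 ∧ τ = 0 ∧ R2 s k x y) ∨ (σ = 0 ∧ τ = 1 ∧ R2 s k y x)) :
    ((b = c ∧ t = 0 ∧ u = 0) ∨ ((c = b ∧ u = t + 1) ∨ (c = b + 1 ∧ t + 1 = 2 * k + 1 ∧ u = 0)) ∨
      ((b = c ∧ t = u + 1) ∨ (b = c + 1 ∧ u + 1 = 2 * k + 1 ∧ t = 0))) ∧
    (((c = b ∧ u = t + 1) ∨ (c = b + 1 ∧ t + 1 = 2 * k + 1 ∧ u = 0)) → σ + τ = 1 ∧
      ((t = 0 ∧ σ = 1 ∧ x + 1 = s ∧ y = s) ∨ (t = 2 * k ∧ σ = 1 ∧ x + 1 = s + k ∧ y = 0) ∨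
        (t < 2 * k ∧ t = 2 * (x - s) + 1 + σ ∧ s ≤ x ∧ y = x + σ))) := by
  rcases a5 with ⟨rfl, rfl, g | g | g | g⟩ | ⟨rfl, rfl, g | g | g | g⟩ <;>
    rcases a1 with a1 | a1 | a1 | a1 <;> (try (exfalso; omega)) <;>
    rcases a2 with a2 | a2 | a2 | a2 <;> (try (exfalso; omega)) <;>
    rcases a3 with a3 | a3 <;> (try (exfalso; omega)) <;>
    rcases a4 with a4 | a4 <;> (try (exfalso; omega)) <;> constructor <;> omega

theorem host_long {n k s : ℕ} {T : SimpleGraph (Fin k)} {col : Fin k → Bool} {r : Fin k}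
    {par : Fin k → Fin k} {ρ : Fin k → ℕ} (hR : Rt T r par ρ) (hr : Br T r) (hc : T.Connected)
    (hcol : Bip T col) (w : ℕ) {α : Bool}
    (hpq : cnt (fun u => col u = α) ≤ cnt (fun u => col u ≠ α)) (hs : 1 ≤ s)
    (hbig : s + (2 * w + 8) < cnt (fun u => Near T par w u ∧ col u = α)) (hn : s + k < n) :
    2 * (s * (n - s - k)) ≤ exConnBip n T := by
  classical
  refine host_two_aux T hs hn fun sd vl h => ?_
  obtain ⟨e, he⟩ := col_agree hc hcol h.bip
  obtain ⟨σ, hσ, inj, adj⟩ := h.sig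
  have hk : 0 < k := Fin.pos r
  obtain ⟨bl, hbl⟩ : ∃ bl : Fin k → ℕ, ∀ u, (σ u = 1 ∧ s + k ≤ vl u ∧ bl u = 1) ∨
      (σ u = 1 ∧ vl u < s + k ∧ bl u = 0) ∨ (σ u = 0 ∧ vl u < s ∧ bl u = 1) ∨
      (σ u = 0 ∧ s ≤ vl u ∧ bl u = 0) :=
    ⟨fun u => if σ u = 1 then (if s + k ≤ vl u then 1 else 0) else (if vl u < s then 1 else 0),
      fun u => by
        have : σ u ≤ 1 := by rw [hσ]; split_ifs <;> omega
        beta_reduce
        split_ifs <;> omega⟩
  obtain ⟨t, ht⟩ : ∃ t : Fin k → ℕ, ∀ u, (s ≤ vl u ∧ vl u < s + k ∧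
      t u = 2 * (vl u - s) + 1 + σ u) ∨ ((vl u < s ∨ s + k ≤ vl u) ∧ t u = 0) :=
    ⟨fun u => if s ≤ vl u ∧ vl u < s + k then 2 * (vl u - s) + 1 + σ u else 0, fun u => by
      beta_reduce
      split_ifs <;> omega⟩
  have form := fun u v h => arith_long hs hk (hbl u) (hbl v) (ht u) (ht v) (adj u v h)
  have key := hR.level hr hc hcol w (π := 2 * k + 1) (bl := bl) (t := t) (by
      intro u
      have a1 := hbl u
      have a3 := ht u
      omega) (fun u v huv => (form u v huv).1) (by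
      intro u v u' v' h1 h2 h3 h4 h5 h6
      have a1 := (form u v h1).2 h3
      have a2 := (form u' v' h2).2 h4
      clear h3 h4
      exact ⟨inj _ _ (by omega) (by omega), inj _ _ (by omega) (by omega)⟩) (by
      intro f m hf
      have := hf.lt_card
      rw [Fintype.card_fin] at this
      omega) α
  have small : ∀ γ, bl r + (if xor e γ then 1 else 0) = 1 →
      cnt (fun u => (bl u = bl r ∧ t u = 0) ∧ col u = γ) ≤ s := by
    intro γ hγ
    apply cnt_le_of_inj _ vl 0
    · rintro u ⟨⟨h1, h2⟩, h3⟩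
      have a1 := hbl u
      have a3 := ht u
      rw [← h3, ← he, ← hσ] at hγ
      omega
    · intro u v hu hv
      exact inj _ _ (by rw [hσ, hσ, he, he, hu.2, hv.2])
  have hsw : ∀ u, col u = (!α) ↔ col u ≠ α := by
    intro u; cases col u <;> cases α <;> simp
  have a1 := small α
  have a2 := small (!α)
  simp only [hsw] at a2
  have a3 := hbl r
  have a4 : (if xor e α then 1 else 0) + (if xor e (!α) then 1 else 0) = 1 := by
    cases e <;> cases α <;> rfl
  omega

/-- Adjacency in a chain of balanced complete bipartite blocks joined by paths. -/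
def R4 (s l : ℕ) (b o b' o' : ℕ) : Prop :=
  (b = b' ∧ (o' = o ∨ o' + 1 = o ∨ (o < s ∧ o' < s))) ∨ (b = b' + 1 ∧ o = 0 ∧ o' + 1 = s + l)

theorem arith_chain {s l x y σ τ b c t u : ℕ} (hs : 1 ≤ s) (a1 : x < s + l) (a2 : y < s + l)
    (a3 : (x < s ∧ t = 0) ∨ (s ≤ x ∧ t + σ = 2 * (x - s) + 2 ∧ σ ≤ 1))
    (a4 : (y < s ∧ u = 0) ∨ (s ≤ y ∧ u + τ = 2 * (y - s) + 2 ∧ τ ≤ 1))
    (a5 : (σ = 1 ∧ τ = 0 ∧ R4 s l b x c y) ∨ (σ = 0 ∧ τ = 1 ∧ R4 s l c y b x)) :
    ((b = c ∧ t = 0 ∧ u = 0) ∨ ((c = b ∧ u = t + 1) ∨ (c = b + 1 ∧ t + 1 = 2 * l + 1 ∧ u = 0)) ∨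
      ((b = c ∧ t = u + 1) ∨ (b = c + 1 ∧ u + 1 = 2 * l + 1 ∧ t = 0))) ∧
    (((c = b ∧ u = t + 1) ∨ (c = b + 1 ∧ t + 1 = 2 * l + 1 ∧ u = 0)) → σ + τ = 1 ∧
      ((t = 2 * l ∧ σ = 0 ∧ x + 1 = s + l ∧ y = 0 ∧ c = b + 1) ∨
        (t < 2 * l ∧ t + σ + 2 * s = 2 * x + 2 ∧ y + σ = x + 1 ∧ c = b))) := by
  rcases a5 with ⟨rfl, rfl, ⟨rfl, g | g | g⟩ | g⟩ | ⟨rfl, rfl, ⟨rfl, g | g | g⟩ | g⟩ <;>
    rcases a3 with a3 | a3 <;> (try (exfalso; omega)) <;>
    rcases a4 with a4 | a4 <;> (try (exfalso; omega)) <;> constructor <;> omega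

theorem host_chain {k s l : ℕ} {T : SimpleGraph (Fin k)} {col : Fin k → Bool} {r : Fin k}
    {par : Fin k → Fin k} {ρ : Fin k → ℕ} (hR : Rt T r par ρ) (hr : Br T r) (hc : T.Connected)
    (hcol : Bip T col) (w : ℕ) {α : Bool} (hs : 1 ≤ s)
    (hmax : ∀ f n, Bare T f n → n < 2 * l + 1)
    (hbig : s + cnt (fun u => col u = α) + (2 * w + 8) <
      cnt (fun u => col u ≠ α) + cnt (fun u => Near T par w u ∧ col u = α)) (M : ℕ) :
    (M + 1) * (s * s) ≤ exConnBip ((M + 1) * (s + l)) T := by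
  classical
  have := le_exConn (Z := Fin (M + 1) × Fin (s + l)) (n := (M + 1) * (s + l)) (by simp) T
    (fun z z' => R4 s l z.1 z.2 z'.1 z'.2) (by
      apply connected_of_rank (fun u : (Fin (M + 1) × Fin (s + l)) ⊕ (Fin (M + 1) × Fin (s + l)) =>
        2 * (((u.elim id id).1 : ℕ) * (s + l) + (u.elim id id).2) + if u.isLeft then 0 else 1)
        (Sum.inl (0, ⟨0, by omega⟩))
      rintro (⟨b, o⟩ | ⟨b, o⟩) hne
      · by_cases h : (o : ℕ) = 0
        · have hb : (b : ℕ) ≠ 0 := fun c => hne (by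
            congr 2
            exacts [Fin.ext c, Fin.ext h])
          obtain ⟨c, hc⟩ : ∃ c, (b : ℕ) = c + 1 := ⟨b - 1, by omega⟩
          refine ⟨Sum.inr (⟨c, by omega⟩, ⟨s + l - 1, by omega⟩), Or.inl ⟨rfl, rfl, ?_⟩, ?_⟩
          · simp only [R4, Sum.elim_inl, Sum.elim_inr, id]; omega
          · simp only [Sum.elim_inl, Sum.elim_inr, id, hc, Nat.succ_mul]
            simp
            omega
        · refine ⟨Sum.inr (b, ⟨o - 1, by omega⟩), Or.inl ⟨rfl, rfl, Or.inl ⟨rfl, ?_⟩⟩, ?_⟩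
          · simp only [Sum.elim_inl, Sum.elim_inr, id]; omega
          · simp
            omega
      · refine ⟨Sum.inl (b, o), Or.inr ⟨rfl, rfl, ?_⟩, ?_⟩
        · simp [R4]
        · simp) (by
      intro sd vl h
      obtain ⟨e, he⟩ := col_agree hc hcol h.bip
      obtain ⟨σ, hσ, inj', adj'⟩ := h.sig
      obtain ⟨bl, hbl⟩ : ∃ bl : Fin k → ℕ, ∀ u, bl u = (vl u).1 := ⟨_, fun _ => rfl⟩
      obtain ⟨os, hos⟩ : ∃ os : Fin k → ℕ, ∀ u, os u = (vl u).2 := ⟨_, fun _ => rfl⟩
      have adj : ∀ u v, T.Adj u v →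
          (σ u = 1 ∧ σ v = 0 ∧ R4 s l (bl u) (os u) (bl v) (os v)) ∨
          (σ u = 0 ∧ σ v = 1 ∧ R4 s l (bl v) (os v) (bl u) (os u)) := by
        simp only [hbl, hos]; exact adj'
      have inj : ∀ u v, σ u = σ v → bl u = bl v → os u = os v → u = v := fun u v a b c =>
        inj' u v a (Prod.ext (Fin.ext (by rw [← hbl, ← hbl, b])) (Fin.ext (by rw [← hos, ← hos, c])))
      have hlt : ∀ u, os u < s + l := fun u => by rw [hos]; exact (vl u).2.2
      obtain ⟨t, ht⟩ : ∃ t : Fin k → ℕ, ∀ u, (os u < s ∧ t u = 0) ∨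
          (s ≤ os u ∧ t u + σ u = 2 * (os u - s) + 2 ∧ σ u ≤ 1) :=
        ⟨fun u => if os u < s then 0 else 2 * (os u - s) + 2 - σ u, fun u => by
          have : σ u ≤ 1 := by rw [hσ]; split_ifs <;> omega
          beta_reduce
          split_ifs <;> omega⟩
      have form := fun u v h => arith_chain hs (hlt u) (hlt v) (ht u) (ht v) (adj u v h)
      have key := hR.level hr hc hcol w (π := 2 * l + 1) (bl := bl) (t := t) (by
          intro u
          have a1 := hlt u
          have a3 := ht u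
          omega) (fun u v huv => (form u v huv).1) (by
          intro u v u' v' h1 h2 h3 h4 h5 h6
          have a1 := (form u v h1).2 h3
          have a2 := (form u' v' h2).2 h4
          clear h3 h4
          exact ⟨inj _ _ (by omega) h5 (by omega), inj _ _ (by omega) (by omega) (by omega)⟩) hmax α
      have : cnt (fun u => (bl u = bl r ∧ t u = 0) ∧ col u ≠ α) ≤ s := by
        apply cnt_le_of_inj _ os 0
        · rintro u ⟨⟨-, h2⟩, -⟩
          have := ht u
          omega
        · rintro u v ⟨⟨h1, -⟩, a⟩ ⟨⟨h2, -⟩, b⟩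
          refine inj _ _ ?_ (h1.trans h2.symm)
          rw [hσ, hσ, he, he]; revert a b; cases col u <;> cases col v <;> cases α <;> simp
      omega)
    ((univ : Finset (Fin (M + 1) × Fin s × Fin s)).image (fun z =>
      ((z.1, ⟨z.2.1, by omega⟩), (z.1, ⟨z.2.2, by omega⟩)))) (by
      intro p hp
      obtain ⟨z, -, rfl⟩ := Finset.mem_image.1 hp
      simp [R4])
  rw [Finset.card_image_of_injective _ (by
    rintro ⟨a, b, d⟩ ⟨a', b', d'⟩ e
    simp only [Prod.mk.injEq, Fin.mk.injEq] at e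
    simp only [Prod.mk.injEq]
    exact ⟨e.1.1, Fin.ext e.1.2, Fin.ext e.2.2⟩)] at this
  simpa using this

end Pool.Agent.Lib.MP_95bdb0_co
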