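import Pool.Agent.Lib.MP_95bdb0_co.RTree
import Pool.Agent.Lib.MP_95bdb0_co.RDefs

/-!
Edge counting in bipartite graphs without certain dense configurations, layered greedy embedding
of a tree, both bounds for the ratio and the limit.
-/

set_option linter.unusedVariables false
set_option linter.unusedSectionVars false
set_option linter.unusedSimpArgs false

namespace Pool.Agent.Lib.MP_95bdb0_co

open Finset Relation SimpleGraph

section count

variable {V : Type*} [DecidableEq V] {G : SimpleGraph V}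

open Classical in
/-- The number of neighbours of `x` in `S`. -/
noncomputable def dg (G : SimpleGraph V) (x : V) (S : Finset V) : ℕ := (S.filter (G.Adj x)).card

/-- The number of edges between `A` and `B`. -/
noncomputable def ed (G : SimpleGraph V) (A B : Finset V) : ℕ := ∑ x ∈ A, dg G x B

theorem dg_mono (x : V) {S S' : Finset V} (h : S ⊆ S') : dg G x S ≤ dg G x S' := by
  classical
  exact Finset.card_le_card (Finset.filter_subset_filter _ h)

theorem ed_comm (A B : Finset V) : ed G A B = ed G B A := by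
  classical
  unfold ed dg
  simp only [Finset.card_filter]
  rw [Finset.sum_comm]
  simp only [G.adj_comm]

theorem ed_split (A B : Finset V) (P : V → Prop) [DecidablePred P] :
    ed G A B = ed G (A.filter P) B + ed G (A.filter fun x => ¬ P x) B :=
  (Finset.sum_filter_add_sum_filter_not A P _).symm

theorem ed_le {A B : Finset V} {c : ℕ} (h : ∀ x ∈ A, dg G x B ≤ c) : ed G A B ≤ c * A.card := by
  rw [mul_comm, ← smul_eq_mul]
  exact Finset.sum_le_card_nsmul _ _ _ h

theorem peel (A B : Finset V) (fa fb : V → ℕ)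
    (h : ∀ X ⊆ A, ∀ Y ⊆ B, (∃ x ∈ X, dg G x Y ≤ fa x) ∨ (∃ y ∈ Y, dg G y X ≤ fb y) ∨
      ed G X Y ≤ ∑ x ∈ X, fa x + ∑ y ∈ Y, fb y) :
    ∀ X ⊆ A, ∀ Y ⊆ B, ed G X Y ≤ ∑ x ∈ X, fa x + ∑ y ∈ Y, fb y := by
  intro X hX Y hY
  induction hn : X.card + Y.card using Nat.strong_induction_on generalizing X Y with
  | h n ih =>
    rcases h X hX Y hY with ⟨x, h1, h2⟩ | ⟨y, h1, h2⟩ | h1
    · have := ih _ (by have := Finset.card_erase_lt_of_mem h1; omega) (X.erase x)
        ((Finset.erase_subset _ _).trans hX) Y hY rfl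
      have e1 := Finset.add_sum_erase X (fun x => dg G x Y) h1
      have e2 := Finset.add_sum_erase X fa h1
      unfold ed at this ⊢
      omega
    · have := ih _ (by have := Finset.card_erase_lt_of_mem h1; omega) X hX (Y.erase y)
        ((Finset.erase_subset _ _).trans hY) rfl
      have e1 := Finset.add_sum_erase Y (fun y => dg G y X) h1
      have e2 := Finset.add_sum_erase Y fb h1
      rw [ed_comm] at this ⊢
      unfold ed at this ⊢
      omega
    · exact h1

/-- A core with high degree vertices on the first side. -/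
def Co (G : SimpleGraph V) (A B : Finset V) (q p s : ℕ) (X Y : Finset V) : Prop :=
  X ⊆ A ∧ Y ⊆ B ∧ (∀ x ∈ X, q ≤ dg G x B ∧ p ≤ dg G x Y) ∧ ∀ y ∈ Y, p ≤ dg G y X + s

/-- A core together with a second core outside its first side. -/
def Str (G : SimpleGraph V) (A B : Finset V) (q p s : ℕ) : Prop :=
  ∃ X Y X1 Y1, Co G A B q p s X Y ∧ X1 ⊆ A ∧ Disjoint X1 X ∧ Y1 ⊆ Y ∧ Y1.Nonempty ∧
    (∀ x ∈ X1, s + 1 ≤ dg G x Y1) ∧ ∀ y ∈ Y1, s ≤ dg G y X1

theorem orient {A B : Finset V} {q p μ : ℕ} (hμ : μ ≤ p)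
    (h : ∀ s, s = 0 ∨ s < μ → ¬ Str G A B q p s) : ∃ d : V → ℕ, (∀ y, d y ≤ μ) ∧
      (∀ X ⊆ A.filter (fun x => q ≤ dg G x B), ∀ Y ⊆ B,
        ed G X Y + ∑ y ∈ Y, d y ≤ p * X.card + p * Y.card) ∧
      ∀ s, s < μ → ed G A (B.filter (d · ≤ s)) + ∑ y ∈ B.filter (d · ≤ s), d y ≤
        p * (A.filter (fun x => q ≤ dg G x B)).card + p * (B.filter (d · ≤ s)).card +
          s * (A.card + (B.filter (d · ≤ s)).card) := by
  classical
  have hex : ∀ y : V, ∃ s, s = μ ∨ ∃ X Y, Co G A B q p s X Y ∧ y ∈ Y := fun y => ⟨μ, Or.inl rfl⟩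
  set d : V → ℕ := fun y => Nat.find (hex y) with hd
  have d1 : ∀ y, d y ≤ μ := fun y => Nat.find_min' _ (Or.inl rfl)
  have d2 : ∀ y s X Y, Co G A B q p s X Y → y ∈ Y → d y ≤ s :=
    fun y s X Y a b => Nat.find_min' _ (Or.inr ⟨X, Y, a, b⟩)
  have d3 : ∀ y s, s < μ → d y ≤ s → ∃ X Y, Co G A B q p s X Y ∧ y ∈ Y := by
    intro y s hs hy
    rcases Nat.find_spec (hex y) with g | ⟨X, Y, g, g'⟩
    · exact absurd g (by change d y ≠ μ; omega)
    · refine ⟨X, Y, ⟨g.1, g.2.1, g.2.2.1, fun z hz => ?_⟩, g'⟩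
      have := g.2.2.2 z hz
      change p ≤ _ + d y at this
      omega
  have a : ∀ X ⊆ A.filter (fun x => q ≤ dg G x B), ∀ Y ⊆ B,
      ed G X Y + ∑ y ∈ Y, d y ≤ p * X.card + p * Y.card := by
    intro X hX Y hY
    have := peel (G := G) _ B (fun _ => p) (fun y => p - d y) (by
      intro X hX Y hY
      by_contra hne
      push Not at hne
      obtain ⟨n1, n2, n3⟩ := hne
      rcases Y.eq_empty_or_nonempty with rfl | hY0
      · simp [ed, dg] at n3
      obtain ⟨y, hy, hmax⟩ := Finset.exists_max_image Y d hY0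
      have co : Co G A B q p (d y - 1) X Y := by
        refine ⟨hX.trans (Finset.filter_subset _ _), hY, fun x hx =>
          ⟨(Finset.mem_filter.1 (hX hx)).2, (n1 x hx).le⟩, fun z hz => ?_⟩
        have := n2 z hz
        have := hmax z hz
        omega
      have h0 : d y = 0 := by have := d2 y _ X Y co hy; omega
      rw [h0] at co
      exact h 0 (Or.inl rfl) ⟨X, Y, ∅, Y, co, Finset.empty_subset _, Finset.disjoint_empty_left _,
        subset_rfl, hY0, by simp, by simp⟩) X hX Y hY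
    have e : ∑ y ∈ Y, (p - d y) + ∑ y ∈ Y, d y = p * Y.card := by
      rw [← Finset.sum_add_distrib, Finset.sum_congr rfl (g := fun _ => p)
        (fun y _ => Nat.sub_add_cancel ((d1 y).trans hμ))]
      simp [mul_comm]
    simp only [sum_const, smul_eq_mul, mul_comm X.card] at this
    omega
  refine ⟨d, d1, a, fun s hs => ?_⟩
  set Y := B.filter (d · ≤ s) with hY
  set X := A.filter (fun x => ∃ X Y, Co G A B q p s X Y ∧ x ∈ X) with hX
  have co : Co G A B q p s X Y := by
    refine ⟨Finset.filter_subset _ _, Finset.filter_subset _ _, fun x hx => ?_, fun y hy => ?_⟩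
    · obtain ⟨X', Y', c, hx'⟩ := (Finset.mem_filter.1 hx).2
      refine ⟨(c.2.2.1 x hx').1, (c.2.2.1 x hx').2.trans (dg_mono x fun z hz => ?_)⟩
      exact Finset.mem_filter.2 ⟨c.2.1 hz, d2 z s X' Y' c hz⟩
    · obtain ⟨X', Y', c, hy'⟩ := d3 y s hs (Finset.mem_filter.1 hy).2
      refine (c.2.2.2 y hy').trans (Nat.add_le_add_right (dg_mono y fun z hz => ?_) s)
      exact Finset.mem_filter.2 ⟨c.1 hz, X', Y', c, hz⟩
  have hXH : X ⊆ A.filter (fun x => q ≤ dg G x B) := fun x hx =>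
    Finset.mem_filter.2 ⟨co.1 hx, (co.2.2.1 x hx).1⟩
  have a1 := a X hXH Y co.2.1
  have a2 := peel (G := G) (A.filter fun x => ¬ x ∈ X) Y (fun _ => s) (fun _ => s) (by
    intro X1 hX1 Y1 hY1
    by_contra hne
    push Not at hne
    obtain ⟨n1, n2, n3⟩ := hne
    rcases Y1.eq_empty_or_nonempty with rfl | hY0
    · simp [ed, dg] at n3
    exact h s (Or.inr hs) ⟨X, Y, X1, Y1, co, hX1.trans (Finset.filter_subset _ _),
      Finset.disjoint_left.2 fun x hx => (Finset.mem_filter.1 (hX1 hx)).2, hY1, hY0, n1,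
      fun y hy => (n2 y hy).le⟩) _ subset_rfl _ subset_rfl
  have a3 := ed_split (G := G) A Y (· ∈ X)
  rw [show A.filter (· ∈ X) = X from by
    ext x; simp only [mem_filter, and_iff_right_iff_imp]; exact fun hx => co.1 hx] at a3
  simp only [sum_const, smul_eq_mul] at a2
  have a4 := Nat.mul_le_mul_left p (Finset.card_le_card hXH)
  have a5 := Nat.mul_le_mul_right s (Finset.card_filter_le A fun x => ¬ x ∈ X)
  rw [mul_add, mul_comm s, mul_comm s]
  omega

theorem sum_level (M : ℝ) (d μ : ℕ) (h : d ≤ μ) :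
    ((μ : ℝ) - d) * (M - μ / 2) ≤ ∑ s ∈ range μ, if d ≤ s then M - s + d else 0 := by
  have key : ∀ n, d ≤ n → ∑ s ∈ range n, (if d ≤ s then M - s + d else 0) =
      ((n : ℝ) - d) * (M - ((n : ℝ) - d - 1) / 2) := by
    intro n hn
    induction n, hn using Nat.le_induction with
    | base =>
      rw [Finset.sum_eq_zero fun s hs => if_neg (by simpa using hs)]
      simp
    | succ n hn ih =>
      rw [Finset.sum_range_succ, ih, if_pos hn]
      push_cast
      ring
  rw [key μ h]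
  have h1 : (d : ℝ) ≤ μ := by exact_mod_cast h
  have h2 : (0 : ℝ) ≤ d := Nat.cast_nonneg d
  apply mul_le_mul_of_nonneg_left <;> linarith

theorem sum_range_le (μ : ℕ) : ∑ s ∈ range μ, (s : ℝ) ≤ (μ : ℝ) ^ 2 / 2 := by
  induction μ with
  | zero => simp
  | succ n ih =>
    rw [Finset.sum_range_succ]
    push_cast
    nlinarith

/-- The inequalities of one orientation. -/
theorem orient_ineq {A B : Finset V} {q p μ : ℕ} (hpq : p ≤ q) {d d' : V → ℕ}
    (d1 : ∀ y, d y ≤ μ)
    (a : ∀ X ⊆ A.filter (fun x => q ≤ dg G x B), ∀ Y ⊆ B,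
      ed G X Y + ∑ y ∈ Y, d y ≤ p * X.card + p * Y.card)
    (b : ∀ s, s < μ → ed G A (B.filter (d · ≤ s)) + ∑ y ∈ B.filter (d · ≤ s), d y ≤
      p * (A.filter (fun x => q ≤ dg G x B)).card + p * (B.filter (d · ≤ s)).card +
        s * (A.card + (B.filter (d · ≤ s)).card))
    (a' : ∀ X ⊆ B.filter (fun x => q ≤ dg G x A), ∀ Y ⊆ A,
      ed G X Y + ∑ y ∈ Y, d' y ≤ p * X.card + p * Y.card) :
    ((ed G A B : ℝ) + (∑ y ∈ B, d y : ℕ) + (q - p) * (A.filter (fun x => q ≤ dg G x B)).card ≤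
      q * A.card + p * B.card) ∧
    (μ * (ed G A B : ℝ) + (q - p - μ / 2) * (μ * B.card - (∑ y ∈ B, d y : ℕ)) +
      μ * (∑ y ∈ A, d' y : ℕ) ≤ μ * (p * (A.filter (fun x => q ≤ dg G x B)).card + q * B.card +
        p * A.card) + μ ^ 2 / 2 * A.card) := by
  constructor
  · have h1 := ed_split (G := G) A B (fun x => q ≤ dg G x B)
    have h2 := a _ subset_rfl B subset_rfl
    have h3 := ed_le (G := G) (A := A.filter fun x => ¬ q ≤ dg G x B) (B := B) (c := q)
      fun x hx => (not_le.1 (Finset.mem_filter.1 hx).2).le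
    have h4 := Finset.card_filter_add_card_filter_not (s := A) (fun x => q ≤ dg G x B)
    rw [← h4, h1]
    have h5 : ((ed G (A.filter fun x => q ≤ dg G x B) B + ∑ y ∈ B, d y : ℕ) : ℝ) ≤ _ :=
      Nat.cast_le.2 h2
    have h6 : ((ed G (A.filter fun x => ¬ q ≤ dg G x B) B : ℕ) : ℝ) ≤ _ := Nat.cast_le.2 h3
    simp only [Nat.cast_add, Nat.cast_mul] at h5 h6 ⊢
    linarith
  have key : ∀ s ∈ range μ, (ed G A B : ℝ) + (∑ y ∈ B, if d y ≤ s then (q - p : ℝ) - s + d y else 0) +
      (∑ y ∈ A, d' y : ℕ) ≤ (p * (A.filter (fun x => q ≤ dg G x B)).card + q * B.card +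
        p * A.card) + s * A.card := by
    intro s hs
    have h0 := b s (Finset.mem_range.1 hs)
    have h1 := ed_split (G := G) B A (d · ≤ s)
    have h2 := ed_split (G := G) (B.filter fun x => ¬ d x ≤ s) A (fun x => q ≤ dg G x A)
    have h3 := a' ((B.filter fun x => ¬ d x ≤ s).filter fun x => q ≤ dg G x A)
      (Finset.filter_subset_filter _ (Finset.filter_subset _ _)) A subset_rfl
    have h4 := ed_le (G := G) (A := (B.filter fun x => ¬ d x ≤ s).filter fun x => ¬ q ≤ dg G x A)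
      (B := A) (c := q) fun x hx => (not_le.1 (Finset.mem_filter.1 hx).2).le
    have h5 := Finset.card_filter_add_card_filter_not (s := B.filter fun x => ¬ d x ≤ s)
      (fun x => q ≤ dg G x A)
    have h6 := Finset.card_filter_add_card_filter_not (s := B) (d · ≤ s)
    have h7 := Nat.mul_le_mul_right
      ((B.filter fun x => ¬ d x ≤ s).filter fun x => q ≤ dg G x A).card hpq
    have h8 : ed G A B + ∑ y ∈ B.filter (d · ≤ s), d y + ∑ y ∈ A, d' y +
        q * (B.filter (d · ≤ s)).card ≤ p * (A.filter (fun x => q ≤ dg G x B)).card + q * B.card +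
        p * A.card + s * A.card + (p + s) * (B.filter (d · ≤ s)).card := by
      rw [ed_comm A B, h1, h2, ed_comm _ A, ← h6, ← h5]
      simp only [mul_add, add_mul] at h0 ⊢
      omega
    have h9 : (∑ y ∈ B, if d y ≤ s then (q - p : ℝ) - s + d y else 0) =
        (q - p - s) * (B.filter (d · ≤ s)).card + (∑ y ∈ B.filter (d · ≤ s), d y : ℕ) := by
      rw [← Finset.sum_filter, Finset.sum_add_distrib, sum_const, nsmul_eq_mul, Nat.cast_sum,
        mul_comm]
    have h10 := (Nat.cast_le (α := ℝ)).2 h8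
    simp only [Nat.cast_add, Nat.cast_mul] at h10
    rw [h9]
    linarith
  have h1 := Finset.sum_le_sum key
  simp only [Finset.sum_add_distrib, sum_const, card_range, nsmul_eq_mul, ← Finset.sum_mul] at h1
  rw [Finset.sum_comm] at h1
  have h2 := Finset.sum_le_sum (s := B) fun y _ => sum_level (q - p) (d y) μ (d1 y)
  rw [← Finset.sum_mul, Finset.sum_sub_distrib, sum_const, nsmul_eq_mul, ← Nat.cast_sum] at h2
  have h3 := mul_le_mul_of_nonneg_right (sum_range_le μ) (Nat.cast_nonneg (α := ℝ) A.card)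
  linarith

theorem arith_count {e N X h p p0 q μ a : ℝ} (hN : 0 ≤ N) (hX : 0 ≤ X) (hh : 0 ≤ h) (hμ : 0 ≤ μ)
    (h1 : μ ≤ p0) (h2 : p0 ≤ p) (h3 : p ≤ q) (h4 : p ≤ a) (h5 : 2 * p0 ≤ a)
    (h6 : (q - p + p0) ^ 2 ≤ a * (q - p + p0 + μ))
    (i1 : 2 * e + X + (q - p0) * h ≤ (q + p0) * N)
    (i2 : μ * (2 * e) + (q - p0 - μ / 2) * (μ * N - X) + μ * X ≤
      μ * (p0 * h + (q + p0) * N) + μ ^ 2 / 2 * N) : e ≤ a * N := by
  by_contra hne
  push Not at hne
  obtain ⟨m, hm⟩ : ∃ m, m = q + p0 - 2 * a := ⟨_, rfl⟩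
  obtain ⟨D, hD⟩ : ∃ D, D = a - p0 := ⟨_, rfl⟩
  have e1 : q - p0 = m + 2 * D := by rw [hm, hD]; ring
  have e2 : q + p0 = m + 2 * a := by rw [hm]; ring
  have hqh : 0 ≤ (q - p0) * h := mul_nonneg (by linarith) hh
  have j1 : X + (m + 2 * D) * h < m * N := by rw [← e1]; rw [e2] at i1; nlinarith
  have m0 : 0 < m := by
    by_contra c
    have : m * N ≤ 0 := mul_nonpos_of_nonpos_of_nonneg (not_lt.1 c) hN
    rw [← e1] at j1
    linarith
  have D1 : p0 ≤ D := by linarith
  have a0 : 0 ≤ a := by linarith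
  have k1 : m * m + a * m ≤ a * μ := by
    have : a + m ≤ q - p + p0 := by linarith
    nlinarith
  have a1 : 0 < a := by
    rcases a0.lt_or_eq with c | c
    · exact c
    · rw [← c] at k1; nlinarith
  have k2 : m < μ := by
    by_contra c
    nlinarith
  have k3 : m * m ≤ 2 * D * (μ - m) := by nlinarith
  have k4 : μ ^ 2 / 2 ≤ (m + 2 * D - μ / 2) * (μ - m) := by nlinarith
  have k5 : μ * p0 ≤ (m + 2 * D - 3 * μ / 2) * (m + 2 * D) := by nlinarith
  have k6 : 0 ≤ m + 2 * D - 3 * μ / 2 := by linarith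
  rw [e1, e2] at i2
  have k7 := mul_le_mul_of_nonneg_left j1.le k6
  have k8 := mul_le_mul_of_nonneg_right k4 hN
  have k9 := mul_le_mul_of_nonneg_right k5 hh
  have k10 := mul_lt_mul_of_pos_left hne (m0.trans k2)
  nlinarith

theorem count {A B : Finset V} {p p0 q μ a : ℕ} (h1 : μ ≤ p0) (h2 : p0 ≤ p) (h3 : p ≤ q)
    (h4 : p ≤ a) (h5 : 2 * p0 ≤ a) (h6 : (q - p + p0) ^ 2 ≤ a * (q - p + p0 + μ))
    (hA : ∀ s, s = 0 ∨ s < μ → ¬ Str G A B q p0 s) (hB : ∀ s, s = 0 ∨ s < μ → ¬ Str G B A q p0 s) :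
    ed G A B ≤ a * (A.card + B.card) := by
  obtain ⟨d, d1, d2, d3⟩ := orient h1 hA
  obtain ⟨d', d1', d2', d3'⟩ := orient h1 hB
  obtain ⟨i1, i2⟩ := orient_ineq (h2.trans h3) d1 d2 d3 d2'
  obtain ⟨j1, j2⟩ := orient_ineq (h2.trans h3) d1' d2' d3' d2
  rw [ed_comm B A] at j1 j2
  have h7 := (Nat.cast_le (α := ℝ)).2 h6
  simp only [Nat.cast_pow, Nat.cast_add, Nat.cast_mul, Nat.cast_sub h3] at h7
  have := arith_count (e := ed G A B) (N := A.card + B.card)
    (X := (∑ y ∈ B, d y : ℕ) + (∑ y ∈ A, d' y : ℕ))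
    (h := (A.filter (fun x => q ≤ dg G x B)).card + (B.filter (fun x => q ≤ dg G x A)).card)
    (p := p) (p0 := p0) (q := q) (μ := μ) (a := a) (by positivity) (by positivity) (by positivity)
    (by positivity) (by exact_mod_cast h1) (by exact_mod_cast h2) (by exact_mod_cast h3)
    (by exact_mod_cast h4) (by exact_mod_cast h5) h7 (by linarith) (by linarith)
  exact_mod_cast this

end count

section emb

variable {β : Type*} [Fintype β] [DecidableEq β] {T : SimpleGraph β} {col : β → Bool}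
  {r : β} {par : β → β} {ρ : β → ℕ} {V : Type*} [DecidableEq V] {G : SimpleGraph V}

theorem Rt.greedy (hR : Rt T r par ρ) (Z : β → Finset V) (ph : β → ℕ)
    (hph : ∀ v, ph (par v) ≤ ph v) (h0 : (Z r).Nonempty)
    (h : ∀ v, v ≠ r → ∀ z ∈ Z (par v),
      cnt (fun u => u ≠ v ∧ ph u ≤ ph v ∧ ¬ Disjoint (Z u) (Z v)) < dg G z (Z v)) : T ⊑ G := by
  classical
  have hr : ∀ v, ph r ≤ ph v := hR.ind le_rfl fun v _ ih => ih.trans (hph v)
  have key : ∀ n, ∀ U : Finset β, U.card = n → r ∈ U → (∀ v ∈ U, par v ∈ U) →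
      ∃ φ : β → V, Set.InjOn φ U ∧ (∀ v ∈ U, φ v ∈ Z v) ∧
        ∀ v ∈ U, v ≠ r → G.Adj (φ v) (φ (par v)) := by
    intro n
    induction n using Nat.strong_induction_on with
    | h n ih =>
      intro U hn hU hcl
      rcases (U.erase r).eq_empty_or_nonempty with e | hne
      · obtain ⟨z, hz⟩ := h0
        have : ∀ v ∈ U, v = r := fun v hv => by
          by_contra c
          exact Finset.notMem_empty v (e ▸ Finset.mem_erase.2 ⟨c, hv⟩)
        exact ⟨fun _ => z, fun u hu v hv _ => (this u hu).trans (this v hv).symm,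
          fun v hv => this v hv ▸ hz, fun v hv c => absurd (this v hv) c⟩
      obtain ⟨v, hv, hmax⟩ := Finset.exists_max_image (U.erase r)
        (fun u => toLex (ph u, ρ u)) hne
      obtain ⟨hvr, hvU⟩ := Finset.mem_erase.1 hv
      have hpv : ∀ u ∈ U, par u ≠ v := by
        intro u hu e
        by_cases c : u = r
        · rw [c, hR.root] at e; exact hvr e.symm
        have a1 := hmax u (Finset.mem_erase.2 ⟨c, hu⟩)
        have a2 := hph u
        have a3 := hR.lt u c
        rw [Prod.Lex.toLex_le_toLex] at a1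
        rw [e] at a2 a3
        simp only at a1
        omega
      obtain ⟨φ, f1, f2, f3⟩ := ih _ (hn ▸ Finset.card_erase_lt_of_mem hvU) (U.erase v) rfl
        (Finset.mem_erase.2 ⟨hvr.symm, hU⟩) fun u hu =>
          Finset.mem_erase.2 ⟨hpv u (Finset.mem_of_mem_erase hu), hcl u (Finset.mem_of_mem_erase hu)⟩
      have hp : par v ∈ U.erase v := Finset.mem_erase.2 ⟨hpv v hvU, hcl v hvU⟩
      have h1 := h v hvr _ (f2 _ hp)
      obtain ⟨z, hz, hz'⟩ : ∃ z ∈ (Z v).filter (G.Adj (φ (par v))), z ∉ (univ.filter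
          (fun u => u ≠ v ∧ ph u ≤ ph v ∧ ¬ Disjoint (Z u) (Z v))).image φ := by
        apply Finset.exists_mem_notMem_of_card_lt_card
        refine Finset.card_image_le.trans_lt (lt_of_eq_of_lt ?_ (lt_of_lt_of_eq h1 ?_))
        · unfold cnt; congr
        · unfold dg; congr
      obtain ⟨z1, z2⟩ := Finset.mem_filter.1 hz
      have fresh : ∀ u ∈ U.erase v, φ u ≠ z := by
        intro u hu e
        apply hz'
        refine Finset.mem_image.2 ⟨u, Finset.mem_filter.2 ⟨Finset.mem_univ _,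
          Finset.ne_of_mem_erase hu, ?_, Finset.not_disjoint_iff.2 ⟨z, e ▸ f2 u hu, z1⟩⟩, e⟩
        by_cases c : u = r
        · rw [c]; exact hr v
        have a1 := hmax u (Finset.mem_erase.2 ⟨c, Finset.mem_of_mem_erase hu⟩)
        rw [Prod.Lex.toLex_le_toLex] at a1
        simp only at a1
        omega
      refine ⟨Function.update φ v z, fun a ha b hb e => ?_, fun u hu => ?_, fun u hu c => ?_⟩
      · by_cases c1 : a = v <;> by_cases c2 : b = v
        · rw [c1, c2]
        · rw [c1, Function.update_self, Function.update_of_ne c2] at e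
          exact absurd e.symm (fresh b (Finset.mem_erase.2 ⟨c2, hb⟩))
        · rw [c2, Function.update_self, Function.update_of_ne c1] at e
          exact absurd e (fresh a (Finset.mem_erase.2 ⟨c1, ha⟩))
        · rw [Function.update_of_ne c1, Function.update_of_ne c2] at e
          exact f1 (Finset.mem_coe.2 (Finset.mem_erase.2 ⟨c1, ha⟩))
            (Finset.mem_coe.2 (Finset.mem_erase.2 ⟨c2, hb⟩)) e
      · by_cases c : u = v
        · rw [c, Function.update_self]; exact z1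
        · rw [Function.update_of_ne c]; exact f2 u (Finset.mem_erase.2 ⟨c, hu⟩)
      · rw [Function.update_of_ne (hpv u hu)]
        by_cases c' : u = v
        · rw [c', Function.update_self]; exact z2.symm
        · rw [Function.update_of_ne c']; exact f3 u (Finset.mem_erase.2 ⟨c', hu⟩) c
  obtain ⟨φ, f1, -, f3⟩ := key _ univ rfl (Finset.mem_univ _) fun _ _ => Finset.mem_univ _
  refine ⟨⟨⟨φ, fun {u v} huv => ?_⟩, fun u v e => f1 (by simp) (by simp) e⟩⟩
  rcases hR.edge u v huv with g | g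
  · rw [← g.2]; exact f3 u (Finset.mem_univ _) g.1
  · rw [← g.2]; exact (f3 v (Finset.mem_univ _) g.1).symm

theorem cnt_lt {P Q : β → Prop} {v : β} (hv : Q v) (h : ∀ u, P u → u ≠ v ∧ Q u) :
    cnt P < cnt Q := by
  classical
  unfold cnt
  apply Finset.card_lt_card
  refine ⟨fun u hu => by simpa using (h u (by simpa using hu)).2, fun c => ?_⟩
  have : v ∈ univ.filter P := c (by simpa using hv)
  exact (h v (by simpa using this)).1 rfl

theorem cnt_le_cnt {P Q : β → Prop} (g : β → β) (h : ∀ u, P u → ∃ c, Q c ∧ g c = u) :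
    cnt P ≤ cnt Q := by
  classical
  unfold cnt
  apply Finset.card_le_card_of_surjOn g
  intro u hu
  obtain ⟨c, h1, h2⟩ := h u (by simpa using hu)
  exact ⟨c, by simpa using h1, h2⟩

theorem cnt_le_range {P : β → Prop} (g : ℕ → β) (n : ℕ) (h : ∀ u, P u → ∃ i, i < n ∧ g i = u) :
    cnt P ≤ n := by
  classical
  unfold cnt
  rw [← Finset.card_range n]
  apply Finset.card_le_card_of_surjOn g
  intro u hu
  obtain ⟨c, h1, h2⟩ := h u (by simpa using hu)
  exact ⟨c, by simpa using h1, h2⟩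

theorem range_le_cnt {P : β → Prop} (g : ℕ → β) (n : ℕ) (h : ∀ i, i < n → P (g i))
    (h' : ∀ i j, i < n → j < n → g i = g j → i = j) : n ≤ cnt P := by
  classical
  unfold cnt
  conv_lhs => rw [← Finset.card_range n]
  exact Finset.card_le_card_of_injOn g (fun i hi => by simpa using h i (by simpa using hi))
    fun i hi j hj e => h' i j (by simpa using hi) (by simpa using hj) e

theorem Rt.col_par (hR : Rt T r par ρ) (hcol : Bip T col) {α : Bool} {v : β} (hv : v ≠ r) :
    col (par v) = α ↔ col v ≠ α := by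
  have := hcol _ _ (hR.adj v hv)
  revert this
  cases col v <;> cases col (par v) <;> cases α <;> simp

theorem Rt.emb_easy (hR : Rt T r par ρ) (hcol : Bip T col) {α : Bool} {A B : Finset V}
    (hAB : Disjoint A B) (hA : A.Nonempty) (hB : B.Nonempty)
    (h1 : ∀ x ∈ A, cnt (fun u => col u ≠ α) ≤ dg G x B)
    (h2 : ∀ y ∈ B, cnt (fun u => col u = α) ≤ dg G y A) : T ⊑ G := by
  refine hR.greedy (fun u => if col u = α then A else B) (fun _ => 0) (fun _ => le_rfl)
    (by split_ifs <;> assumption) fun v hv z hz => ?_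
  have c := hR.col_par hcol (α := α) hv
  by_cases e : col v = α
  · rw [if_neg (fun g => c.1 g e)] at hz
    rw [if_pos e]
    refine lt_of_lt_of_le (cnt_lt e fun u hu => ⟨hu.1, ?_⟩) (h2 z hz)
    by_contra g
    exact hu.2.2 (by rw [if_neg g]; exact hAB.symm)
  · rw [if_pos (c.2 e)] at hz
    rw [if_neg e]
    refine lt_of_lt_of_le (cnt_lt e fun u hu => ⟨hu.1, fun g => ?_⟩) (h1 z hz)
    exact hu.2.2 (by rw [if_pos g]; exact hAB)

theorem Rt.bare_cor (hR : Rt T r par ρ) {f : ℕ → β} {l : ℕ} (hf : Bare T f l) (h0 : f 0 = r) :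
    ∀ j, j ≤ l → Cor T par (f j) := by
  intro j hj
  induction hj using Nat.decreasingInduction with
  | self => exact hf.lst.cor
  | of_succ j hj ih => rw [← (hR.par_path hf.path h0 j (by omega)).2]; exact ih.up

theorem Rt.half_le (hR : Rt T r par ρ) (hcol : Bip T col) {f : ℕ → β} {l : ℕ} (hf : Bare T f l)
    (h0 : f 0 = r) (w : ℕ) (α : Bool) : l / 2 ≤ cnt (fun u => Near T par w u ∧ col u = α) := by
  obtain ⟨i, hi, hc⟩ : ∃ i, i ≤ 1 ∧ (i ≤ l → col (f i) = α) := by
    by_cases c : col (f 0) = α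
    · exact ⟨0, by omega, fun _ => c⟩
    · refine ⟨1, le_rfl, fun h => ?_⟩
      have := hcol _ _ (hf.path.adj 0 (by omega))
      revert this c
      cases col (f 0) <;> cases col (f (0 + 1)) <;> cases α <;> simp
  refine range_le_cnt (fun j => f (i + 2 * j)) _ (fun j hj => ⟨(hR.bare_cor hf h0 _
    (by omega)).near w, ?_⟩) fun a b ha hb e => ?_
  · rw [← hc (by omega)]
    exact (hf.path.side2 hcol (by omega) (by omega)).2 (by omega)
  · have := hf.path.inj _ _ (by omega) (by omega) e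
    omega

theorem exists_phase {U0 U1 U2 U3 : β → Prop} (u01 : ∀ v, U0 v → U1 v) (u12 : ∀ v, U1 v → U2 v)
    (u23 : ∀ v, U2 v → U3 v) : ∃ ph : β → ℕ, (∀ v, ph v ≤ 0 ↔ U0 v) ∧ (∀ v, ph v ≤ 1 ↔ U1 v) ∧
      (∀ v, ph v ≤ 2 ↔ U2 v) ∧ (∀ v, ph v ≤ 3 ↔ U3 v) ∧ ∀ v, ph v ≤ 4 := by
  classical
  refine ⟨fun v => if U0 v then 0 else if U1 v then 1 else if U2 v then 2 else if U3 v then 3
    else 4, ?_, ?_, ?_, ?_, ?_⟩ <;> intro v <;> have a1 := u01 v <;> have a2 := u12 v <;>
    have a3 := u23 v <;> clear u01 u12 u23 <;> beta_reduce <;> split_ifs <;>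
    first | omega | exact iff_of_true (by omega) (by tauto) | exact iff_of_false (by omega) (by tauto)

theorem Rt.emb (hR : Rt T r par ρ) (hcol : Bip T col) {α : Bool} {w : ℕ} (hw : 1 ≤ w)
    {f : ℕ → β} {l : ℕ} (hf : Bare T f l) (h0 : f 0 = r) {A B : Finset V} (hAB : Disjoint A B)
    {a : ℕ} (hA : ∀ x ∈ A, a ≤ dg G x B) (hB : ∀ y ∈ B, a ≤ dg G y A)
    (ha : cnt (fun u => col u = α) +
      cnt (fun v => (∀ c, c ≠ r → par c ≠ v) ∧ ¬ Near T par w (par v)) ≤ a) {s : ℕ}
    (hs : s = 0 ∨ s < l / 2)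
    (h : Str G A B (cnt fun u => col u ≠ α) (cnt fun u => Near T par w u ∧ col u = α) s) :
    T ⊑ G := by
  classical
  obtain ⟨X, Y, X1, Y1, ⟨c1, c2, c3, c4⟩, c5, c6, c7, c8, c9, c10⟩ := h
  have hr : Br T r := h0 ▸ hf.fst
  obtain ⟨i, hi⟩ : ∃ i : ℕ, (col r = α ∧ i = 1) ∨ (col r ≠ α ∧ i = 0) := by
    by_cases c : col r = α
    exacts [⟨1, Or.inl ⟨c, rfl⟩⟩, ⟨0, Or.inr ⟨c, rfl⟩⟩]
  have parity : ∀ j, j ≤ l → (col (f j) = α ↔ j % 2 ≠ i) := by
    intro j hj
    have := hf.path.side hcol j (by omega)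
    rw [h0] at this
    rcases hi with ⟨g, rfl⟩ | ⟨g, rfl⟩
    · rw [← g, this]; omega
    · rw [Ne, ← this]
      revert g
      cases col (f j) <;> cases col r <;> cases α <;> simp
  have i1 : i ≤ 1 := by omega
  have pp := hR.par_path hf.path h0
  set S : β → Prop := fun v => ∃ j, i ≤ j ∧ j ≤ i + 2 * s ∧ j ≤ l ∧ f j = v with hS
  set Ch : β → Prop := fun v => ∃ c, c ≠ r ∧ par c = v ∧ Near T par w c with hCh
  have Scor : ∀ v, S v → Cor T par v := by
    rintro v ⟨j, -, -, a, rfl⟩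
    exact hR.bare_cor hf h0 j a
  have corCh : ∀ v, Cor T par v → Ch v := by
    intro v hv
    obtain ⟨c, a1, a2⟩ := hR.exists_child hr hv
    exact ⟨c, a1, a2, Cor.near_child (a2 ▸ hv) hw⟩
  have Spar : ∀ v, v ≠ r → S v → (v = f i ∧ i ≤ l ∧ par v = r ∧ col r = α) ∨
      (v ≠ f i ∧ S (par v)) := by
    rintro v hv ⟨j, a1, a2, a3, rfl⟩
    obtain ⟨j, rfl⟩ : ∃ j', j = j' + 1 := ⟨j - 1, by
      have : j ≠ 0 := fun e => hv (e ▸ h0)
      omega⟩
    by_cases c : j + 1 = i
    · obtain rfl : j = 0 := by omega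
      refine Or.inl ⟨by rw [c], by omega, by rw [(pp 0 (by omega)).2, h0], ?_⟩
      rcases hi with g | g
      exacts [g.1, by omega]
    · exact Or.inr ⟨fun e => c (hf.path.inj _ _ (by omega) (by omega) e),
        j, by omega, by omega, by omega, (pp j (by omega)).2.symm⟩
  have Schild : ∀ v, v ≠ r → S (par v) → col (par v) = α → S v := by
    rintro v hv ⟨j, a1, a2, a3, e⟩ hc
    rw [← e, parity j a3] at hc
    have b1 : j + 1 ≤ l := by omega
    have b2 := pp j (by omega)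
    refine ⟨j + 1, by omega, by omega, b1, ?_⟩
    refine hR.child_uniq (hf.mid j (by omega) (by omega)) (fun g => ?_) b2.1 hv b2.2 e.symm
    have := hf.path.inj j 0 (by omega) (by omega) (g.trans h0.symm)
    omega
  have Sr : S r ↔ col r ≠ α := by
    constructor
    · rintro ⟨j, a1, a2, a3, e⟩ g
      have := hf.path.inj j 0 (by omega) (by omega) (e.trans h0.symm)
      rcases hi with g' | g'
      exacts [by omega, g'.1 g]
    · intro g
      rcases hi with g' | g'
      exacts [absurd g'.1 g, ⟨0, by omega, by omega, by omega, h0⟩]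
  have SP : cnt (fun u => S u ∧ col u = α) ≤ s := by
    apply cnt_le_range (fun j => f (i + 2 * j + 1))
    rintro u ⟨⟨j, a1, a2, a3, rfl⟩, hc⟩
    rw [parity j a3] at hc
    exact ⟨(j - i) / 2, by omega, by congr 1; omega⟩
  have SP' : s ≤ cnt (fun u => S u ∧ (Near T par w u ∧ col u = α)) := by
    refine range_le_cnt (fun j => f (i + 2 * j + 1)) _ (fun j hj => ?_) fun a b ha hb e => ?_
    · have : S (f (i + 2 * j + 1)) := ⟨_, by omega, by omega, by omega, rfl⟩
      exact ⟨this, (Scor _ this).near w, (parity _ (by omega)).2 (by omega)⟩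
    · have := hf.path.inj _ _ (by omega) (by omega) e
      omega
  have SQ : cnt (fun u => S u ∧ col u ≠ α) ≤ s + 1 := by
    apply cnt_le_range (fun j => f (i + 2 * j))
    rintro u ⟨⟨j, a1, a2, a3, rfl⟩, hc⟩
    rw [Ne, parity j a3] at hc
    exact ⟨(j - i) / 2, by omega, by congr 1; omega⟩
  have sp := cnt_split (fun u => Near T par w u ∧ col u = α) S
  set U0 : β → Prop := fun v => v = r ∨ (v = f i ∧ i ≤ l) with hU0
  set U1 : β → Prop := fun v => v = r ∨ S v with hU1
  set U2 : β → Prop := fun v => Near T par w v ∧ (col v = α ∨ Ch v) with hU2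
  set U3 : β → Prop := fun v => ¬ (col v ≠ α ∧ (∀ c, c ≠ r → par c ≠ v) ∧ Near T par w (par v))
    with hU3
  have u01 : ∀ v, U0 v → U1 v := by
    rintro v (g | ⟨rfl, g⟩)
    exacts [Or.inl g, Or.inr ⟨i, le_rfl, by omega, g, rfl⟩]
  have u12 : ∀ v, U1 v → U2 v := by
    intro v g
    have : Cor T par v := by
      rcases g with rfl | g
      exacts [hr.cor, Scor v g]
    exact ⟨this.near w, Or.inr (corCh v this)⟩
  have u23 : ∀ v, U2 v → U3 v := by
    rintro v ⟨-, g | ⟨c, a1, a2, -⟩⟩ ⟨b1, b2, -⟩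
    exacts [b1 g, b2 c a1 a2]
  obtain ⟨ph, p0, p1, p2, p3, p4⟩ := exists_phase u01 u12 u23
  set X0 := X.filter (fun x => 0 < dg G x Y1) with hX0
  set Z : β → Finset V := fun v => if col v = α then
    (if S v then X1 else if v = r then X0 else if Near T par w v then X else A) else
    (if S v then Y1 else if Ch v then Y else B) with hZ
  have X0X : X0 ⊆ X := Finset.filter_subset _ _
  have ZA : ∀ v, col v = α → Z v ⊆ A := by
    intro v e
    simp only [hZ, if_pos e]
    split_ifs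
    exacts [c5, X0X.trans c1, c1, subset_rfl]
  have ZB : ∀ v, col v ≠ α → Z v ⊆ B := by
    intro v e
    simp only [hZ, if_neg e]
    split_ifs
    exacts [c7.trans c2, c2, subset_rfl]
  have ZX : ∀ v, col v = α → ¬ S v → Near T par w v → Z v ⊆ X := by
    intro v e a1 a2
    simp only [hZ, if_pos e, if_neg a1, if_pos a2]
    split_ifs
    exacts [X0X, subset_rfl]
  have ZY : ∀ v, col v ≠ α → Ch v → Z v ⊆ Y := by
    intro v e a1
    simp only [hZ, if_neg e, if_pos a1]
    split_ifs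
    exacts [c7, subset_rfl]
  have same : ∀ u v, ¬ Disjoint (Z u) (Z v) → (col u = α ↔ col v = α) := by
    intro u v g
    by_contra c
    apply g
    by_cases e : col u = α
    · exact hAB.mono (ZA u e) (ZB v fun e' => c (iff_of_true e e'))
    · exact hAB.symm.mono (ZB u e) (ZA v (by by_contra e'; exact c (iff_of_false e e')))
  refine hR.greedy Z ph (fun v => ?_) ?_ fun v hv z hz => ?_
  · by_cases hv : v = r
    · rw [hv, hR.root]
    have a4 := p4 (par v)
    have a3 : ph (par v) ≤ 3 := (p3 _).2 fun g => g.2.1 v hv rfl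
    have a2 : ph v ≤ 2 → ph (par v) ≤ 2 := fun g =>
      (p2 _).2 ⟨((p2 v).1 g).1.up, Or.inr ⟨v, hv, rfl, ((p2 v).1 g).1⟩⟩
    have a1 : ph v ≤ 1 → ph (par v) ≤ 1 := fun g => (p1 _).2 (by
      rcases (p1 v).1 g with g | g
      · exact absurd g hv
      rcases Spar v hv g with g' | g'
      exacts [Or.inl g'.2.2.1, Or.inr g'.2])
    have a0 : ph v ≤ 0 → ph (par v) ≤ 0 := fun g => (p0 _).2 (by
      rcases (p0 v).1 g with g | g
      · exact absurd g hv
      rcases Spar v hv ⟨i, le_rfl, by omega, g.2, g.1.symm⟩ with g' | g'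
      exacts [Or.inl g'.2.2.1, absurd g.1 g'.1])
    omega
  · by_cases e : col r = α
    · have a1 : ¬ S r := fun g => Sr.1 g e
      simp only [hZ, if_pos e, if_neg a1, if_true]
      obtain ⟨y, hy⟩ := c8
      have a2 := c4 y (c7 hy)
      have a3 : cnt (fun _ : β => False) < cnt (fun u => ¬ S u ∧ (Near T par w u ∧ col u = α)) :=
        cnt_lt (v := r) ⟨a1, hr.cor.near w, e⟩ fun u hu => hu.elim
      obtain ⟨x, hx⟩ := Finset.card_pos.1 (show 0 < dg G y X by omega)
      obtain ⟨b1, b2⟩ := Finset.mem_filter.1 hx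
      exact ⟨x, Finset.mem_filter.2 ⟨b1, Finset.card_pos.2 ⟨y, Finset.mem_filter.2 ⟨hy, b2.symm⟩⟩⟩⟩
    · simp only [hZ, if_neg e, if_pos (Sr.2 e)]
      exact c8
  have cp := hR.col_par hcol (α := α) hv
  by_cases e : col v = α
  · have e' : col (par v) ≠ α := fun g => cp.1 g e
    by_cases s1 : S v
    · have s2 : S (par v) := by
        rcases Spar v hv s1 with g | g
        exacts [absurd (g.2.2.1 ▸ g.2.2.2) e', g.2]
      have zv : Z v = X1 := by simp only [hZ, if_pos e, if_pos s1]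
      simp only [hZ, if_neg e', if_pos s2] at hz
      refine lt_of_lt_of_le (cnt_lt (Q := fun u => S u ∧ col u = α) ⟨s1, e⟩
        fun u hu => ⟨hu.1, ?_, (same u v hu.2.2).2 e⟩) (SP.trans (zv ▸ c10 z hz))
      rcases (p1 u).1 (hu.2.1.trans ((p1 v).2 (Or.inr s1))) with g | g
      · by_contra g'
        apply hu.2.2
        rw [zv]
        exact c6.symm.mono_left (ZX u ((same u v hu.2.2).2 e) g' (g ▸ hr.cor.near w))
      · exact g
    by_cases s2 : Near T par w v
    · have zv : Z v = X := by simp only [hZ, if_pos e, if_neg s1, if_neg hv, if_pos s2]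
      have a1 := c4 z (ZY _ e' ⟨v, hv, rfl, s2⟩ hz)
      refine lt_of_lt_of_le (cnt_lt (Q := fun u => ¬ S u ∧ (Near T par w u ∧ col u = α))
        ⟨s1, s2, e⟩ fun u hu => ⟨hu.1, fun g => ?_,
          ((p2 u).1 (hu.2.1.trans ((p2 v).2 ⟨s2, Or.inl e⟩))).1, (same u v hu.2.2).2 e⟩)
        (by rw [zv]; omega)
      apply hu.2.2
      rw [zv]
      simp only [hZ, if_pos ((same u v hu.2.2).2 e), if_pos g]
      exact c6
    · have zv : Z v = A := by simp only [hZ, if_pos e, if_neg s1, if_neg hv, if_neg s2]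
      have a1 := hB z (ZB _ e' hz)
      exact lt_of_lt_of_le (cnt_lt (Q := fun u => col u = α) e
        fun u hu => ⟨hu.1, (same u v hu.2.2).2 e⟩) (by rw [zv]; omega)
  have e' := cp.2 e
  have sq : ∀ u, ¬ Disjoint (Z u) (Z v) → col u ≠ α := fun u g g' => e ((same u v g).1 g')
  by_cases s1 : S v
  · have zv : Z v = Y1 := by simp only [hZ, if_neg e, if_pos s1]
    rcases Spar v hv s1 with g | g
    · rw [g.2.2.1] at hz
      simp only [hZ, if_pos g.2.2.2, if_neg (fun c => Sr.1 c g.2.2.2), if_true] at hz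
      refine lt_of_le_of_lt (cnt_le_range f 0 fun u hu => ?_) (zv ▸ (Finset.mem_filter.1 hz).2)
      rcases (p0 u).1 (hu.2.1.trans ((p0 v).2 (Or.inr ⟨g.1, g.2.1⟩))) with g' | g'
      · exact absurd (g' ▸ g.2.2.2) (sq u hu.2.2)
      · exact absurd (g'.1.trans g.1.symm) hu.1
    · simp only [hZ, if_pos e', if_pos g.2] at hz
      refine lt_of_lt_of_le (cnt_lt (Q := fun u => S u ∧ col u ≠ α) ⟨s1, e⟩
        fun u hu => ⟨hu.1, ?_, sq u hu.2.2⟩) (SQ.trans (zv ▸ c9 z hz))
      rcases (p1 u).1 (hu.2.1.trans ((p1 v).2 (Or.inr s1))) with g' | g'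
      exacts [g' ▸ Sr.2 (g' ▸ sq u hu.2.2), g']
  have s3 : ¬ S (par v) := fun g => s1 (Schild v hv g e')
  by_cases s2 : Ch v
  · have zv : Z v = Y := by simp only [hZ, if_neg e, if_neg s1, if_pos s2]
    have n1 : Near T par w v := by
      obtain ⟨c, -, a2, a3⟩ := s2
      exact a2 ▸ a3.up
    have a1 := (c3 z (ZX _ e' s3 n1.up hz)).2
    refine lt_of_lt_of_le (cnt_lt (Q := fun u => Ch u ∧ col u ≠ α) ⟨s2, e⟩
      fun u hu => ⟨hu.1, ((p2 u).1 (hu.2.1.trans ((p2 v).2 ⟨n1, Or.inr s2⟩))).2.resolve_left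
        (sq u hu.2.2), sq u hu.2.2⟩) (le_trans (cnt_le_cnt par ?_) (zv ▸ a1))
    rintro u ⟨⟨c, b1, b2, b3⟩, b4⟩
    refine ⟨c, ⟨b3, ?_⟩, b2⟩
    by_contra g
    exact b4 (b2 ▸ (hR.col_par hcol b1).2 g)
  have zv : Z v = B := by simp only [hZ, if_neg e, if_neg s1, if_neg s2]
  by_cases s4 : U3 v
  · have a1 := hA z (ZA _ e' hz)
    refine lt_of_lt_of_le (cnt_lt (Q := fun u => U3 u ∧ col u ≠ α) ⟨s4, e⟩
      fun u hu => ⟨hu.1, (p3 u).1 (hu.2.1.trans ((p3 v).2 s4)), sq u hu.2.2⟩) ?_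
    have a2 := cnt_split (fun u => U3 u ∧ col u ≠ α) (fun u => ∀ c, c ≠ r → par c ≠ u)
    have a3 : cnt (fun u => (∀ c, c ≠ r → par c ≠ u) ∧ U3 u ∧ col u ≠ α) ≤
        cnt (fun v => (∀ c, c ≠ r → par c ≠ v) ∧ ¬ Near T par w (par v)) :=
      cnt_mono fun u hu => ⟨hu.1, fun g => hu.2.1 ⟨hu.2.2, hu.1, g⟩⟩
    have a4 : cnt (fun u => ¬ (∀ c, c ≠ r → par c ≠ u) ∧ U3 u ∧ col u ≠ α) ≤
        cnt (fun u => col u = α) := by
      apply cnt_le_cnt par
      rintro u ⟨b1, -, b4⟩
      push Not at b1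
      obtain ⟨c, b1, b2⟩ := b1
      refine ⟨c, ?_, b2⟩
      by_contra g
      exact b4 (b2 ▸ (hR.col_par hcol b1).2 g)
    rw [zv]
    omega
  · have a1 := (c3 z (ZX _ e' s3 (not_not.1 s4).2.2 hz)).1
    exact lt_of_lt_of_le (cnt_lt (Q := fun u => col u ≠ α) e
      fun u hu => ⟨hu.1, sq u hu.2.2⟩) (zv ▸ a1)

end emb

section fin

open Filter Topology
open scoped ENNReal

theorem exBip_le {n k a : ℕ} (T : SimpleGraph (Fin k))
    (h : ∀ (G : SimpleGraph (Fin n ⊕ Fin n)) (A B : Finset (Fin n ⊕ Fin n)), Disjoint A B →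
      T.Free G → (∀ x ∈ A, a ≤ dg G x B) → (∀ y ∈ B, a ≤ dg G y A) →
      ed G A B ≤ a * (A.card + B.card)) : exBip n T ≤ 2 * a * n := by
  classical
  apply csSup_le'
  rintro e ⟨G, h1, h2, rfl⟩
  set L : Finset (Fin n ⊕ Fin n) := univ.map Function.Embedding.inl with hL
  set R : Finset (Fin n ⊕ Fin n) := univ.map Function.Embedding.inr with hR
  have hd : Disjoint L R := by
    rw [Finset.disjoint_left]
    rintro (x | x) <;> simp [hL, hR]
  have h3 := peel (G := G) L R (fun _ => a) (fun _ => a) (by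
    intro X hX Y hY
    by_contra hne
    push Not at hne
    have := h G X Y (hd.mono hX hY) h2 (fun x hx => (hne.1 x hx).le) fun y hy => (hne.2.1 y hy).le
    have h4 := hne.2.2
    simp only [sum_const, smul_eq_mul] at h4
    rw [mul_add, mul_comm a, mul_comm a] at this
    omega) L subset_rfl R subset_rfl
  have h4 : G.edgeSet ⊆ (L.biUnion fun x => (R.filter (G.Adj x)).image fun y => s(x, y) :
      Finset _) := by
    intro e he
    induction e using Sym2.ind with
    | h u v =>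
      have a1 : G.Adj u v := he
      have a2 := h1 a1
      simp only [coe_biUnion, mem_coe, coe_image, coe_filter, Set.mem_iUnion, Set.mem_image,
        Set.mem_ofPred_eq]
      rcases u with u | u <;> rcases v with v | v
      · simp at a2
      · exact ⟨_, by simp [hL], _, ⟨by simp [hR], a1⟩, rfl⟩
      · exact ⟨_, by simp [hL], _, ⟨by simp [hR], a1.symm⟩, Sym2.eq_swap⟩
      · simp at a2
  have h5 := Set.ncard_le_ncard h4
  rw [Set.ncard_coe_finset] at h5
  have h6 : (L.biUnion fun x => (R.filter (G.Adj x)).image fun y => s(x, y)).card ≤ ed G L R :=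
    Finset.card_biUnion_le.trans (Finset.sum_le_sum fun x _ =>
      Finset.card_image_le.trans (le_of_eq (by unfold dg; congr)))
  simp only [sum_const, smul_eq_mul, hL, hR, card_map, card_univ, Fintype.card_fin] at h3
  nlinarith

theorem le_exBip {n k s : ℕ} {T : SimpleGraph (Fin k)} {col : Fin k → Bool} (hc : T.Connected)
    (hcol : Bip T col) (hbig : ∀ b, s < cnt (fun u => col u = b)) :
    2 * (s * (n - s)) ≤ exBip n T := by
  classical
  rcases le_or_gt n s with hn | hn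
  · rw [Nat.sub_eq_zero_of_le hn]; simp
  set r : Fin n → Fin n → Prop := fun i j => ((i : ℕ) < s ∧ s ≤ j) ∨ (s ≤ i ∧ (j : ℕ) < s) with hr
  have h0 : BddAbove {e : ℕ | ∃ G : SimpleGraph (Fin n ⊕ Fin n),
      G ≤ completeBipartiteGraph (Fin n) (Fin n) ∧ T.Free G ∧ G.edgeSet.ncard = e} := by
    refine ⟨Nat.card (Sym2 (Fin n ⊕ Fin n)), ?_⟩
    rintro e ⟨G, -, -, rfl⟩
    rw [← Set.ncard_univ]
    exact Set.ncard_le_ncard (Set.subset_univ _)
  have h1 : ((range s ×ˢ Ico s n) ∪ (Ico s n ×ˢ range s)).card ≤ (Gr r).edgeSet.ncard := by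
    rw [← Set.ncard_coe_finset]
    have hn0 : 0 < n := by omega
    apply Set.ncard_le_ncard_of_injOn (fun p : ℕ × ℕ =>
      s(Sum.inl ⟨p.1 % n, Nat.mod_lt _ hn0⟩, Sum.inr ⟨p.2 % n, Nat.mod_lt _ hn0⟩))
    · intro p hp
      simp only [coe_union, coe_product, coe_range, coe_Ico, Set.mem_union, Set.mem_prod,
        Set.mem_Iio, Set.mem_Ico] at hp
      refine Or.inl ⟨rfl, rfl, ?_⟩
      simp only [hr, Sum.elim_inl, Sum.elim_inr, id]
      rw [Nat.mod_eq_of_lt (by omega), Nat.mod_eq_of_lt (by omega)]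
      omega
    · intro p hp q hq h
      simp only [coe_union, coe_product, coe_range, coe_Ico, Set.mem_union, Set.mem_prod,
        Set.mem_Iio, Set.mem_Ico] at hp hq
      simp only [Sym2.eq, Sym2.rel_iff', Prod.mk.injEq, Sum.inl.injEq, Fin.mk.injEq,
        Sum.inr.injEq, Prod.swap_prod_mk, reduceCtorEq, and_self, or_false] at h
      rw [Nat.mod_eq_of_lt (by omega), Nat.mod_eq_of_lt (by omega), Nat.mod_eq_of_lt (by omega),
        Nat.mod_eq_of_lt (by omega)] at h
      exact Prod.ext h.1 h.2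
  rw [Finset.card_union_of_disjoint (by
    rw [Finset.disjoint_left]
    intro p h1 h2
    simp only [mem_product, mem_range, mem_Ico] at h1 h2
    omega)] at h1
  simp only [card_product, card_range, Nat.card_Ico] at h1
  rw [mul_comm (n - s) s, ← two_mul] at h1
  refine h1.trans (le_csSup h0 ⟨Gr r, ?_, ?_, rfl⟩)
  · intro u v h
    rcases u with u | u <;> rcases v with v | v <;> simp_all [Gr]
  rintro ⟨φ⟩
  have h : NEmb T r (fun u => (φ u).isLeft) (fun u => (φ u).elim id id) := by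
    refine ⟨fun u v h1 h2 => φ.injective ?_, fun u v h => φ.toHom.map_adj h⟩
    revert h1 h2
    change _ → _ → φ u = φ v
    rcases φ u with a | a <;> rcases φ v with b | b <;> simp
  obtain ⟨e, he⟩ := col_agree hc hcol h.bip
  obtain ⟨σ, hσ, inj, adj⟩ := h.sig
  obtain ⟨vl, hvl⟩ : ∃ vl : Fin k → ℕ, ∀ u, vl u = ((φ u).elim id id : Fin n) := ⟨_, fun _ => rfl⟩
  have hK := const_of_closed hc (fun u => (σ u = 1 ↔ vl u < s)) (by
    intro u v huv
    have := adj u v huv
    simp only [hr, ← hvl] at this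
    apply propext
    omega)
  obtain ⟨u0⟩ := hc.nonempty
  obtain ⟨γ, hγ⟩ : ∃ γ : Bool, (if xor e γ then 1 else 0) = 1 ↔ (σ u0 = 1 ↔ vl u0 < s) := by
    by_cases c : (σ u0 = 1 ↔ vl u0 < s)
    · exact ⟨!e, iff_of_true (by cases e <;> rfl) c⟩
    · exact ⟨e, iff_of_false (by cases e <;> decide) c⟩
  refine absurd (hbig γ) (not_lt.2 (cnt_le_of_inj _ vl 0 s (fun u hu => ?_) fun u v hu hv g => ?_))
  · rw [← hu, ← he, ← hσ, hK u0 u] at hγ
    omega
  · exact inj _ _ (by rw [hσ, hσ, he, he, hu, hv]) (Fin.ext (by rw [← hvl, ← hvl, g]))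

theorem freq_two {k κ s : ℕ} {T : SimpleGraph (Fin k)} (hκ : κ ≤ 2 * s)
    (h : ∀ n, s + k < n → 2 * (s * (n - s - k)) ≤ exConnBip n T) :
    ∃ K, ∃ᶠ n in atTop, κ * n ≤ exConnBip n T + K := by
  refine ⟨κ * (s + k), Eventually.frequently ?_⟩
  filter_upwards [eventually_ge_atTop (s + k + 1)] with n hn
  have := h n hn
  obtain ⟨d, rfl⟩ : ∃ d, n = d + k + s := ⟨n - s - k, by omega⟩
  rw [show d + k + s - s - k = d by omega] at this
  nlinarith

theorem ratio_count {k w : ℕ} {T : SimpleGraph (Fin k)} (hT : T.IsTree) (hw : 1 ≤ w)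
    (hk : 10 ≤ k) : ∃ a, k ≤ 4 * a ∧ (∀ n, exBip n T ≤ 2 * (a + k / (w + 1) + 3) * n) ∧
      ∃ K, ∃ᶠ n in atTop, (a - (4 * w + 20)) * n ≤ exConnBip n T + K := by
  classical
  obtain ⟨col, hcol⟩ := exists_col hT
  have hc := hT.connected
  have hsw : ∀ α u, col u = (!α) ↔ col u ≠ α := by
    intro α u; cases col u <;> cases α <;> simp
  obtain ⟨α, hpq⟩ : ∃ α, cnt (fun u => col u = α) ≤ cnt (fun u => col u ≠ α) := by
    rcases le_total (cnt (fun u => col u = true)) (cnt (fun u => col u = false)) with c | c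
    · exact ⟨true, by simpa using c⟩
    · exact ⟨false, by simpa using c⟩
  have hsum : cnt (fun u => col u = α) + cnt (fun u => col u ≠ α) = k := by
    have := cnt_split (fun _ : Fin k => True) (fun u => col u = α)
    simp only [and_true] at this
    rw [← this]
    simp [cnt]
  have triv : ∀ κ, κ = 0 → ∃ K, ∃ᶠ n in atTop, κ * n ≤ exConnBip n T + K := fun κ h =>
    ⟨0, Eventually.frequently (Eventually.of_forall fun n => by simp [h])⟩
  have lowp : ∀ κ, κ ≤ cnt (fun u => col u = α) - 6 →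
      ∃ K, ∃ᶠ n in atTop, κ * n ≤ exConnBip n T + K := by
    intro κ hκ
    by_cases c : κ = 0
    · exact triv κ c
    refine freq_two (s := (cnt (fun u => col u = α) - 5) / 2) (by omega) fun n hn =>
      host_two hc hcol (by omega) (fun b => ?_) hn
    by_cases e : b = α
    · rw [e]; omega
    · rw [Bool.eq_not.2 e]
      simp only [hsw]
      omega
  by_cases hbr : ∃ r, Br T r
  swap
  · push Not at hbr
    have b1 := balance' hc hcol (fun _ => True) ∅ (fun u _ => not_lt.1 (hbr u))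
      (fun _ _ _ h => absurd trivial h) (!α)
    simp only [true_and, hsw, ne_eq, not_not, card_empty] at b1
    refine ⟨cnt (fun u => col u = α), by simp only [ne_eq] at hsum; omega, fun n => ?_,
      lowp _ (by omega)⟩
    obtain ⟨r⟩ := hc.nonempty
    obtain ⟨par, ρ, hR⟩ := exists_rt hT r
    refine exBip_le T fun G A B hAB hf hA hB => ?_
    rcases A.eq_empty_or_nonempty with rfl | hA0
    · simp [ed]
    rcases B.eq_empty_or_nonempty with rfl | hB0
    · simp [ed, dg]
    refine absurd (hR.emb_easy hcol (α := α) hAB hA0 hB0 (fun x hx => le_trans ?_ (hA x hx))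
      fun y hy => le_trans ?_ (hB y hy)) hf
    · exact b1.trans (by generalize k / (w + 1) = j; omega)
    · generalize k / (w + 1) = j; omega
  obtain ⟨l, ⟨f, hf⟩, hmax⟩ : ∃ l, (∃ f, Bare T f l) ∧ ∀ g n, Bare T g n → n ≤ l := by
    obtain ⟨r, hr⟩ := hbr
    have h0 : ∃ f, Bare T f 0 := ⟨fun _ => r, ⟨isPath_single r, hr, hr, fun j a b => by omega⟩⟩
    refine ⟨Nat.findGreatest (fun l => ∃ f, Bare T f l) k,
      Nat.findGreatest_spec (P := fun l => ∃ f, Bare T f l) (Nat.zero_le k) h0,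
      fun g n h => Nat.le_findGreatest ?_ ⟨g, h⟩⟩
    have := h.lt_card
    rw [Fintype.card_fin] at this
    omega
  obtain ⟨par, ρ, hR⟩ := exists_rt hT (f 0)
  have hr := hf.fst
  have hμ := hR.half_le hcol hf rfl w α
  have hL := hR.far_count hr w
  rw [Fintype.card_fin, ← Nat.le_div_iff_mul_le (by omega)] at hL
  have hp0 : cnt (fun u => Near T par w u ∧ col u = α) ≤ cnt (fun u => col u = α) :=
    cnt_mono fun u h => h.2
  have emb := fun (n : ℕ) (G : SimpleGraph (Fin n ⊕ Fin n)) A B hAB a hA hB ha s hs h =>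
    hR.emb (G := G) (A := A) (B := B) (a := a) (s := s) (α := α) hcol hw hf rfl hAB hA hB ha hs h
  have hlong := fun n s => host_long (n := n) (s := s) hR hr hc hcol w hpq
  have hchain := fun s hs => host_chain (s := s) (l := l / 2 + 1) hR hr hc hcol w (α := α) hs
    (fun g n h => by have := hmax g n h; omega)
  generalize cnt (fun u => Near T par w u ∧ col u = α) = p0 at *
  generalize cnt (fun u => col u = α) = p at *
  generalize cnt (fun u => col u ≠ α) = q at *
  generalize l / 2 = μ at *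
  obtain ⟨q0, hq0⟩ : ∃ q0, q0 = q - p + p0 := ⟨_, rfl⟩
  have hex : ∃ a, p ≤ a ∧ 2 * p0 ≤ a ∧ q0 ^ 2 ≤ a * (q0 + μ) :=
    ⟨p + 2 * p0 + q0, by omega, by omega, by nlinarith⟩
  obtain ⟨a1, a2, a3⟩ := Nat.find_spec hex
  have a4 := fun m => Nat.find_min hex (m := m)
  generalize Nat.find hex = a at *
  refine ⟨a, ?_, fun n => ?_, ?_⟩
  · have : q0 ≤ 2 * a := by
      by_contra c
      have : μ ≤ q0 := by omega
      nlinarith
    omega
  · refine exBip_le T fun G A B hAB hfr hA hB => count hμ hp0 hpq (by omega) (by omega) ?_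
      (fun s hs h => hfr (emb n G A B hAB _ hA hB (by omega) s hs h))
      fun s hs h => hfr (emb n G B A hAB.symm _ hB hA (by omega) s hs h)
    rw [← hq0]
    exact a3.trans (Nat.mul_le_mul_right _ (by omega))
  by_cases c0 : a - (4 * w + 20) = 0
  · exact triv _ c0
  by_cases c1 : a ≤ p
  · exact lowp _ (by omega)
  by_cases c2 : a ≤ 2 * p0
  · exact freq_two (s := p0 - (2 * w + 9)) (by omega) fun n hn =>
      hlong n _ (by omega) (by omega) hn
  have c3 : (a - 1) * (q0 + μ) < q0 ^ 2 := by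
    by_contra c
    exact a4 (a - 1) (by omega) ⟨by omega, by omega, not_lt.1 c⟩
  obtain ⟨κ, rfl⟩ : ∃ κ, a = κ + (4 * w + 20) := ⟨a - (4 * w + 20), by omega⟩
  rw [Nat.add_sub_cancel]
  rw [show κ + (4 * w + 20) - 1 = κ + 1 + 2 * (2 * w + 9) by omega] at c3
  obtain ⟨s, rfl⟩ : ∃ s, q0 = s + 1 + (2 * w + 9) := ⟨q0 - 1 - (2 * w + 9), by
    have : κ + 1 + 2 * (2 * w + 9) < q0 := by
      by_contra c
      nlinarith
    omega⟩
  have c4 : κ * (s + 1 + (μ + 1)) ≤ (s + 1) * (s + 1) := by nlinarith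
  refine ⟨0, frequently_atTop.2 fun M => ⟨(M + 1) * (s + 1 + (μ + 1)), by nlinarith, ?_⟩⟩
  have c5 := hchain (s + 1) (by omega) (by omega) M
  have c6 := Nat.mul_le_mul_left (M + 1) c4
  nlinarith

theorem ratio_lower {k : ℕ} {T : SimpleGraph (Fin k)} (hT : T.IsTree) (hk : 10 ≤ k) :
    ENNReal.ofReal (1 / 2 - 60 / (Nat.sqrt k : ℝ)) ≤ gammaRatio T := by
  have hw : 1 ≤ Nat.sqrt k := Nat.le_sqrt.2 (by omega)
  have w1 := Nat.sqrt_le k
  have w2 : k / (Nat.sqrt k + 1) ≤ Nat.sqrt k :=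
    Nat.lt_succ_iff.1 ((Nat.div_lt_iff_lt_mul (by omega)).2 (Nat.lt_succ_sqrt k))
  obtain ⟨a, h1, h2, K, hK⟩ := ratio_count hT hw hk
  generalize Nat.sqrt k = w at *
  unfold gammaRatio
  apply le_limsup_of_frequently_le'
  refine (hK.and_eventually (eventually_ge_atTop (K + 1))).mono ?_
  rintro n ⟨h3, h4⟩
  have h5 : (a - (4 * w + 21)) * n ≤ exConnBip n T := by
    rcases Nat.eq_zero_or_pos (a - (4 * w + 21)) with c | c
    · simp [c]
    · rw [show a - (4 * w + 20) = a - (4 * w + 21) + 1 by omega] at h3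
      nlinarith
  have h6 : exBip n T ≤ 2 * (a + w + 3) * n :=
    (h2 n).trans (Nat.mul_le_mul_right _ (by omega))
  refine le_trans ?_ (ENNReal.div_le_div (Nat.cast_le.2 h5) (Nat.cast_le.2 h6))
  rw [ennreal_div_nat _ _ (Nat.mul_pos (by omega) (by omega))]
  apply ENNReal.ofReal_le_ofReal
  have hn0 : (0 : ℝ) < n := by exact_mod_cast (by omega : 0 < n)
  have hw0 : (1 : ℝ) ≤ w := by exact_mod_cast hw
  have h7 : (a : ℝ) ≤ (a - (4 * w + 21) : ℕ) + (4 * w + 21) := by
    exact_mod_cast (by omega : a ≤ a - (4 * w + 21) + (4 * w + 21))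
  have h8 : (w : ℝ) * w ≤ 4 * a := by exact_mod_cast w1.trans h1
  rw [Nat.cast_mul, Nat.cast_mul, mul_div_mul_right _ _ hn0.ne', le_div_iff₀ (by positivity)]
  have h9 : (5 * w + 24 : ℝ) ≤ 60 / w * (2 * (a + w + 3)) := by
    rw [div_mul_eq_mul_div, le_div_iff₀ (by positivity)]
    nlinarith
  push_cast
  linarith

theorem ratio_upper {m : ℕ} (hm : 4 ≤ m) :
    gammaRatio (broom m) ≤ ENNReal.ofReal (1 / 2 + 15 / (m : ℝ)) := by
  have hT := broom_isTree (m := m) (by omega)
  obtain ⟨col, hcol⟩ := exists_col hT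
  have hbig : ∀ b, m - 1 < cnt (fun u => col u = b) := by
    intro b
    have := le_cnt_of_surj (fun u => col u = b) (fun u => (u : ℕ) / 2) m (by
      intro i hi
      have := hcol ⟨2 * i + 1, by omega⟩ ⟨2 * i, by omega⟩
        ⟨by simp, Or.inl (by simp only [bpar]; rw [if_pos (by omega)]; rfl)⟩
      by_cases c : col ⟨2 * i, by omega⟩ = b
      · exact ⟨_, c, by simp⟩
      · refine ⟨⟨2 * i + 1, by omega⟩, ?_, by simp only; omega⟩
        rw [Bool.eq_not.2 this, Bool.eq_not.2 c, Bool.not_not])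
    omega
  unfold gammaRatio
  apply limsup_le_of_le
  · isBoundedDefault
  filter_upwards [eventually_ge_atTop (K1 m + 1), eventually_ge_atTop (m * m)] with n hn hn'
  have h3 : exConnBip n (broom m) ≤ (m + 13) * n := by
    have := exConn_broom (m := m) (by omega) n
    nlinarith
  have h4 : 2 * (m - 2) * n ≤ exBip n (broom m) := by
    refine le_trans ?_ (le_exBip hT.connected hcol hbig)
    obtain ⟨j, rfl⟩ : ∃ j, m = j + 2 := ⟨m - 2, by omega⟩
    obtain ⟨d, rfl⟩ : ∃ d, n = d + (j + 1) := ⟨n - (j + 1), by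
      have : j + 1 ≤ n := by nlinarith
      omega⟩
    rw [show j + 2 - 1 = j + 1 by omega, Nat.add_sub_cancel, Nat.add_sub_cancel]
    nlinarith
  refine (ENNReal.div_le_div (Nat.cast_le.2 h3) (Nat.cast_le.2 h4)).trans ?_
  rw [ennreal_div_nat _ _ (Nat.mul_pos (by omega) (by omega))]
  apply ENNReal.ofReal_le_ofReal
  have hn0 : (0 : ℝ) < n := by exact_mod_cast (by omega : 0 < n)
  have hm4 : (4 : ℝ) ≤ m := by exact_mod_cast hm
  rw [Nat.cast_mul, Nat.cast_mul, mul_div_mul_right _ _ hn0.ne', Nat.cast_mul,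
    Nat.cast_sub (by omega), div_le_iff₀ (by push_cast; linarith)]
  have h9 : (15 : ℝ) ≤ 15 / m * (2 * (m - 2)) := by
    rw [div_mul_eq_mul_div, le_div_iff₀ (by positivity)]
    nlinarith
  push_cast
  linarith

theorem ratio_main : Tendsto (fun k : ℕ => ⨅ (m : ℕ) (_ : k ≤ m) (T : SimpleGraph (Fin m))
    (_ : T.IsTree), gammaRatio T) atTop (𝓝 (1 / 2)) := by
  have e : (1 / 2 : ℝ≥0∞) = ENNReal.ofReal (1 / 2) := by
    rw [ENNReal.ofReal_div_of_pos (by norm_num)]; simp
  have hs : Tendsto Nat.sqrt atTop atTop :=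
    tendsto_atTop.2 fun b => (eventually_ge_atTop (b * b)).mono fun k hk => Nat.le_sqrt.2 hk
  have t1 : Tendsto (fun k : ℕ => ENNReal.ofReal (1 / 2 - 60 / (Nat.sqrt k : ℝ))) atTop
      (𝓝 (1 / 2)) := by
    rw [e]
    apply ENNReal.tendsto_ofReal
    have := ((tendsto_const_div_atTop_nhds_zero_nat (60 : ℝ)).comp hs).const_sub (1 / 2)
    rwa [sub_zero] at this
  have t2 : Tendsto (fun k : ℕ => ENNReal.ofReal (1 / 2 + 15 / (k : ℝ))) atTop (𝓝 (1 / 2)) := by
    rw [e]
    apply ENNReal.tendsto_ofReal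
    have := (tendsto_const_div_atTop_nhds_zero_nat (15 : ℝ)).const_add (1 / 2)
    rwa [add_zero] at this
  refine tendsto_of_tendsto_of_tendsto_of_le_of_le' t1 t2 ?_ ?_
  · filter_upwards [eventually_ge_atTop 10] with k hk
    refine le_iInf fun m => le_iInf fun hm => le_iInf fun T => le_iInf fun hT => ?_
    refine le_trans ?_ (ratio_lower hT (by omega))
    apply ENNReal.ofReal_le_ofReal
    have h1 : (0 : ℝ) < Nat.sqrt k := by
      exact_mod_cast (Nat.le_sqrt.2 (by omega) : 1 ≤ Nat.sqrt k)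
    have h2 : (Nat.sqrt k : ℝ) ≤ Nat.sqrt m := by exact_mod_cast Nat.sqrt_le_sqrt hm
    gcongr
  · filter_upwards [eventually_ge_atTop 4] with k hk
    refine le_trans ?_ (ratio_upper hk)
    exact iInf_le_of_le (3 * k) (iInf_le_of_le (by omega) (iInf_le_of_le (broom k)
      (iInf_le_of_le (broom_isTree (by omega)) le_rfl)))

end fin

end Pool.Agent.Lib.MP_95bdb0_co
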