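import Mathlib

-- part Pool.Agent.Lib.MP_95bdb0_co.Paths
section

/-!
Paths as functions on an initial segment of the natural numbers, with the basic surgery
operations (re-indexing, appending, rotating), parity facts and geodesics.
-/

set_option linter.unusedVariables false

namespace Pool.Agent.Lib.MP_95bdb0_co

open Finset

variable {V : Type*}

/-- `f 0, ..., f (n-1)` is a path of `G`. -/
structure IsPath (G : SimpleGraph V) (f : ℕ → V) (n : ℕ) : Prop where
  inj : ∀ i j, i < n → j < n → f i = f j → i = j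
  adj : ∀ i, i + 1 < n → G.Adj (f i) (f (i + 1))

/-- `x` is not among `f 0, ..., f (n-1)`. -/
def Off (f : ℕ → V) (n : ℕ) (x : V) : Prop := ∀ i, i < n → f i ≠ x

variable {G H : SimpleGraph V} {f g : ℕ → V} {n k : ℕ}

theorem IsPath.mono (h : IsPath G f n) (hGH : G ≤ H) : IsPath H f n :=
  ⟨h.inj, fun i hi => hGH (h.adj i hi)⟩

theorem IsPath.trunc (h : IsPath G f n) (hk : k ≤ n) : IsPath G f k :=
  ⟨fun i j hi hj => h.inj i j (by omega) (by omega), fun i hi => h.adj i (by omega)⟩

theorem IsPath.adj' (h : IsPath G f n) {i j : ℕ} (hi : i < n) (hj : j < n)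
    (hij : j = i + 1 ∨ i = j + 1) : G.Adj (f i) (f j) := by
  rcases hij with rfl | rfl
  · exact h.adj i hj
  · exact (h.adj j hi).symm

theorem IsPath.reindex (h : IsPath G f n) (φ : ℕ → ℕ) (k : ℕ) (hlt : ∀ i, i < k → φ i < n)
    (hinj : ∀ i j, i < k → j < k → φ i = φ j → i = j)
    (hadj : ∀ i, i + 1 < k → G.Adj (f (φ i)) (f (φ (i + 1)))) :
    IsPath G (fun i => f (φ i)) k :=
  ⟨fun i j hi hj e => hinj i j hi hj (h.inj _ _ (hlt i hi) (hlt j hj) e), hadj⟩

/-- Concatenation of two finite sequences. -/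
def cat (f : ℕ → V) (n : ℕ) (g : ℕ → V) : ℕ → V := fun i => if i < n then f i else g (i - n)

theorem cat_lt {i : ℕ} (h : i < n) : cat f n g i = f i := by simp [cat, h]

theorem cat_ge {i : ℕ} (h : n ≤ i) : cat f n g i = g (i - n) := by
  simp [cat, Nat.not_lt.2 h]

theorem IsPath.cat (hf : IsPath G f n) (hg : IsPath G g k)
    (hd : ∀ i j, i < n → j < k → f i ≠ g j) (hadj : 0 < n → 0 < k → G.Adj (f (n - 1)) (g 0)) :
    IsPath G (cat f n g) (n + k) := by
  constructor
  · intro i j hi hj e
    by_cases h1 : i < n <;> by_cases h2 : j < n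
    · rw [cat_lt h1, cat_lt h2] at e; exact hf.inj _ _ h1 h2 e
    · rw [cat_lt h1, cat_ge (by omega)] at e; exact absurd e (hd _ _ h1 (by omega))
    · rw [cat_lt h2, cat_ge (by omega)] at e; exact absurd e.symm (hd _ _ h2 (by omega))
    · rw [cat_ge (by omega), cat_ge (by omega)] at e
      have := hg.inj _ _ (by omega) (by omega) e
      omega
  · intro i hi
    by_cases h1 : i + 1 < n
    · rw [cat_lt h1, cat_lt (by omega)]; exact hf.adj i h1
    · by_cases h2 : i < n
      · rw [cat_lt h2, cat_ge (by omega)]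
        have e1 : i = n - 1 := by omega
        have e2 : i + 1 - n = 0 := by omega
        rw [e2, e1]; exact hadj (by omega) (by omega)
      · rw [cat_ge (by omega), cat_ge (by omega)]
        have e2 : i + 1 - n = (i - n) + 1 := by omega
        rw [e2]; exact hg.adj _ (by omega)

theorem isPath_single (x : V) : IsPath G (fun _ => x) 1 :=
  ⟨fun i j hi hj _ => by omega, fun i hi => by omega⟩

/-- Appending one vertex. -/
theorem IsPath.snoc (hf : IsPath G f n) {x : V} (hx : Off f n x)
    (hadj : 0 < n → G.Adj (f (n - 1)) x) : IsPath G (Pool.Agent.Lib.MP_95bdb0_co.cat f n (fun _ => x)) (n + 1) :=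
  hf.cat (isPath_single x) (fun i _ hi _ => hx i hi) (fun h _ => hadj h)

/-- The index map of a rotation at `t` of a path with `n` vertices. -/
def rotI (n t : ℕ) : ℕ → ℕ := fun i => if i ≤ t then i else n + t - i

theorem IsPath.rot (hf : IsPath G f n) {t : ℕ} (ht : t < n) (hadj : G.Adj (f (n - 1)) (f t)) :
    IsPath G (fun i => f (rotI n t i)) n := by
  refine hf.reindex _ n ?_ ?_ ?_
  · intro i hi; unfold rotI; split_ifs <;> omega
  · intro i j hi hj; unfold rotI; split_ifs <;> omega
  · intro i hi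
    by_cases h : i = t
    · subst h
      have e1 : rotI n i i = i := by simp [rotI]
      have e2 : rotI n i (i + 1) = n - 1 := by unfold rotI; split_ifs <;> omega
      rw [e1, e2]; exact hadj.symm
    · apply hf.adj'
      · unfold rotI; split_ifs <;> omega
      · unfold rotI; split_ifs <;> omega
      · unfold rotI; split_ifs <;> omega

theorem rotI_surj {n t j : ℕ} (ht : t < n) (hj : j < n) : ∃ i, i < n ∧ rotI n t i = j := by
  by_cases h : j ≤ t
  · exact ⟨j, hj, by simp [rotI, h]⟩
  · refine ⟨n + t - j, by omega, ?_⟩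
    unfold rotI; split_ifs <;> omega

theorem rotI_lt {n t i : ℕ} (ht : t < n) (hi : i < n) : rotI n t i < n := by
  unfold rotI; split_ifs <;> omega

/-- Reversal. -/
theorem IsPath.rev (hf : IsPath G f n) : IsPath G (fun i => f (n - 1 - i)) n := by
  refine hf.reindex _ n ?_ ?_ ?_
  · intro i hi; omega
  · intro i j hi hj; omega
  · intro i hi; apply hf.adj' <;> omega

/-- Dropping an initial segment. -/
theorem IsPath.drop (hf : IsPath G f n) (t : ℕ) : IsPath G (fun i => f (t + i)) (n - t) := by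
  refine hf.reindex _ _ ?_ ?_ ?_
  · intro i hi; omega
  · intro i j hi hj; omega
  · intro i hi; apply hf.adj' <;> omega

/-- The index map of a cyclic shift. -/
def shiftI (n t : ℕ) : ℕ → ℕ := fun i => if t + i < n then t + i else t + i - n

theorem shiftI_lt {n t i : ℕ} (ht : t ≤ n) (hi : i < n) : shiftI n t i < n := by
  unfold shiftI; split_ifs <;> omega

theorem shiftI_surj {n t j : ℕ} (ht : t ≤ n) (hj : j < n) : ∃ i, i < n ∧ shiftI n t i = j := by
  by_cases h : t ≤ j
  · refine ⟨j - t, by omega, ?_⟩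
    unfold shiftI; split_ifs <;> omega
  · refine ⟨n + j - t, by omega, ?_⟩
    unfold shiftI; split_ifs <;> omega

theorem IsPath.shift (hf : IsPath G f n) (hc : G.Adj (f (n - 1)) (f 0)) {t : ℕ} (ht : t ≤ n) :
    IsPath G (fun i => f (shiftI n t i)) n ∧
      G.Adj (f (shiftI n t (n - 1))) (f (shiftI n t 0)) := by
  have key : ∀ i j, i < n → j < n → (j = i + 1 ∨ (i = n - 1 ∧ j = 0)) → G.Adj (f i) (f j) := by
    intro i j hi hj h
    rcases h with h | ⟨rfl, rfl⟩
    · exact hf.adj' hi hj (Or.inl h)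
    · exact hc
  rcases Nat.eq_zero_or_pos n with rfl | hn
  · exact absurd hc (by simp)
  refine ⟨hf.reindex _ n ?_ ?_ ?_, ?_⟩
  · intro i hi; exact shiftI_lt ht hi
  · intro i j hi hj; unfold shiftI; split_ifs <;> omega
  · intro i hi
    apply key
    · exact shiftI_lt ht (by omega)
    · exact shiftI_lt ht (by omega)
    · unfold shiftI; split_ifs <;> omega
  · apply key
    · exact shiftI_lt ht (by omega)
    · exact shiftI_lt ht (by omega)
    · unfold shiftI; split_ifs <;> omega

/-- `s` is a proper two-colouring of `G`. -/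
def Bip (G : SimpleGraph V) (s : V → Bool) : Prop := ∀ u v, G.Adj u v → s u ≠ s v

theorem Bip.mono {s : V → Bool} (h : Bip H s) (hGH : G ≤ H) : Bip G s :=
  fun u v e => h u v (hGH e)

theorem IsPath.side {s : V → Bool} (hs : Bip G s) (hf : IsPath G f n) :
    ∀ i, i < n → (s (f i) = s (f 0) ↔ i % 2 = 0) := by
  intro i
  induction i with
  | zero => intro _; simp
  | succ i ih =>
    intro hi
    have h1 := ih (by omega)
    have h2 := hs _ _ (hf.adj i hi)
    have h3 : (i + 1) % 2 = 0 ↔ ¬ i % 2 = 0 := by omega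
    rw [h3, ← h1]
    revert h2
    cases s (f i) <;> cases s (f (i + 1)) <;> cases s (f 0) <;> simp

theorem IsPath.side2 {s : V → Bool} (hs : Bip G s) (hf : IsPath G f n) {i j : ℕ} (hi : i < n)
    (hj : j < n) : s (f i) = s (f j) ↔ i % 2 = j % 2 := by
  have h1 := hf.side hs i hi
  have h2 := hf.side hs j hj
  have h3 : i % 2 = j % 2 ↔ (i % 2 = 0 ↔ j % 2 = 0) := by omega
  rw [h3, ← h1, ← h2]
  cases s (f i) <;> cases s (f j) <;> cases s (f 0) <;> simp

theorem card_le_half {A : Finset ℕ} {lo N e : ℕ} (h : ∀ i ∈ A, lo ≤ i ∧ i < lo + N ∧ i % 2 = e) :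
    A.card ≤ (N + 1) / 2 := by
  have : A.card ≤ (range ((N + 1) / 2)).card := by
    apply Finset.card_le_card_of_injOn (fun i => (i - lo) / 2)
    · intro i hi
      have := h i (by simpa using hi)
      simp only [coe_range, Set.mem_Iio]
      omega
    · intro i hi j hj e'
      have h1 := h i (by simpa using hi)
      have h2 := h j (by simpa using hj)
      simp only at e'
      omega
  simpa using this

/-- Pigeonhole for two sets of indices of prescribed parity. -/
theorem pigeon {A B : Finset ℕ} {N e : ℕ} (φ : ℕ → ℕ) (hφ : Set.InjOn φ A)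
    (hA : ∀ i ∈ A, φ i < N ∧ φ i % 2 = e) (hB : ∀ i ∈ B, i < N ∧ i % 2 = e)
    (hc : (N + 1) / 2 < A.card + B.card) : ∃ i ∈ A, φ i ∈ B := by
  by_contra hne
  push Not at hne
  have hd : Disjoint (A.image φ) B := by
    rw [Finset.disjoint_left]
    intro x hx hxB
    obtain ⟨i, hi, rfl⟩ := Finset.mem_image.1 hx
    exact hne i hi hxB
  have h1 : (A.image φ ∪ B).card ≤ (N + 1) / 2 := by
    apply card_le_half (lo := 0) (e := e)
    intro i hi
    rcases Finset.mem_union.1 hi with hi | hi
    · obtain ⟨j, hj, rfl⟩ := Finset.mem_image.1 hi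
      have := hA j hj
      omega
    · have := hB i hi
      omega
  rw [Finset.card_union_of_disjoint hd, Finset.card_image_of_injOn hφ] at h1
  omega

/-- A walk given as a function. -/
def IsWalk (G : SimpleGraph V) (f : ℕ → V) (n : ℕ) : Prop :=
  ∀ i, i + 1 < n → G.Adj (f i) (f (i + 1))

theorem exists_isWalk (hc : G.Preconnected) (u v : V) :
    ∃ f n, IsWalk G f n ∧ 0 < n ∧ f 0 = u ∧ f (n - 1) = v := by
  obtain ⟨p⟩ := hc u v
  refine ⟨fun i => p.getVert i, p.length + 1, ?_, by omega, by simp, by simp⟩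
  intro i hi
  exact p.adj_getVert_succ (by omega)

/-- A shortest walk between two sets. -/
theorem exists_geodesic (hc : G.Preconnected) {A B : Set V} (hA : A.Nonempty) (hB : B.Nonempty) :
    ∃ g k, IsPath G g k ∧ 0 < k ∧ g 0 ∈ A ∧ g (k - 1) ∈ B ∧ (∀ i, 0 < i → i < k → g i ∉ A) ∧
      (∀ i, i + 1 < k → g i ∉ B) ∧ (∀ u ∈ A, ∀ i, 2 ≤ i → i < k → ¬ G.Adj u (g i)) ∧
      (∀ u ∈ A, u ∈ B → k = 1) := by
  classical
  have hex : ∃ k, ∃ g, IsWalk G g k ∧ 0 < k ∧ g 0 ∈ A ∧ g (k - 1) ∈ B := by
    obtain ⟨u, hu⟩ := hA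
    obtain ⟨v, hv⟩ := hB
    obtain ⟨f, n, h1, h2, h3, h4⟩ := exists_isWalk hc u v
    exact ⟨n, f, h1, h2, h3 ▸ hu, h4 ▸ hv⟩
  obtain ⟨g, hw, hk, h0, hl⟩ := Nat.find_spec hex
  have hmin : ∀ k' g', IsWalk G g' k' → 0 < k' → g' 0 ∈ A → g' (k' - 1) ∈ B →
      Nat.find hex ≤ k' := fun k' g' a b c d => Nat.find_min' hex ⟨g', a, b, c, d⟩
  set k := Nat.find hex with hkdef
  clear_value k
  have hinj : ∀ i j, i < j → j < k → g i ≠ g j := by
    intro i j hij hj e
    have := hmin (k - (j - i)) (fun t => if t ≤ i then g t else g (t + (j - i))) ?_ (by omega)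
      (by simpa using h0) ?_
    · omega
    · intro t ht
      by_cases h1 : t + 1 ≤ i
      · simp only [h1, if_true, show t ≤ i by omega]; exact hw t (by omega)
      · by_cases h2 : t ≤ i
        · have e1 : t = i := by omega
          subst e1
          simp only [h1, if_false, le_refl, if_true]
          rw [e, show t + 1 + (j - t) = j + 1 by omega]; exact hw j (by omega)
        · simp only [h1, h2, if_false]
          rw [show t + 1 + (j - i) = t + (j - i) + 1 by omega]; exact hw _ (by omega)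
    · by_cases h1 : k - (j - i) - 1 ≤ i
      · simp only [h1, if_true]
        rw [show k - (j - i) - 1 = i by omega, e, show j = k - 1 by omega]; exact hl
      · simp only [h1, if_false]
        rw [show k - (j - i) - 1 + (j - i) = k - 1 by omega]; exact hl
  refine ⟨g, k, ⟨?_, hw⟩, hk, h0, hl, ?_, ?_, ?_, ?_⟩
  · intro i j hi hj e
    rcases lt_trichotomy i j with h | h | h
    · exact absurd e (hinj i j h hj)
    · exact h
    · exact absurd e.symm (hinj j i h hi)
  · intro i hi0 hi hiA
    have := hmin (k - i) (fun t => g (i + t)) ?_ (by omega) (by simpa using hiA) ?_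
    · omega
    · intro t ht; exact hw (i + t) (by omega)
    · show g (i + (k - i - 1)) ∈ B
      rw [show i + (k - i - 1) = k - 1 by omega]; exact hl
  · intro i hi hiB
    have := hmin (i + 1) g (fun t ht => hw t (by omega)) (by omega) h0 (by simpa using hiB)
    omega
  · intro u hu i hi2 hi hadj
    have := hmin (k - i + 1) (fun t => if t = 0 then u else g (i + t - 1)) ?_ (by omega)
      (by simpa using hu) ?_
    · omega
    · intro t ht
      by_cases h1 : t = 0
      · subst h1; simpa using hadj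
      · simp only [h1, if_false, Nat.add_eq_zero_iff, one_ne_zero, and_false]
        rw [show i + (t + 1) - 1 = (i + t - 1) + 1 by omega]; exact hw _ (by omega)
    · have : k - i + 1 - 1 ≠ 0 := by omega
      simp only [this, if_false]
      rw [show i + (k - i + 1 - 1) - 1 = k - 1 by omega]; exact hl
  · intro u huA huB
    have := hmin 1 (fun _ => u) (fun t ht => by omega) (by omega) huA huB
    omega

end Pool.Agent.Lib.MP_95bdb0_co
end

-- part Pool.Agent.Lib.MP_95bdb0_co.Structure
section

/-!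
The structure of the end of a longest path from a root in a bipartite graph with large
minimum degrees.
-/

set_option linter.unusedVariables false

namespace Pool.Agent.Lib.MP_95bdb0_co

open Finset

variable {V : Type*} [Fintype V]

open Classical in
/-- Neighbourhood. -/
noncomputable def nb (H : SimpleGraph V) (u : V) : Finset V := univ.filter (H.Adj u)

open Classical in
/-- Indices of the neighbours of `u` on a finite sequence. -/
noncomputable def idx (H : SimpleGraph V) (f : ℕ → V) (n : ℕ) (u : V) : Finset ℕ :=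
  (range n).filter (fun i => H.Adj u (f i))

variable {H : SimpleGraph V} {f g : ℕ → V} {n k : ℕ}

theorem mem_nb {u x : V} : x ∈ nb H u ↔ H.Adj u x := by simp [nb]

omit [Fintype V] in
theorem mem_idx {u : V} {i : ℕ} : i ∈ idx H f n u ↔ i < n ∧ H.Adj u (f i) := by simp [idx]

theorem nb_card_le (u : V) (T : Finset V) (hT : ∀ x, H.Adj u x → Off f n x → x ∈ T) :
    (nb H u).card ≤ (idx H f n u).card + T.card := by
  classical
  have : nb H u ⊆ (idx H f n u).image f ∪ T := by
    intro x hx
    rw [mem_nb] at hx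
    by_cases h : Off f n x
    · exact Finset.mem_union_right _ (hT x hx h)
    · unfold Off at h
      push Not at h
      obtain ⟨i, hi, rfl⟩ := h
      exact Finset.mem_union_left _ (Finset.mem_image.2 ⟨i, mem_idx.2 ⟨hi, hx⟩, rfl⟩)
  calc (nb H u).card ≤ _ := Finset.card_le_card this
    _ ≤ _ := Finset.card_union_le _ _
    _ ≤ _ := by gcongr; exact Finset.card_image_le

theorem exists_off2 {u : V} (h : (idx H f n u).card + 2 ≤ (nb H u).card) :
    ∃ y y', y ≠ y' ∧ H.Adj u y ∧ H.Adj u y' ∧ Off f n y ∧ Off f n y' := by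
  classical
  have h1 := nb_card_le (H := H) (f := f) (n := n) u (univ.filter fun x => H.Adj u x ∧ Off f n x)
    (fun x a b => by simp [a, b])
  have h2 : 1 < (univ.filter fun x => H.Adj u x ∧ Off f n x).card := by omega
  obtain ⟨y, hy, y', hy', hne⟩ := Finset.one_lt_card.1 h2
  simp only [mem_filter, mem_univ, true_and] at hy hy'
  exact ⟨y, y', hne, hy.1, hy'.1, hy.2, hy'.2⟩

/-- Extremal choice of a rooted path. -/
structure Ctx0 (H : SimpleGraph V) (s : V → Bool) (a : V) (l r m : ℕ) (sY : Bool) : Prop where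
  bip : Bip H s
  hmax : ∀ g k, IsPath H g k → g 0 = a → k ≤ l
  hmin : ∀ g, IsPath H g l → g 0 = a → ∀ i, i < l → H.Adj (g (l - 1)) (g i) → r ≤ i
  hl : l ≤ 2 * m
  l2 : 2 ≤ l
  hY : sY = s a ↔ (l - 1) % 2 = 0

/-- The hypotheses of the structure lemma. -/
structure Ctx (H : SimpleGraph V) (s : V → Bool) (a : V) (l r m p q : ℕ) (sY : Bool) : Prop
    extends Ctx0 H s a l r m sY where
  hq : ∀ y x, s y = sY → H.Adj y x → q ≤ (nb H y).card
  hp : ∀ x y, s x ≠ sY → H.Adj x y → p ≤ (nb H x).card
  pq : m + 2 ≤ p + q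
  qq : m + 8 ≤ 2 * q

/-- `x` occurs at an index at least `r`. -/
def Tail (g : ℕ → V) (r l : ℕ) (x : V) : Prop := ∃ j, r ≤ j ∧ j < l ∧ g j = x

variable {s : V → Bool} {a : V} {l r m p q : ℕ} {sY : Bool}

omit [Fintype V] in
theorem Ctx0.side (c : Ctx0 H s a l r m sY) (hg : IsPath H g k) (h0 : g 0 = a) {i : ℕ}
    (hi : i < k) : s (g i) = sY ↔ i % 2 = (l - 1) % 2 := by
  have h1 := hg.side c.bip i hi
  have h2 := c.hY
  rw [h0] at h1
  have h3 : i % 2 = (l - 1) % 2 ↔ (i % 2 = 0 ↔ (l - 1) % 2 = 0) := by omega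
  rw [h3, ← h1, ← h2]
  cases s (g i) <;> cases sY <;> cases s a <;> simp

omit [Fintype V] in
theorem Ctx0.sideAdjY (c : Ctx0 H s a l r m sY) {x y : V} (h : H.Adj x y) (hx : s x ≠ sY) :
    s y = sY := by
  have := c.bip _ _ h
  revert this hx
  cases s x <;> cases s y <;> cases sY <;> simp

omit [Fintype V] in
theorem Ctx0.sideAdjX (c : Ctx0 H s a l r m sY) {x y : V} (h : H.Adj y x) (hy : s y = sY) :
    s x ≠ sY := by
  have := c.bip _ _ h
  rw [hy] at this
  exact fun e => this e.symm

omit [Fintype V] in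
theorem Ctx0.lemA (c : Ctx0 H s a l r m sY) (hg : IsPath H g l) (h0 : g 0 = a) {x : V}
    (hx : H.Adj (g (l - 1)) x) : Tail g r l x := by
  by_cases h : Off g l x
  · have h1 := hg.snoc h (fun _ => hx)
    have := c.hmax _ _ h1 (by rw [cat_lt (by have := c.l2; omega)]; exact h0)
    omega
  · unfold Off at h
    push Not at h
    obtain ⟨i, hi, rfl⟩ := h
    exact ⟨i, c.hmin g hg h0 i hi hx, hi, rfl⟩

omit [Fintype V] in
theorem Ctx0.endY (c : Ctx0 H s a l r m sY) (hg : IsPath H g l) (h0 : g 0 = a) :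
    s (g (l - 1)) = sY := (c.side hg h0 (by have := c.l2; omega)).2 rfl

omit [Fintype V] in
theorem Ctx0.endAdj (c : Ctx0 H s a l r m sY) (hg : IsPath H g l) :
    H.Adj (g (l - 1)) (g (l - 2)) := by
  have := c.l2
  apply hg.adj' <;> omega

theorem Ctx.endIdx (c : Ctx H s a l r m p q sY) (hg : IsPath H g l) (h0 : g 0 = a) :
    q ≤ (idx H g l (g (l - 1))).card := by
  have h1 := c.hq _ _ (c.endY hg h0) (c.endAdj hg)
  have h2 := nb_card_le (H := H) (f := g) (n := l) (g (l - 1)) ∅ (by
    intro x hx hoff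
    obtain ⟨j, _, hj, e⟩ := c.lemA hg h0 hx
    exact absurd e (hoff j hj))
  simpa using h1.trans h2

omit [Fintype V] in
theorem Ctx0.idxY (c : Ctx0 H s a l r m sY) (hg : IsPath H g k) (h0 : g 0 = a) {y : V}
    (hy : s y = sY) {i : ℕ} (hi : i ∈ idx H g k y) : i < k ∧ i % 2 = l % 2 := by
  obtain ⟨h1, h2⟩ := mem_idx.1 hi
  have h3 := c.sideAdjX h2 hy
  rw [Ne, c.side hg h0 h1] at h3
  have := c.l2
  omega

omit [Fintype V] in
theorem Ctx0.idxX (c : Ctx0 H s a l r m sY) (hg : IsPath H g k) (h0 : g 0 = a) {x : V}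
    (hx : s x ≠ sY) {i : ℕ} (hi : i ∈ idx H g k x) : i < k ∧ i % 2 = (l - 1) % 2 := by
  obtain ⟨h1, h2⟩ := mem_idx.1 hi
  have h3 := c.sideAdjY h2 hx
  rw [c.side hg h0 h1] at h3
  omega

omit [Fintype V] in
theorem Ctx0.lemB (c : Ctx0 H s a l r m sY) (hg : IsPath H g l) (h0 : g 0 = a) {i : ℕ}
    (hi : i < l) (hadj : H.Adj (g (l - 1)) (g i)) {x : V} (hx : H.Adj (g (i + 1)) x) :
    Tail g r l x := by
  have hr := c.hmin g hg h0 i hi hadj
  have hne : i ≠ l - 1 := by rintro rfl; exact hadj.ne rfl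
  have h1 := hg.rot hi hadj
  have e : rotI l i (l - 1) = i + 1 := by unfold rotI; split_ifs <;> omega
  obtain ⟨j, hj1, hj2, hj3⟩ := c.lemA h1 (by simpa [rotI] using h0) (x := x) (by simpa [e] using hx)
  refine ⟨rotI l i j, ?_, rotI_lt hi hj2, hj3⟩
  unfold rotI; split_ifs <;> omega

theorem Ctx.lemC (c : Ctx H s a l r m p q sY) (hg : IsPath H g l) (h0 : g 0 = a) {x : V}
    (hx : s x ≠ sY) (ht : ¬ Tail g r l x) : (idx H g l x).card + q ≤ m := by
  by_contra hlt
  have h1 := c.endIdx hg h0
  have hl := c.hl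
  have hl2 := c.l2
  obtain ⟨i, hi, hi'⟩ := pigeon (A := idx H g l (g (l - 1))) (B := idx H g l x) (N := l)
    (e := (l - 1) % 2) (fun i => i + 1) (fun i _ j _ e => by simpa using e) (by
      intro i hi
      have := c.idxY hg h0 (c.endY hg h0) hi
      omega) (fun i hi => c.idxX hg h0 hx hi) (by omega)
  obtain ⟨h2, h3⟩ := mem_idx.1 hi
  obtain ⟨h4, h5⟩ := mem_idx.1 hi'
  exact ht (c.lemB hg h0 h2 h3 h5.symm)

theorem Ctx.lemC2 (c : Ctx H s a l r m p q sY) (hg : IsPath H g l) (h0 : g 0 = a) {x y0 : V}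
    (hx : s x ≠ sY) (hy0 : H.Adj x y0) (ht : ¬ Tail g r l x) :
    ∃ y y', y ≠ y' ∧ H.Adj x y ∧ H.Adj x y' ∧ Off g l y ∧ Off g l y' := by
  have h1 := c.lemC hg h0 hx ht
  have h2 := c.hp _ _ hx hy0
  have h3 := c.pq
  exact exists_off2 (by omega)

theorem Ctx.lemD (c : Ctx H s a l r m p q sY) (hg : IsPath H g l) (h0 : g 0 = a) {w : V}
    (hw : s w = sY) (hoff : Off g l w) (hc : m + 1 < (idx H g l w).card + q) {x : V}
    (hx : H.Adj w x) : Tail g r l x := by
  have h1 := c.endIdx hg h0
  have hl := c.hl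
  have hl2 := c.l2
  obtain ⟨i, hi, hi'⟩ := pigeon (A := idx H g l (g (l - 1))) (B := idx H g l w) (N := l + 1)
    (e := l % 2) (fun i => i + 2) (fun i _ j _ e => by simpa using e) (by
      intro i hi
      have := c.idxY hg h0 (c.endY hg h0) hi
      omega) (fun i hi => by have := c.idxY hg h0 hw hi; omega) (by omega)
  obtain ⟨h2, h3⟩ := mem_idx.1 hi
  obtain ⟨h4, h5⟩ := mem_idx.1 hi'
  have hr := c.hmin g hg h0 i h2 h3
  have h6 := (hg.rot h2 h3).trunc (k := l - 1) (by omega)
  have e : rotI l i (l - 1 - 1) = i + 2 := by unfold rotI; split_ifs <;> omega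
  have h7 := h6.snoc (x := w) (fun j hj => hoff _ (rotI_lt h2 (by omega)))
    (fun _ => by simpa [e] using h5.symm)
  rw [show l - 1 + 1 = l by omega] at h7
  obtain ⟨j, hj1, hj2, hj3⟩ := c.lemA h7 (by rw [cat_lt (by omega)]; simpa [rotI] using h0)
    (x := x) (by rw [cat_ge le_rfl]; exact hx)
  by_cases hj : j < l - 1
  · rw [cat_lt hj] at hj3
    refine ⟨rotI l i j, ?_, rotI_lt h2 hj2, hj3⟩
    unfold rotI; split_ifs <;> omega
  · rw [cat_ge (by omega)] at hj3
    exact absurd hj3 hx.ne

theorem Ctx.lemE (c : Ctx H s a l r m p q sY) (hg : IsPath H g l) (h0 : g 0 = a) {x y y' : V}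
    (hx : s x ≠ sY) (hne : y ≠ y') (h1 : H.Adj x y) (h2 : H.Adj x y') (ox : Off g l x)
    (oy : Off g l y) (oy' : Off g l y')
    (hc : m + 1 < (idx H g l y).card + (idx H g l y').card) : False := by
  have hl := c.hl
  have hl2 := c.l2
  have hy := c.sideAdjY h1 hx
  have hy' := c.sideAdjY h2 hx
  obtain ⟨i, hi, hi'⟩ := pigeon (A := idx H g l y) (B := idx H g l y') (N := l + 1)
    (e := l % 2) (fun i => i + 2) (fun i _ j _ e => by simpa using e) (by
      intro i hi
      have := c.idxY hg h0 hy hi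
      omega) (fun i hi => by have := c.idxY hg h0 hy' hi; omega) (by omega)
  obtain ⟨h3, h4⟩ := mem_idx.1 hi
  obtain ⟨h5, h6⟩ := mem_idx.1 hi'
  have p1 := (hg.trunc (k := i + 1) (by omega)).snoc (x := y) (fun j hj => oy j (by omega))
    (fun _ => by simpa using h4.symm)
  have p2 := p1.snoc (x := x) (by
    intro j hj
    by_cases hj' : j < i + 1
    · rw [cat_lt hj']; exact ox j (by omega)
    · rw [cat_ge (by omega)]; exact h1.ne.symm) (fun _ => by
      rw [cat_ge (by omega)]; exact h1.symm)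
  have p3 := p2.snoc (x := y') (by
    intro j hj
    by_cases hj' : j < i + 1 + 1
    · rw [cat_lt hj']
      by_cases hj'' : j < i + 1
      · rw [cat_lt hj'']; exact oy' j (by omega)
      · rw [cat_ge (by omega)]; exact hne
    · rw [cat_ge (by omega)]; exact h2.ne) (fun _ => by
      rw [cat_ge (by omega)]; exact h2)
  have p4 := p3.cat (hg.drop (i + 2)) (by
    intro j t hj ht
    by_cases hj1 : j < i + 1 + 1 + 1
    · rw [cat_lt hj1]
      by_cases hj3 : j < i + 1 + 1
      · rw [cat_lt hj3]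
        by_cases hj2 : j < i + 1
        · rw [cat_lt hj2]
          intro e
          have := hg.inj _ _ (by omega) (by omega) e
          omega
        · rw [cat_ge (by omega)]; exact (oy _ (by omega)).symm
      · rw [cat_ge (by omega)]; exact (ox _ (by omega)).symm
    · rw [cat_ge (by omega)]; exact (oy' _ (by omega)).symm) (fun _ _ => by
      rw [cat_ge (by omega)]; simpa using h6)
  have := c.hmax _ _ p4 (by
    rw [cat_lt (by omega), cat_lt (by omega), cat_lt (by omega), cat_lt (by omega)]; exact h0)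
  omega

/-- The first `k` terms of `g` occur among the first `l` terms of `f`. -/
def Sub (g : ℕ → V) (k : ℕ) (f : ℕ → V) (l : ℕ) : Prop := ∀ i, i < k → ∃ j, j < l ∧ g i = f j

theorem Ctx.lemE4 (c : Ctx H s a l r m p q sY) (hf : IsPath H f l) (f0 : f 0 = a)
    (hg : IsPath H g (l - 2)) (h0 : g 0 = a) (hsub : Sub g (l - 2) f l) (hl3 : 3 ≤ l) {x : V}
    (hx : H.Adj (g (l - 3)) x) (ox : Off f l x) : False := by
  classical
  have hy : s (g (l - 3)) = sY := (c.side hg h0 (by omega)).2 (by omega)
  have hxs := c.sideAdjX hx hy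
  have hnt : ¬ Tail f r l x := fun ⟨j, _, hj, e⟩ => ox j hj e
  obtain ⟨y, y', hne, h1, h2, oy, oy'⟩ := c.lemC2 hf f0 hxs hx.symm hnt
  have offg : ∀ z, Off f l z → Off g (l - 2) z := by
    intro z hz i hi e
    obtain ⟨j, hj, e'⟩ := hsub i hi
    exact hz j hj (e'.symm.trans e)
  have p1 := hg.snoc (offg x ox) (fun _ => by rw [show l - 2 - 1 = l - 3 by omega]; exact hx)
  have key : ∀ z, H.Adj x z → Off f l z → q ≤ (idx H f l z).card + 1 := by
    intro z hz oz
    have p2 := p1.snoc (x := z) (by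
      intro j hj
      by_cases hj' : j < l - 2
      · rw [cat_lt hj']; exact offg z oz j hj'
      · rw [cat_ge (by omega)]; exact hz.ne) (fun _ => by rw [cat_ge (by omega)]; exact hz)
    rw [show l - 2 + 1 + 1 = l by omega] at p2
    have h3 := c.hq _ _ (c.sideAdjY hz hxs) hz.symm
    have h4 := nb_card_le (H := H) (f := f) (n := l) z {x} (by
      intro u hu ou
      obtain ⟨j, _, hj, e⟩ := c.lemA p2 (by
        rw [cat_lt (by omega), cat_lt (by omega)]; exact h0) (x := u) (by
        rw [cat_ge (by omega)]; exact hu)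
      by_cases hj1 : j < l - 2 + 1
      · rw [cat_lt hj1] at e
        by_cases hj2 : j < l - 2
        · rw [cat_lt hj2] at e; exact absurd e (offg u ou j hj2)
        · rw [cat_ge (by omega)] at e; simp [← e]
      · rw [cat_ge (by omega)] at e; exact absurd e hu.ne)
    simpa using h3.trans h4
  have k1 := key y h1 oy
  have k2 := key y' h2 oy'
  have := c.qq
  exact c.lemE hf f0 hxs hne h1 h2 ox oy oy' (by omega)

theorem Ctx.lemG (c : Ctx H s a l r m p q sY) (hf : IsPath H f l) (f0 : f 0 = a) (hrl : r < l)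
    (hg : IsPath H g (l - 1)) (hsub : Sub g (l - 1) f l) {t : ℕ} (ht : t + 1 < r)
    (hpre : ∀ i, i ≤ t + 1 → g i = f i) (hadj : H.Adj (g (l - 2)) (f t)) : False := by
  classical
  have h0 : g 0 = a := by rw [hpre 0 (by omega), f0]
  have hx1 : s (g (l - 2)) ≠ sY := by
    rw [Ne, c.side hg h0 (by omega)]; omega
  have htl : t + 1 < l - 1 := by
    by_contra h
    have e : l - 2 = t := by omega
    rw [e, hpre t (by omega)] at hadj
    exact hadj.ne rfl
  have p1 := hg.rot (t := t) (by omega) (by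
    rw [show l - 1 - 1 = l - 2 by omega, hpre t (by omega)]; exact hadj)
  have e1 : rotI (l - 1) t (l - 1 - 1) = t + 1 := by unfold rotI; split_ifs <;> omega
  have e2 : rotI (l - 1) t (t + 1) = l - 2 := by unfold rotI; split_ifs <;> omega
  have p10 : g (rotI (l - 1) t 0) = a := by simpa [rotI] using h0
  have hx2 : s (f (t + 1)) ≠ sY := by
    have := c.side p1 p10 (i := l - 1 - 1) (by omega)
    rw [e1, hpre _ le_rfl] at this
    rw [Ne, this]; omega
  have hnt : ¬ Tail f r l (f (t + 1)) := by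
    rintro ⟨j, hj1, hj2, e⟩
    have := hf.inj _ _ hj2 (by omega) e
    omega
  obtain ⟨y, -, -, h1, -, oy, -⟩ := c.lemC2 hf f0 hx2 (hf.adj t (by omega)).symm hnt
  have p2 := p1.snoc (x := y) (by
    intro j hj e
    obtain ⟨j', hj', e'⟩ := hsub _ (rotI_lt (n := l - 1) (t := t) (by omega) hj)
    exact oy j' hj' (e'.symm.trans e)) (fun _ => by
      simp only [e1]; rw [hpre _ le_rfl]; exact h1)
  rw [show l - 1 + 1 = l by omega] at p2
  set Q := cat (fun i => g (rotI (l - 1) t i)) (l - 1) (fun _ => y) with hQ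
  have Q0 : Q 0 = a := by rw [hQ, cat_lt (by omega)]; exact p10
  have Qt : Q (t + 1) = g (l - 2) := by rw [hQ, cat_lt htl]; simp only [e2]
  have hnt2 : ¬ Tail Q r l (g (l - 2)) := by
    rintro ⟨j, hj1, hj2, e⟩
    rw [← Qt] at e
    have := p2.inj _ _ hj2 (by omega) e
    omega
  have onQ : ∀ j, j < l - 1 → ∃ i, i < l ∧ Q i = g j := by
    intro j hj
    obtain ⟨i, hi, e⟩ := rotI_surj (n := l - 1) (t := t) (by omega) hj
    exact ⟨i, by omega, by rw [hQ, cat_lt hi]; simp only [e]⟩
  obtain ⟨w, -, -, h2, -, ow, -⟩ := c.lemC2 p2 Q0 hx1 hadj hnt2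
  have p3 := hg.snoc (x := w) (by
    intro j hj e
    obtain ⟨i, hi, e'⟩ := onQ j hj
    exact ow i hi (e'.trans e)) (fun _ => by rw [show l - 1 - 1 = l - 2 by omega]; exact h2)
  rw [show l - 1 + 1 = l by omega] at p3
  have hw := c.sideAdjY h2 hx1
  have h3 := c.hq _ _ hw h2.symm
  have h4 := nb_card_le (H := H) (f := Q) (n := l) w ∅ (by
    intro u hu ou
    obtain ⟨j, _, hj, e⟩ := c.lemA p3 (by rw [cat_lt (by omega)]; exact h0) (x := u) (by
      rw [cat_ge (by omega)]; exact hu)
    by_cases hj1 : j < l - 1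
    · rw [cat_lt hj1] at e
      obtain ⟨i, hi, e'⟩ := onQ j hj1
      exact absurd (e'.trans e) (ou i hi)
    · rw [cat_ge (by omega)] at e; exact absurd e hu.ne)
  have := c.qq
  simp only [card_empty, add_zero] at h4
  exact hnt2 (c.lemD p2 Q0 hw ow (by omega) h2.symm)

omit [Fintype V] in
/-- Crossing lemma on a cycle. -/
theorem hc_path {z : ℕ → V} {σ j : ℕ} (hs : Bip H s) (hz : IsPath H z (2 * σ))
    (hc : H.Adj (z (2 * σ - 1)) (z 0)) (hj : j % 2 = 0) (hj2 : 2 ≤ j) (hjL : j + 2 ≤ 2 * σ)
    (hcard : σ + 4 < (idx H z (2 * σ) (z 1)).card + (idx H z (2 * σ) (z (j + 1))).card) :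
    ∃ φ : ℕ → ℕ, (∀ i, i < 2 * σ - 1 → φ i < 2 * σ) ∧ IsPath H (fun i => z (φ i)) (2 * σ - 1) ∧
      φ 0 = 0 ∧ φ 1 = 2 * σ - 1 ∧ φ (2 * σ - 2) = j ∧ φ (2 * σ - 3) = j - 1 := by
  classical
  have par : ∀ u, u < 2 * σ → u % 2 = 1 → ∀ i ∈ idx H z (2 * σ) (z u), i < 2 * σ ∧ i % 2 = 0 := by
    intro u hu hu1 i hi
    obtain ⟨h1, h2⟩ := mem_idx.1 hi
    have h3 := hs _ _ h2
    rw [Ne, hz.side2 hs hu h1] at h3
    omega
  set A := (idx H z (2 * σ) (z 1)).filter
    (fun t => t ≠ 0 ∧ t ≠ 2 ∧ t ≠ j ∧ t ≠ 2 * σ - 2) with hA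
  have hAc : (idx H z (2 * σ) (z 1)).card ≤ A.card + 4 := by
    have : idx H z (2 * σ) (z 1) ⊆ A ∪ {0, 2, j, 2 * σ - 2} := by
      intro t ht
      simp only [hA, mem_union, mem_filter, mem_insert, mem_singleton]
      tauto
    calc _ ≤ _ := Finset.card_le_card this
      _ ≤ _ := Finset.card_union_le _ _
      _ ≤ _ := by gcongr; exact Finset.card_le_four
  have hAm : ∀ t ∈ A, t < 2 * σ ∧ t % 2 = 0 ∧ t ≠ 0 ∧ t ≠ 2 ∧ t ≠ j ∧ t ≠ 2 * σ - 2 := by
    intro t ht
    obtain ⟨h1, h2⟩ := Finset.mem_filter.1 ht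
    have := par 1 (by omega) (by omega) t h1
    tauto
  obtain ⟨t, ht, ht'⟩ := pigeon (A := A) (B := idx H z (2 * σ) (z (j + 1))) (N := 2 * σ) (e := 0)
    (fun t => if t < j then t - 2 else t + 2) (by
      intro t ht u hu e
      have h1 := hAm t ht
      have h2 := hAm u hu
      simp only at e
      split_ifs at e <;> omega) (by
      intro t ht
      have h1 := hAm t ht
      split_ifs <;> omega) (par (j + 1) (by omega) (by omega)) (by omega)
  have h1 := hAm t ht
  have a1 : H.Adj (z 1) (z t) := (mem_idx.1 (Finset.mem_filter.1 ht).1).2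
  have a2 := (mem_idx.1 ht').2
  by_cases htj : t < j
  · simp only [htj, if_true] at a2
    refine ⟨fun i => if i < 1 then 0 else if i < 2 * σ - j then 2 * σ - i
      else if i < 2 * σ - j + t - 2 then 2 * σ - j + t - 2 - i else i + 2 + j - 2 * σ, ?_, ?_,
      ?_, ?_, ?_, ?_⟩
    · intro i hi; beta_reduce; split_ifs <;> omega
    · apply hz.reindex
      · intro i hi; split_ifs <;> omega
      · intro i i' hi hi'; split_ifs <;> omega
      · intro i hi
        by_cases c1 : i = 0
        · subst c1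
          rw [if_pos (by omega), if_neg (by omega), if_pos (by omega)]; exact hc.symm
        by_cases c2 : i = 2 * σ - j - 1
        · rw [if_neg (by omega), if_pos (by omega), if_neg (by omega), if_neg (by omega),
            if_pos (by omega)]
          convert a2 using 2 <;> omega
        by_cases c3 : i = 2 * σ - j + t - 3
        · rw [if_neg (by omega), if_neg (by omega), if_pos (by omega), if_neg (by omega),
            if_neg (by omega), if_neg (by omega)]
          convert a1 using 2 <;> omega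
        apply hz.adj' <;> split_ifs <;> omega
    · simp
    · beta_reduce; split_ifs <;> omega
    · beta_reduce; split_ifs <;> omega
    · beta_reduce; split_ifs <;> omega
  · simp only [htj, if_false] at a2
    refine ⟨fun i => if i < 1 then 0 else if i < 2 * σ - t - 1 then 2 * σ - i
      else if i < 2 * σ - j - 1 then i + t + j + 2 - 2 * σ else i + j + 2 - 2 * σ, ?_, ?_,
      ?_, ?_, ?_, ?_⟩
    · intro i hi; beta_reduce; split_ifs <;> omega
    · apply hz.reindex
      · intro i hi; split_ifs <;> omega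
      · intro i i' hi hi'; split_ifs <;> omega
      · intro i hi
        by_cases c1 : i = 0
        · subst c1
          rw [if_pos (by omega), if_neg (by omega), if_pos (by omega)]; exact hc.symm
        by_cases c2 : i = 2 * σ - t - 2
        · rw [if_neg (by omega), if_pos (by omega), if_neg (by omega), if_neg (by omega),
            if_pos (by omega)]
          convert a2.symm using 2 <;> omega
        by_cases c3 : i = 2 * σ - j - 2
        · rw [if_neg (by omega), if_neg (by omega), if_pos (by omega), if_neg (by omega),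
            if_neg (by omega), if_neg (by omega)]
          convert a1.symm using 2 <;> omega
        apply hz.adj' <;> split_ifs <;> omega
    · simp
    · beta_reduce; split_ifs <;> omega
    · beta_reduce; split_ifs <;> omega
    · beta_reduce; split_ifs <;> omega

end Pool.Agent.Lib.MP_95bdb0_co
end

-- part Pool.Agent.Lib.MP_95bdb0_co.Piece
section

/-!
The end piece of a longest rooted path.
-/

set_option linter.unusedVariables false

namespace Pool.Agent.Lib.MP_95bdb0_co

open Finset

variable {V : Type*} [Fintype V] {H : SimpleGraph V} {f g : ℕ → V} {n k : ℕ}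
variable {s : V → Bool} {a : V} {l r m p q : ℕ} {sY : Bool}

theorem Ctx.lemE8 (c : Ctx H s a l r m p q sY) (hf : IsPath H f l) (f0 : f 0 = a) (hrl : r + 3 ≤ l)
    (hr : r % 2 = l % 2)
    (hg : IsPath H g (l - 2)) (hsub : Sub g (l - 2) f l) (hpre : ∀ i, i ≤ r → g i = f i) {x : V}
    (hx : H.Adj (g (l - 3)) x) : Tail f r l x ∨ x = f (r - 2) := by
  classical
  have h0 : g 0 = a := by rw [hpre 0 (by omega), f0]
  by_cases ox : Off f l x
  · exact (c.lemE4 hf f0 hg h0 hsub (by omega) hx ox).elim
  unfold Off at ox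
  push Not at ox
  obtain ⟨i, hi, rfl⟩ := ox
  by_cases hir : r ≤ i
  · exact Or.inl ⟨i, hir, hi, rfl⟩
  have hy : s (g (l - 3)) = sY := (c.side hg h0 (by omega)).2 (by omega)
  have hxs := c.sideAdjX hx hy
  rw [Ne, c.side hf f0 hi] at hxs
  by_cases hi2 : i + 2 = r
  · right; congr 1; omega
  exfalso
  have p1 := hg.rot (t := i) (by omega) (by
    rw [show l - 2 - 1 = l - 3 by omega, hpre i (by omega)]; exact hx)
  have e1 : rotI (l - 2) i (l - 3) = i + 1 := by unfold rotI; split_ifs <;> omega
  have hY1 : s (f (i + 1)) = sY := (c.side hf f0 (by omega)).2 (by omega)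
  have h3 := c.hq _ _ hY1 (hf.adj i (by omega)).symm
  have h4 := nb_card_le (H := H) (f := f) (n := l) (f (i + 1)) ∅ (by
    intro u hu ou
    exfalso
    refine c.lemE4 hf f0 p1 (by simpa [rotI] using h0) ?_ (by omega) (x := u) ?_ ou
    · intro j hj
      exact hsub _ (rotI_lt (n := l - 2) (t := i) (by omega) hj)
    · simp only [e1]; rw [hpre _ (by omega)]; exact hu)
  simp only [card_empty, add_zero] at h4
  have h1 := c.endIdx hf f0
  have hl := c.hl
  have hqq := c.qq
  obtain ⟨t, ht, ht'⟩ := pigeon (A := idx H f l (f (l - 1))) (B := idx H f l (f (i + 1)))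
    (N := l + 1) (e := l % 2) (fun i => i + 2) (fun i _ j _ e => by simpa using e) (by
      intro i hi
      have := c.idxY hf f0 (c.endY hf f0) hi
      omega) (fun i hi => by have := c.idxY hf f0 hY1 hi; omega) (by omega)
  obtain ⟨h5, h6⟩ := mem_idx.1 ht
  obtain ⟨h7, h8⟩ := mem_idx.1 ht'
  have hrt := c.hmin f hf f0 t h5 h6
  have p2 := (hf.rot h5 h6).trunc (k := l - 1) (by omega)
  have e2 : rotI l t (l - 2) = t + 2 := by unfold rotI; split_ifs <;> omega
  refine c.lemG hf f0 (by omega) p2 ?_ (t := i + 1) (by omega) ?_ ?_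
  · intro j hj
    exact ⟨_, rotI_lt h5 (by omega), rfl⟩
  · intro j hj
    have : rotI l t j = j := by unfold rotI; split_ifs <;> omega
    simp only [this]
  · simp only [e2]; exact h8.symm

/-- The structure of the end piece. -/
theorem Ctx.piece (c : Ctx H s a l r m p q sY) (hf : IsPath H f l) (f0 : f 0 = a) (hrl : r < l)
    (hc : H.Adj (f (l - 1)) (f r)) :
    ∃ σ, l = r + 2 * σ ∧ q ≤ σ ∧
      (∀ t, t < 2 * σ → t % 2 = 1 → ∀ x, H.Adj (f (r + t)) x → Tail f r l x ∨ x = f (r - 2)) ∧
      (∀ t, 0 < t → t < 2 * σ → t % 2 = 0 → ∀ y, H.Adj (f (r + t)) y → Tail f r l y ∨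
        y = f (r - 1) ∨ (Off f l y ∧ ∀ x, H.Adj y x → Tail f r l x)) := by
  classical
  have hr : r % 2 = l % 2 := (c.idxY hf f0 (c.endY hf f0) (mem_idx.2 ⟨hrl, hc⟩)).2
  obtain ⟨σ, hσ⟩ : ∃ σ, l = r + 2 * σ := ⟨(l - r) / 2, by omega⟩
  have hqσ : q ≤ σ := by
    have h1 := c.endIdx hf f0
    have h2 : (idx H f l (f (l - 1))).card ≤ (2 * σ + 1) / 2 := by
      apply card_le_half (lo := r) (e := l % 2)
      intro i hi
      have h3 := c.idxY hf f0 (c.endY hf f0) hi
      have h4 := c.hmin f hf f0 i (mem_idx.1 hi).1 (mem_idx.1 hi).2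
      omega
    omega
  have hl := c.hl
  have hqq := c.qq
  have hz : IsPath H (fun i => f (r + i)) (2 * σ) := by
    have := hf.drop r
    rwa [show l - r = 2 * σ by omega] at this
  have hzc : H.Adj (f (r + (2 * σ - 1))) (f (r + 0)) := by
    rw [show r + (2 * σ - 1) = l - 1 by omega]; exact hc
  have hdeg : ∀ t, t < 2 * σ → t % 2 = 1 →
      (∀ x, H.Adj (f (r + t)) x → Tail f r l x ∨ x = f (r - 2)) →
      q ≤ (idx H (fun i => f (r + i)) (2 * σ) (f (r + t))).card + 1 := by
    intro t ht ht1 hcl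
    have hY1 : s (f (r + t)) = sY := (c.side hf f0 (by omega)).2 (by omega)
    have h3 := c.hq _ (f (r + t - 1)) hY1 (hf.adj' (by omega) (by omega) (by omega))
    have h4 := nb_card_le (H := H) (f := fun i => f (r + i)) (n := 2 * σ) (f (r + t))
      {f (r - 2)} (by
        intro u hu ou
        rcases hcl u hu with ⟨j, hj1, hj2, e⟩ | e
        · exact absurd (by simpa [show r + (j - r) = j by omega] using e) (ou (j - r) (by omega))
        · simp [e])
    simpa using h3.trans h4
  have cl1 : ∀ x, H.Adj (f (r + 1)) x → Tail f r l x ∨ x = f (r - 2) :=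
    fun x hx => Or.inl (c.lemB hf f0 hrl hc hx)
  have hcp : ∀ j, j % 2 = 0 → 2 ≤ j → j + 2 ≤ 2 * σ →
      (∀ x, H.Adj (f (r + (j + 1))) x → Tail f r l x ∨ x = f (r - 2)) →
      ∃ ψ : ℕ → ℕ, (∀ i, i < l - 1 → ψ i < l) ∧ (∀ i, i ≤ r → ψ i = i) ∧
        (∀ i, r ≤ i → r ≤ ψ i) ∧ IsPath H (fun i => f (ψ i)) (l - 1) ∧ ψ (l - 2) = r + j ∧
        ψ (l - 3) = r + (j - 1) := by
    intro j hj hj2 hjL hcl
    have d1 := hdeg 1 (by omega) (by omega) cl1
    have d2 := hdeg (j + 1) (by omega) (by omega) hcl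
    obtain ⟨φ, h1, h2, h3, h4, h5, h6⟩ := hc_path c.bip hz hzc hj hj2 hjL (by omega)
    refine ⟨fun i => if i < r then i else r + φ (i - r), ?_, ?_, ?_, ?_, ?_, ?_⟩
    · intro i hi
      beta_reduce
      split_ifs with h
      · omega
      · have := h1 (i - r) (by omega); omega
    · intro i hi
      beta_reduce
      split_ifs with h
      · rfl
      · rw [show i - r = 0 by omega, h3]; omega
    · intro i hi
      beta_reduce
      split_ifs with h <;> omega
    · have p1 := (hf.trunc (k := r) (by omega)).cat h2 (by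
        intro i j hi hj e
        have := h1 j hj
        have := hf.inj _ _ (by omega) (by omega) e
        omega) (fun _ _ => by
          simp only [h3]
          exact hf.adj' (by omega) (by omega) (by omega))
      rw [show r + (2 * σ - 1) = l - 1 by omega] at p1
      convert p1 using 2 with i
      unfold cat
      beta_reduce
      split_ifs <;> rfl
    · beta_reduce
      rw [if_neg (by omega), show l - 2 - r = 2 * σ - 2 by omega, h5]
    · beta_reduce
      rw [if_neg (by omega), show l - 3 - r = 2 * σ - 3 by omega, h6]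
  have clY : ∀ d t, t + 2 * d + 1 = 2 * σ →
      ∀ x, H.Adj (f (r + t)) x → Tail f r l x ∨ x = f (r - 2) := by
    intro d
    induction d with
    | zero =>
      intro t ht x hx
      left
      apply c.lemA hf f0
      rwa [show l - 1 = r + t by omega]
    | succ d ih =>
      intro t ht x hx
      have h1 := ih (t + 2) (by omega)
      obtain ⟨ψ, g1, g2, g3, g4, g5, g6⟩ := hcp (t + 1) (by omega) (by omega) (by omega) h1
      refine c.lemE8 hf f0 (by omega) hr (g4.trunc (k := l - 2) (by omega)) ?_ ?_ ?_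
      · intro i hi; exact ⟨_, g1 i (by omega), rfl⟩
      · intro i hi; simp only [g2 i hi]
      · simp only [g6]; exact hx
  have clY' : ∀ t, t < 2 * σ → t % 2 = 1 →
      ∀ x, H.Adj (f (r + t)) x → Tail f r l x ∨ x = f (r - 2) :=
    fun t h1 h2 => clY ((2 * σ - 1 - t) / 2) t (by omega)
  refine ⟨σ, hσ, hqσ, clY', ?_⟩
  intro t ht0 ht ht2 y hy
  obtain ⟨ψ, g1, g2, g3, g4, g5, g6⟩ := hcp t ht2 (by omega) (by omega)
    (clY' (t + 1) (by omega) (by omega))
  by_cases oy : Off f l y
  · right; right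
    refine ⟨oy, fun x hx => ?_⟩
    have p1 := g4.snoc (x := y) (fun i hi => oy _ (g1 i hi)) (fun _ => by
      simp only [show l - 1 - 1 = l - 2 by omega, g5]; exact hy)
    rw [show l - 1 + 1 = l by omega] at p1
    obtain ⟨j, hj1, hj2, e⟩ := c.lemA p1 (by
      rw [cat_lt (by omega)]; simp only [g2 0 (by omega)]; exact f0) (x := x) (by
      rw [cat_ge le_rfl]; exact hx)
    by_cases hj : j < l - 1
    · rw [cat_lt hj] at e
      exact ⟨ψ j, g3 j hj1, g1 j hj, e⟩
    · rw [cat_ge (by omega)] at e; exact absurd e hx.ne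
  unfold Off at oy
  push Not at oy
  obtain ⟨i, hi, rfl⟩ := oy
  by_cases hir : r ≤ i
  · exact Or.inl ⟨i, hir, hi, rfl⟩
  by_cases hi1 : i + 1 = r
  · right; left; congr 1; omega
  exfalso
  refine c.lemG hf f0 hrl g4 (fun j hj => ⟨_, g1 j hj, rfl⟩) (t := i) (by omega) ?_ ?_
  · intro j hj; simp only [g2 j (by omega)]
  · simp only [g5]; exact hy

end Pool.Agent.Lib.MP_95bdb0_co
end

-- part Pool.Agent.Lib.MP_95bdb0_co.Twins
section

/-!
Broom-free graphs: huge vertices and twin cliques.
-/

set_option linter.unusedVariables false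
set_option linter.unusedSectionVars false

namespace Pool.Agent.Lib.MP_95bdb0_co

open Finset

variable {V : Type*} [Fintype V] [DecidableEq V] {G : SimpleGraph V} {f g : ℕ → V} {n k m : ℕ} {s : V → Bool}

/-- No path with `2m` vertices has `m` further neighbours of its first vertex. -/
def NoBroom (G : SimpleGraph V) (m : ℕ) : Prop :=
  ∀ (f : ℕ → V) (L : Finset V), IsPath G f (2 * m) →
    (∀ x ∈ L, G.Adj (f 0) x ∧ Off f (2 * m) x) → L.card < m

/-- Balls. -/
noncomputable def ball (G : SimpleGraph V) (u : V) : ℕ → Finset V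
  | 0 => {u}
  | (k + 1) => ball G u k ∪ (ball G u k).biUnion (nb G)

theorem ball_card {D : ℕ} (hD : ∀ v, (nb G v).card ≤ D) (u : V) (k : ℕ) :
    (ball G u k).card ≤ (D + 1) ^ k := by
  classical
  induction k with
  | zero => simp [ball]
  | succ k ih =>
    have h1 : ((ball G u k).biUnion (nb G)).card ≤ (ball G u k).card * D :=
      Finset.card_biUnion_le_card_mul _ _ _ (fun v _ => hD v)
    have h2 : (ball G u (k + 1)).card ≤ (ball G u k).card + ((ball G u k).biUnion (nb G)).card := by
      rw [ball]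
      exact Finset.card_union_le _ _
    calc _ ≤ (ball G u k).card * (D + 1) := by rw [mul_add]; omega
      _ ≤ (D + 1) ^ k * (D + 1) := by gcongr
      _ = _ := by ring

theorem ball_mono (u : V) {i j : ℕ} (h : i ≤ j) : ball G u i ⊆ ball G u j := by
  induction h with
  | refl => exact Finset.Subset.refl _
  | step _ ih =>
    intro x hx
    rw [ball]
    simp only [mem_union]
    exact Or.inl (ih hx)

theorem IsPath.mem_ball (hf : IsPath G f n) : ∀ i, i < n → f i ∈ ball G (f 0) i := by
  intro i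
  induction i with
  | zero => intro _; simp [ball]
  | succ i ih =>
    intro hi
    rw [ball]
    simp only [mem_union, mem_biUnion]
    exact Or.inr ⟨f i, ih (by omega), mem_nb.2 (hf.adj i hi)⟩

theorem exists_huge (hc : G.Preconnected) (hb : NoBroom G m) {u : V}
    (hu : m + 1 ≤ (nb G u).card) (hn : (4 * m + 1) ^ (2 * m) < Fintype.card V) :
    ∃ c, 4 * m ≤ (nb G c).card := by
  classical
  by_contra hne
  push Not at hne
  have h1 := ball_card (G := G) (D := 4 * m) (fun v => (hne v).le) u (2 * m)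
  obtain ⟨v, hv⟩ : ∃ v, v ∉ ball G u (2 * m) := by
    by_contra h
    push Not at h
    have : ball G u (2 * m) = univ := Finset.eq_univ_iff_forall.2 h
    rw [this, Finset.card_univ] at h1
    omega
  obtain ⟨g, k, p, hk, g0, gl, -, -, hch, -⟩ := exists_geodesic hc (A := {u}) (B := {v})
    (Set.singleton_nonempty _) (Set.singleton_nonempty _)
  rw [Set.mem_singleton_iff] at g0 gl
  have hk2 : 2 * m < k := by
    by_contra h
    apply hv
    have := p.mem_ball (k - 1) (by omega)
    rw [g0, gl] at this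
    exact ball_mono u (by omega) this
  have := hb g ((nb G u).erase (g 1)) (p.trunc hk2.le) (by
    intro x hx
    obtain ⟨h2, h3⟩ := Finset.mem_erase.1 hx
    rw [mem_nb] at h3
    refine ⟨g0 ▸ h3, fun i hi e => ?_⟩
    by_cases i0 : i = 0
    · subst i0; rw [g0] at e; exact h3.ne e
    by_cases i1 : i = 1
    · subst i1; exact h2 e.symm
    exact hch u rfl i (by omega) (by omega) (e ▸ h3))
  have h4 := Finset.pred_card_le_card_erase (s := nb G u) (a := g 1)
  omega

theorem huge_short (hb : NoBroom G m) (hf : IsPath G f n) (h0 : 3 * m ≤ (nb G (f 0)).card) :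
    n < 2 * m := by
  classical
  by_contra h
  have := hb f (nb G (f 0) \ (range (2 * m)).image f) (hf.trunc (by omega)) (by
    intro x hx
    obtain ⟨h2, h3⟩ := Finset.mem_sdiff.1 hx
    refine ⟨mem_nb.1 h2, fun i hi e => h3 ?_⟩
    exact Finset.mem_image.2 ⟨i, Finset.mem_range.2 hi, e⟩)
  have h4 := Finset.le_card_sdiff ((range (2 * m)).image f) (nb G (f 0))
  have h5 : ((range (2 * m)).image f).card ≤ 2 * m := by
    simpa using Finset.card_image_le (s := range (2 * m)) (f := f)
  omega

/-- Many common neighbours. -/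
def Tw (G : SimpleGraph V) (m : ℕ) (x y : V) : Prop := 4 * m ≤ (nb G x ∩ nb G y).card

/-- A set of pairwise twins. -/
def Clq (G : SimpleGraph V) (m : ℕ) (S : Finset V) : Prop := ∀ x ∈ S, ∀ y ∈ S, Tw G m x y

theorem Tw.side (hs : Bip G s) (hm : 1 ≤ m) {x y : V} (h : Tw G m x y) : s x = s y := by
  classical
  unfold Tw at h
  obtain ⟨w, hw⟩ := Finset.card_pos.1 (lt_of_lt_of_le (by omega : 0 < 4 * m) h)
  simp only [mem_inter, mem_nb] at hw
  have h1 := hs _ _ hw.1
  have h2 := hs _ _ hw.2
  revert h1 h2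
  cases s x <;> cases s y <;> cases s w <;> simp

theorem Tw.deg {x y : V} (h : Tw G m x y) : 4 * m ≤ (nb G x).card := by
  classical
  unfold Tw at h
  refine h.trans (Finset.card_le_card ?_)
  intro z hz
  simp only [mem_inter] at hz
  exact hz.1

open Classical in
theorem pstar (hb : NoBroom G m) (hs : Bip G s) (hm : 1 ≤ m) {S : Finset V} (hS : Clq G m S) :
    ∀ (j : ℕ) (f : ℕ → V) (n : ℕ), IsPath G f n → 0 < n → f 0 ∈ S →
      j ≤ (S.filter (Off f n)).card → n + 2 * j < 2 * m := by
  intro j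
  induction j with
  | zero =>
    intro f n hf hn h0 _
    have := (hS _ h0 _ h0).deg
    exact huge_short hb hf (by omega)
  | succ j ih =>
    intro f n hf hn h0 hj
    have hn2 : n < 2 * m := by
      have := (hS _ h0 _ h0).deg
      exact huge_short hb hf (by omega)
    obtain ⟨x, hx⟩ := Finset.card_pos.1 (lt_of_lt_of_le (Nat.succ_pos j) hj)
    obtain ⟨hxS, hxo⟩ := Finset.mem_filter.1 hx
    have htw := hS _ hxS _ h0
    obtain ⟨y, hy, hy'⟩ : ∃ y ∈ nb G x ∩ nb G (f 0), y ∉ (range n).image f := by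
      by_contra h
      push Not at h
      have h1 := Finset.card_le_card (show nb G x ∩ nb G (f 0) ⊆ (range n).image f from h)
      have h2 : ((range n).image f).card ≤ n := by
        simpa using Finset.card_image_le (s := range n) (f := f)
      unfold Tw at htw
      omega
    simp only [mem_inter, mem_nb] at hy
    have oy : Off f n y := fun i hi e => hy' (Finset.mem_image.2 ⟨i, Finset.mem_range.2 hi, e⟩)
    have p1 := (isPath_single (G := G) x).snoc (x := y) (fun i _ => hy.1.ne) (fun _ => hy.1)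
    have p2 := p1.cat hf (by
      intro i j hi hj
      by_cases h : i < 1
      · rw [cat_lt h]; exact (hxo j hj).symm
      · rw [cat_ge (by omega)]; exact (oy j hj).symm) (fun _ _ => by
        rw [cat_ge (by omega)]; exact hy.2.symm)
    have := ih _ _ p2 (by omega) (by rw [cat_lt (by omega), cat_lt (by omega)]; exact hxS) (by
      have h1 : (S.filter (Off f n)).erase x ⊆
          S.filter (Off (cat (cat (fun _ => x) 1 fun _ => y) (1 + 1) f) (1 + 1 + n)) := by
        intro z hz
        obtain ⟨h2, h3⟩ := Finset.mem_erase.1 hz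
        obtain ⟨h4, h5⟩ := Finset.mem_filter.1 h3
        refine Finset.mem_filter.2 ⟨h4, fun i hi => ?_⟩
        by_cases c1 : i < 1 + 1
        · rw [cat_lt c1]
          by_cases c2 : i < 1
          · rw [cat_lt c2]; exact h2.symm
          · rw [cat_ge (by omega)]
            intro e
            have h6 := (hS _ hxS _ h4).side hs hm
            have h7 := hs _ _ hy.1
            rw [e] at h7
            exact h7 h6
        · rw [cat_ge (by omega)]; exact h5 _ (by omega)
      have h2 := Finset.card_le_card h1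
      have h3 := Finset.pred_card_le_card_erase (s := S.filter (Off f n)) (a := x)
      omega)
    omega

theorem pstar2 (hb : NoBroom G m) (hs : Bip G s) (hm : 1 ≤ m) {S : Finset V} (hS : Clq G m S)
    (hf : IsPath G f n) (hn : 0 < n) (h0 : f 0 ∈ S) (I : Finset ℕ)
    (hI : ∀ i ∈ I, i < n ∧ f i ∉ S ∧ s (f i) = s (f 0)) : I.card + S.card ≤ m := by
  classical
  have h1 := pstar hb hs hm hS _ f n hf hn h0 le_rfl
  set J := (range n).filter (fun i => f i ∈ S) with hJ
  have h2 : S ⊆ J.image f ∪ S.filter (Off f n) := by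
    intro x hx
    by_cases h : Off f n x
    · exact Finset.mem_union_right _ (Finset.mem_filter.2 ⟨hx, h⟩)
    · unfold Off at h
      push Not at h
      obtain ⟨i, hi, rfl⟩ := h
      exact Finset.mem_union_left _ (Finset.mem_image.2
        ⟨i, Finset.mem_filter.2 ⟨Finset.mem_range.2 hi, hx⟩, rfl⟩)
  have h3 : S.card ≤ J.card + (S.filter (Off f n)).card :=
    (Finset.card_le_card h2).trans ((Finset.card_union_le _ _).trans
      (by gcongr; exact Finset.card_image_le))
  have h4 : Disjoint I J := by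
    rw [Finset.disjoint_left]
    intro i hi hj
    exact (hI i hi).2.1 (Finset.mem_filter.1 hj).2
  have h5 : (I ∪ J).card ≤ (n + 1) / 2 := by
    apply card_le_half (lo := 0) (e := 0)
    intro i hi
    rcases Finset.mem_union.1 hi with hi | hi
    · obtain ⟨a, b, c⟩ := hI i hi
      have := (hf.side hs i a).1 c
      omega
    · obtain ⟨a, b⟩ := Finset.mem_filter.1 hi
      rw [Finset.mem_range] at a
      have := (hf.side hs i a).1 ((hS _ b _ h0).side hs hm)
      omega
  rw [Finset.card_union_of_disjoint h4] at h5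
  omega

theorem card_W_le {S W : Finset V} {σ0 : ℕ} (hmax : ∀ T, Clq G m T → T.card ≤ σ0)
    (hW : ∀ w ∈ W, σ0 < (nb G w ∩ S).card) :
    W.card ≤ S.card * S.card * (4 * m) := by
  classical
  have h1 : W ⊆ ((S ×ˢ S).filter (fun p => ¬ Tw G m p.1 p.2)).biUnion
      (fun p => nb G p.1 ∩ nb G p.2) := by
    intro w hw
    have h2 : ¬ Clq G m (nb G w ∩ S) := fun h => by
      have := hmax _ h
      have := hW w hw
      omega
    unfold Clq at h2
    push Not at h2
    obtain ⟨x, hx, y, hy, hxy⟩ := h2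
    simp only [mem_inter, mem_nb] at hx hy
    simp only [mem_biUnion, mem_filter, mem_product, mem_inter, mem_nb]
    exact ⟨(x, y), ⟨⟨hx.2, hy.2⟩, hxy⟩, hx.1.symm, hy.1.symm⟩
  refine (Finset.card_le_card h1).trans ?_
  refine (Finset.card_biUnion_le_card_mul _ _ (4 * m) ?_).trans ?_
  · intro p hp
    have := (Finset.mem_filter.1 hp).2
    unfold Tw at this
    push Not at this
    exact this.le
  · gcongr
    refine (Finset.card_filter_le _ _).trans ?_
    simp

end Pool.Agent.Lib.MP_95bdb0_co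
end
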